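import Mathlib

/-!
# Averaging a `1`-form over a circle action
-/

set_option autoImplicit false

open Set Filter Topology Metric MeasureTheory
open scoped ContDiff

namespace Pool.Agent.Helper37.CA

section
variable {E : Type} [NormedAddCommGroup E] [NormedSpace ℝ E]

/-- the exterior derivative of a `1`-form -/
noncomputable def d1 (a : E → E →L[ℝ] ℝ) (x u v : E) : ℝ := fderiv ℝ a x u v - fderiv ℝ a x v u

/-- the derivative of an integral over `[0,1]` with a parameter -/
theorem par_deriv [FiniteDimensional ℝ E] {F : Type} [NormedAddCommGroup F] [NormedSpace ℝ F]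
    {G : ℝ × E → F} (hG : ContDiff ℝ ∞ G) (x : E) :
    HasFDerivAt (fun x => ∫ t in (0 : ℝ)..1, G (t, x))
      (∫ t in (0 : ℝ)..1, (fderiv ℝ G (t, x)).comp (ContinuousLinearMap.inr ℝ ℝ E)) x := by
  have hG' : ContDiff ℝ ∞ (fderiv ℝ G) := hG.fderiv_right le_rfl
  set G1 : ℝ × E → E →L[ℝ] F := fun z =>
    (fderiv ℝ G z).comp (ContinuousLinearMap.inr ℝ ℝ E) with hG1
  have hG1s : ContDiff ℝ ∞ G1 := hG'.clm_comp contDiff_const
  have hcomp : IsCompact ((Icc (0 : ℝ) 1) ×ˢ Metric.closedBall x 1) := by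
    have : ProperSpace E := FiniteDimensional.proper ℝ E
    exact isCompact_Icc.prod (isCompact_closedBall x 1)
  obtain ⟨M, hM⟩ := hcomp.exists_bound_of_continuousOn hG1s.continuous.continuousOn
  refine intervalIntegral.hasFDerivAt_integral_of_dominated_of_fderiv_le
    (F := fun x t => G (t, x)) (F' := fun x t => G1 (t, x)) (s := Metric.closedBall x 1)
    (bound := fun _ => M) (Metric.closedBall_mem_nhds x one_pos) ?_ ?_ ?_ ?_ ?_ ?_
  · exact Eventually.of_forall fun y =>
      (hG.continuous.comp (by fun_prop : Continuous fun t : ℝ => (t, y))).aestronglyMeasurable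
  · exact (hG.continuous.comp
      (by fun_prop : Continuous fun t : ℝ => (t, x))).intervalIntegrable _ _
  · exact (hG1s.continuous.comp
      (by fun_prop : Continuous fun t : ℝ => (t, x))).aestronglyMeasurable
  · refine Eventually.of_forall fun t ht y hy => hM (t, y) ⟨?_, hy⟩
    rw [uIoc_of_le zero_le_one] at ht
    exact ⟨ht.1.le, ht.2⟩
  · exact intervalIntegrable_const
  · refine Eventually.of_forall fun t _ y _ => ?_
    have h1 : HasFDerivAt G (fderiv ℝ G (t, y)) (t, y) :=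
      ((hG.differentiable (by simp)) (t, y)).hasFDerivAt
    have h2 : HasFDerivAt (fun z : E => ((t, z) : ℝ × E)) (ContinuousLinearMap.inr ℝ ℝ E) y :=
      hasFDerivAt_prodMk_right t y
    exact h1.comp y h2

/-- smooth dependence of an integral over `[0,1]` on a parameter -/
theorem par_nat [FiniteDimensional ℝ E] :
    ∀ (n : ℕ) (F : Type) [NormedAddCommGroup F] [NormedSpace ℝ F] (G : ℝ × E → F),
      ContDiff ℝ ∞ G → ContDiff ℝ n (fun x => ∫ t in (0 : ℝ)..1, G (t, x)) := by
  intro n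
  induction n with
  | zero =>
    intro F _ _ G hG
    rw [Nat.cast_zero, contDiff_zero]
    exact intervalIntegral.continuous_parametric_intervalIntegral_of_continuous'
      (f := fun (x : E) (t : ℝ) => G (t, x)) (hG.continuous.comp (by fun_prop)) 0 1
  | succ n ih =>
    intro F _ _ G hG
    have hG' : ContDiff ℝ ∞ (fderiv ℝ G) := hG.fderiv_right le_rfl
    have e1 : ((n + 1 : ℕ) : WithTop ℕ∞) = (n : WithTop ℕ∞) + 1 := by push_cast; rfl
    rw [e1, contDiff_succ_iff_hasFDerivAt]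
    exact ⟨_, ih _ (fun z => (fderiv ℝ G z).comp (ContinuousLinearMap.inr ℝ ℝ E))
      (hG'.clm_comp contDiff_const), fun x => par_deriv hG x⟩

theorem par_smooth [FiniteDimensional ℝ E] {F : Type} [NormedAddCommGroup F] [NormedSpace ℝ F]
    {G : ℝ × E → F} (hG : ContDiff ℝ ∞ G) : ContDiff ℝ ∞ (fun x => ∫ t in (0 : ℝ)..1, G (t, x)) :=
  contDiff_infty.2 fun n => par_nat n F G hG

/-- pullback of a `1`-form -/
noncomputable def pb1 (g : E → E) (a : E → E →L[ℝ] ℝ) (x : E) : E →L[ℝ] ℝ :=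
  (a (g x)).comp (fderiv ℝ g x)

/-- `d (g^* a) = g^* (d a)` -/
theorem d1_pb1 {g : E → E} {a : E → E →L[ℝ] ℝ} (hg : ContDiff ℝ ∞ g) (ha : ContDiff ℝ ∞ a)
    (x u v : E) : d1 (pb1 g a) x u v = d1 a (g x) (fderiv ℝ g x u) (fderiv ℝ g x v) := by
  have hinf : (∞ : WithTop ℕ∞) ≠ 0 := by simp
  have h2inf : (2 : WithTop ℕ∞) ≤ ∞ := WithTop.coe_le_coe.2 (le_top : (2 : ℕ∞) ≤ ⊤)
  have hg1 : ContDiff ℝ ∞ (fderiv ℝ g) := hg.fderiv_right le_rfl
  have h1 : HasFDerivAt (fun y => a (g y)) ((fderiv ℝ a (g x)).comp (fderiv ℝ g x)) x :=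
    ((ha.differentiable hinf) (g x)).hasFDerivAt.comp x ((hg.differentiable hinf) x).hasFDerivAt
  have h2 : HasFDerivAt (fderiv ℝ g) (fderiv ℝ (fderiv ℝ g) x) x :=
    ((hg1.differentiable hinf) x).hasFDerivAt
  have h3 := h1.clm_comp h2
  have h4 : fderiv ℝ (pb1 g a) x = _ := h3.fderiv
  have hs : ∀ a b, fderiv ℝ (fderiv ℝ g) x a b = fderiv ℝ (fderiv ℝ g) x b a := by
    intro a b
    have h1 : IsSymmSndFDerivAt ℝ g x := (hg.contDiffAt).isSymmSndFDerivAt (by simp; exact h2inf)
    exact h1.eq a b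
  unfold d1
  rw [h4]
  simp only [add_apply, ContinuousLinearMap.comp_apply,
    ContinuousLinearMap.compL_apply, ContinuousLinearMap.flip_apply]
  rw [hs u v]
  ring

end

/-- a smooth action of the circle `ℝ / ℤ` -/
structure Circ {E : Type} [NormedAddCommGroup E] [NormedSpace ℝ E] (S : ℝ → E → E) : Prop where
  smooth : ContDiff ℝ ∞ (fun z : ℝ × E => S z.1 z.2)
  zero : ∀ x, S 0 x = x
  add : ∀ s t x, S (s + t) x = S s (S t x)
  one : ∀ x, S 1 x = x

section
variable {E : Type} [NormedAddCommGroup E] [NormedSpace ℝ E] {S : ℝ → E → E}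

/-- the generator -/
noncomputable def gen (S : ℝ → E → E) (x : E) : E := fderiv ℝ (fun z : ℝ × E => S z.1 z.2) (0, x) (1, 0)

/-- the average of a `1`-form -/
noncomputable def avg (S : ℝ → E → E) (a : E → E →L[ℝ] ℝ) (x : E) : E →L[ℝ] ℝ :=
  ∫ t in (0 : ℝ)..1, pb1 (S t) a x

theorem Circ.right (h : Circ S) (t : ℝ) : ContDiff ℝ ∞ (S t) :=
  h.smooth.comp (contDiff_const.prodMk contDiff_id)

theorem Circ.space (h : Circ S) (t : ℝ) (x : E) : fderiv ℝ (S t) x =
    (fderiv ℝ (fun z : ℝ × E => S z.1 z.2) (t, x)).comp (ContinuousLinearMap.inr ℝ ℝ E) := by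
  have h1 : HasFDerivAt (S t) ((fderiv ℝ (fun z : ℝ × E => S z.1 z.2) (t, x)).comp
      (ContinuousLinearMap.inr ℝ ℝ E)) x :=
    ((h.smooth.differentiable (by simp)) (t, x)).hasFDerivAt.comp x (hasFDerivAt_prodMk_right t x)
  exact h1.fderiv

/-- the integrand as a function on `ℝ × E` -/
theorem Circ.integrand (h : Circ S) {a : E → E →L[ℝ] ℝ} (ha : ContDiff ℝ ∞ a) :
    ContDiff ℝ ∞ (fun z : ℝ × E => pb1 (S z.1) a z.2) := by
  have h1 : (fun z : ℝ × E => pb1 (S z.1) a z.2) = fun z : ℝ × E => (a (S z.1 z.2)).comp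
      ((fderiv ℝ (fun z : ℝ × E => S z.1 z.2) z).comp (ContinuousLinearMap.inr ℝ ℝ E)) := by
    funext z
    unfold pb1
    rw [h.space]
  rw [h1]
  exact (ha.comp h.smooth).clm_comp ((h.smooth.fderiv_right le_rfl).clm_comp contDiff_const)

theorem Circ.avg_smooth [FiniteDimensional ℝ E] (h : Circ S) {a : E → E →L[ℝ] ℝ}
    (ha : ContDiff ℝ ∞ a) : ContDiff ℝ ∞ (avg S a) :=
  par_smooth (G := fun z : ℝ × E => pb1 (S z.1) a z.2) (h.integrand ha)

theorem Circ.avg_int (h : Circ S) {a : E → E →L[ℝ] ℝ}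
    (ha : ContDiff ℝ ∞ a) (x : E) (p q : ℝ) :
    IntervalIntegrable (fun t => pb1 (S t) a x) volume p q :=
  ((h.integrand ha).continuous.comp
    (by fun_prop : Continuous fun t : ℝ => (t, x))).intervalIntegrable _ _

theorem Circ.avg_apply [FiniteDimensional ℝ E] (h : Circ S) {a : E → E →L[ℝ] ℝ}
    (ha : ContDiff ℝ ∞ a) (x v : E) : avg S a x v = ∫ t in (0 : ℝ)..1, pb1 (S t) a x v :=
  ContinuousLinearMap.intervalIntegral_apply (h.avg_int ha x 0 1) v

/-- the derivative of the average -/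
theorem Circ.fderiv_avg [FiniteDimensional ℝ E] (h : Circ S) {a : E → E →L[ℝ] ℝ}
    (ha : ContDiff ℝ ∞ a) (x u v : E) : fderiv ℝ (avg S a) x u v =
      ∫ t in (0 : ℝ)..1, fderiv ℝ (pb1 (S t) a) x u v := by
  set G : ℝ × E → ℝ := fun z => pb1 (S z.1) a z.2 v with hG
  have hGs : ContDiff ℝ ∞ G := (h.integrand ha).clm_apply contDiff_const
  have hG1 : ContDiff ℝ ∞ (fun z => (fderiv ℝ G z).comp (ContinuousLinearMap.inr ℝ ℝ E)) :=
    (hGs.fderiv_right le_rfl).clm_comp contDiff_const
  have h0 : (fun y => avg S a y v) = fun y => ∫ t in (0 : ℝ)..1, G (t, y) := by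
    funext y
    exact h.avg_apply ha y v
  have h1 : HasFDerivAt (fun y => avg S a y v) ((fderiv ℝ (avg S a) x).flip v) x := by
    have h2 := (((h.avg_smooth ha).differentiable (by simp)) x).hasFDerivAt.clm_apply
      (hasFDerivAt_const v x)
    refine h2.congr_fderiv ?_
    ext w
    simp
  have hd : HasFDerivAt (fun y => avg S a y v) (∫ t in (0 : ℝ)..1,
      (fderiv ℝ G (t, x)).comp (ContinuousLinearMap.inr ℝ ℝ E)) x := by
    rw [h0]
    exact par_deriv hGs x
  have h3 : fderiv ℝ (avg S a) x u v = (∫ t in (0 : ℝ)..1,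
      (fderiv ℝ G (t, x)).comp (ContinuousLinearMap.inr ℝ ℝ E)) u := by
    rw [hd.unique h1]
    rfl
  have hint : IntervalIntegrable (fun t => (fderiv ℝ G (t, x)).comp (ContinuousLinearMap.inr ℝ ℝ E))
      volume 0 1 := (hG1.continuous.comp
    (by fun_prop : Continuous fun t : ℝ => (t, x))).intervalIntegrable _ _
  rw [h3, ContinuousLinearMap.intervalIntegral_apply hint u]
  refine intervalIntegral.integral_congr fun t _ => ?_
  have h4 : HasFDerivAt (fun y => pb1 (S t) a y v)
      ((fderiv ℝ G (t, x)).comp (ContinuousLinearMap.inr ℝ ℝ E)) x :=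
    ((hGs.differentiable (by simp)) (t, x)).hasFDerivAt.comp x (hasFDerivAt_prodMk_right t x)
  have hsm : ContDiff ℝ ∞ (pb1 (S t) a) :=
    (h.integrand ha).comp (contDiff_const.prodMk contDiff_id)
  have h5 : HasFDerivAt (fun y => pb1 (S t) a y v) ((fderiv ℝ (pb1 (S t) a) x).flip v) x := by
    have h2 := ((hsm.differentiable (by simp)) x).hasFDerivAt.clm_apply (hasFDerivAt_const v x)
    refine h2.congr_fderiv ?_
    ext w
    simp
  show (fderiv ℝ G (t, x)).comp (ContinuousLinearMap.inr ℝ ℝ E) u = _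
  rw [h4.unique h5]
  rfl

/-- `d (avg a) = B` if `d a = B` and `B` is invariant -/
theorem Circ.d1_avg [FiniteDimensional ℝ E] (h : Circ S) {a : E → E →L[ℝ] ℝ}
    (ha : ContDiff ℝ ∞ a) (hinv : ∀ t x u v, d1 a (S t x) (fderiv ℝ (S t) x u) (fderiv ℝ (S t) x v)
      = d1 a x u v) (x u v : E) : d1 (avg S a) x u v = d1 a x u v := by
  have hint3 : ∀ u v, IntervalIntegrable (fun t => fderiv ℝ (pb1 (S t) a) x u v) volume 0 1 := by
    intro u v
    have hGs : ContDiff ℝ ∞ (fun z : ℝ × E => pb1 (S z.1) a z.2 v) :=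
      (h.integrand ha).clm_apply contDiff_const
    have h1 : (fun t => fderiv ℝ (pb1 (S t) a) x u v) = fun t =>
        fderiv ℝ (fun z : ℝ × E => pb1 (S z.1) a z.2 v) (t, x) (0, u) := by
      funext t
      have h4 : HasFDerivAt (fun y => pb1 (S t) a y v)
          ((fderiv ℝ (fun z : ℝ × E => pb1 (S z.1) a z.2 v) (t, x)).comp
            (ContinuousLinearMap.inr ℝ ℝ E)) x :=
        ((hGs.differentiable (by simp)) (t, x)).hasFDerivAt.comp x (hasFDerivAt_prodMk_right t x)
      have hsm : ContDiff ℝ ∞ (pb1 (S t) a) :=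
        (h.integrand ha).comp (contDiff_const.prodMk contDiff_id)
      have h5 : HasFDerivAt (fun y => pb1 (S t) a y v) ((fderiv ℝ (pb1 (S t) a) x).flip v) x := by
        have h2 := ((hsm.differentiable (by simp)) x).hasFDerivAt.clm_apply (hasFDerivAt_const v x)
        refine h2.congr_fderiv ?_
        ext w
        simp
      have h6 := congrArg (fun L : E →L[ℝ] ℝ => L u) (h5.unique h4)
      simpa using h6
    rw [h1]
    exact (((hGs.fderiv_right (m := ∞) le_rfl).continuous.comp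
      (by fun_prop : Continuous fun t : ℝ => (t, x))).clm_apply
        continuous_const).intervalIntegrable _ _
  show fderiv ℝ (avg S a) x u v - fderiv ℝ (avg S a) x v u = _
  rw [h.fderiv_avg ha, h.fderiv_avg ha, ← intervalIntegral.integral_sub (hint3 u v) (hint3 v u)]
  have h2 : ∀ t ∈ uIcc (0 : ℝ) 1, fderiv ℝ (pb1 (S t) a) x u v - fderiv ℝ (pb1 (S t) a) x v u =
      d1 a x u v := by
    intro t _
    have := d1_pb1 (h.right t) ha x u v
    rw [hinv] at this
    exact this
  rw [intervalIntegral.integral_congr h2, intervalIntegral.integral_const]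
  simp

/-- the average is invariant -/
theorem Circ.avg_inv [FiniteDimensional ℝ E] (h : Circ S) {a : E → E →L[ℝ] ℝ}
    (ha : ContDiff ℝ ∞ a) (τ : ℝ) (x v : E) :
    avg S a (S τ x) (fderiv ℝ (S τ) x v) = avg S a x v := by
  rw [h.avg_apply ha, h.avg_apply ha]
  set f : ℝ → ℝ := fun t => pb1 (S t) a x v with hf
  have hper : Function.Periodic f 1 := by
    intro t
    have : S (t + 1) = S t := by
      funext y
      rw [h.add, h.one]
    show pb1 (S (t + 1)) a x v = pb1 (S t) a x v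
    rw [this]
  have h1 : ∀ t, pb1 (S t) a (S τ x) (fderiv ℝ (S τ) x v) = f (t + τ) := by
    intro t
    have h2 : S (t + τ) = S t ∘ S τ := by
      funext y
      exact h.add t τ y
    show a (S t (S τ x)) (fderiv ℝ (S t) (S τ x) (fderiv ℝ (S τ) x v)) =
      a (S (t + τ) x) (fderiv ℝ (S (t + τ)) x v)
    rw [h2, fderiv_comp x ((h.right t).differentiable (by simp) _)
      ((h.right τ).differentiable (by simp) _)]
    rfl
  calc ∫ t in (0 : ℝ)..1, pb1 (S t) a (S τ x) (fderiv ℝ (S τ) x v)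
      = ∫ t in (0 : ℝ)..1, f (t + τ) := intervalIntegral.integral_congr fun t _ => h1 t
    _ = ∫ t in (0 + τ)..(1 + τ), f t := intervalIntegral.integral_comp_add_right f τ
    _ = ∫ t in (0 : ℝ)..1, f t := by
        have := hper.intervalIntegral_add_eq τ 0
        rw [zero_add] at this
        rw [zero_add, add_comm 1 τ]
        exact this

end

end Pool.Agent.Helper37.CA
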