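import Pool.Agent.Helper37.CA.Shape

/-!
# Infinitesimal displacement of compact sets
-/

set_option autoImplicit false

open Set Filter Topology Metric MeasureTheory Asymptotics
open scoped ContDiff NNReal

namespace Pool.Agent.Helper37.CA

open Pool.Agent.Helper91.SY

section
variable {E : Type} [NormedAddCommGroup E] [NormedSpace ℝ E]

/-- `X` is a limit, at the point `q`, of multiples of chords of the set `K` whose length tends to `0` -/
def Chord (K : Set E) (q X : E) : Prop := ∃ (x y : ℕ → E) (t : ℕ → ℝ), (∀ j, x j ∈ K) ∧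
  (∀ j, y j ∈ K) ∧ (∀ j, 0 < t j) ∧ Tendsto t atTop (𝓝 0) ∧ Tendsto x atTop (𝓝 q) ∧
  Tendsto (fun j => (t j)⁻¹ • (y j - x j)) atTop (𝓝 X)

/-- difference quotients of a `C¹` map along chords -/
theorem chord_map {F : Type} [NormedAddCommGroup F] [NormedSpace ℝ F] {f : E → F} {q X : E}
    (hf : ContDiff ℝ ∞ f) {x y : ℕ → E} {t : ℕ → ℝ} (ht0 : ∀ j, 0 < t j)
    (ht : Tendsto t atTop (𝓝 0)) (hx : Tendsto x atTop (𝓝 q))
    (hX : Tendsto (fun j => (t j)⁻¹ • (y j - x j)) atTop (𝓝 X)) :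
    Tendsto (fun j => (t j)⁻¹ • (f (y j) - f (x j))) atTop (𝓝 (fderiv ℝ f q X)) := by
  have hyx : Tendsto (fun j => y j - x j) atTop (𝓝 0) := by
    have h1 := ht.smul hX
    rw [zero_smul] at h1
    refine h1.congr fun j => ?_
    rw [smul_smul, mul_inv_cancel₀ (ht0 j).ne', one_smul]
  have hy : Tendsto y atTop (𝓝 q) := by
    have h1 := hyx.add hx
    rw [zero_add] at h1
    refine h1.congr fun j => ?_
    rw [sub_add_cancel]
  have hst : HasStrictFDerivAt f (fderiv ℝ f q) q :=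
    hf.contDiffAt.hasStrictFDerivAt (by simp)
  have h1 := hst.isLittleO.comp_tendsto (hy.prodMk_nhds hx)
  have h2 : (fun j => f (y j) - f (x j) - fderiv ℝ f q (y j - x j)) =o[atTop]
      fun j => y j - x j := h1
  have h3 : (fun j => y j - x j) =O[atTop] t := by
    have h4 : (fun j => (t j)⁻¹ • (y j - x j)) =O[atTop] fun _ => (1 : ℝ) := hX.isBigO_one ℝ
    have h5 := (isBigO_refl t atTop).smul h4
    refine (h5.congr (fun j => ?_) (fun j => ?_))
    · rw [smul_smul, mul_inv_cancel₀ (ht0 j).ne', one_smul]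
    · rw [smul_eq_mul, mul_one]
  have h4 := (h2.trans_isBigO h3).tendsto_inv_smul_nhds_zero
  have h5 := h4.add (((fderiv ℝ f q).continuous.tendsto X).comp hX)
  rw [zero_add] at h5
  refine h5.congr fun j => ?_
  show (t j)⁻¹ • (f (y j) - f (x j) - fderiv ℝ f q (y j - x j)) +
    fderiv ℝ f q ((t j)⁻¹ • (y j - x j)) = _
  rw [map_smul, ← smul_add, sub_add_cancel]

/-- a function which vanishes on `K` has derivative `0` in the directions of the chords -/
theorem chord_zero {F : Type} [NormedAddCommGroup F] [NormedSpace ℝ F] {f : E → F} {K : Set E}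
    {q X : E} (hf : ContDiff ℝ ∞ f) (h0 : ∀ x ∈ K, f x = 0) (hX : Chord K q X) :
    fderiv ℝ f q X = 0 := by
  obtain ⟨x, y, t, hx, hy, ht0, ht, hxq, hX⟩ := hX
  have h1 := chord_map hf ht0 ht hxq hX
  have h2 : (fun j => (t j)⁻¹ • (f (y j) - f (x j))) = fun _ => 0 := by
    funext j
    rw [h0 _ (hx j), h0 _ (hy j), sub_self, smul_zero]
  rw [h2] at h1
  exact tendsto_nhds_unique h1 tendsto_const_nhds

variable [FiniteDimensional ℝ E] {B : E → E →L[ℝ] E →L[ℝ] ℝ}

/-- the Hamiltonian flow of a function, cut off outside a neighbourhood of `K` -/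
theorem ham_flow (hB : Symp B) {K : Set E} (hK : IsCompact K) {f : E → ℝ}
    (hf : ContDiff ℝ ∞ f) : ∃ (X : E → E) (Φ : ℝ → E → E), ContDiff ℝ ∞ X ∧
      ContDiff ℝ ∞ (fun z : ℝ × E => Φ z.1 z.2) ∧ (∀ x, Φ 0 x = x) ∧
      (∀ t x, HasDerivAt (fun s => Φ s x) (X (Φ t x)) t) ∧ (∀ s t x, Φ (s + t) x = Φ s (Φ t x)) ∧
      (∀ t, Pull (Φ t) B B) ∧ ∀ q ∈ K, ∀ w, B q (X q) w = fderiv ℝ f q w := by
  have : ProperSpace E := FiniteDimensional.proper ℝ E
  obtain ⟨L, hL0, hL⟩ : ∃ L : ℝ, 0 < L ∧ ∀ x ∈ K, ‖x‖ < L := by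
    obtain ⟨L, hL⟩ := hK.isBounded.exists_norm_le
    exact ⟨max L 0 + 1, by positivity, fun x hx =>
      lt_of_le_of_lt ((hL x hx).trans (le_max_left _ _)) (lt_add_one _)⟩
  let b : ContDiffBump (0 : E) := ⟨L, L + 1, hL0, by linarith⟩
  set F : E → ℝ := fun x => b x * f x with hF
  have hbs : ContDiff ℝ ∞ (fun x : E => b x) := b.contDiff
  have hFs : ContDiff ℝ ∞ F := hbs.mul hf
  have hFeq : ∀ x ∈ K, F =ᶠ[𝓝 x] f := by
    intro x hx
    have h1 : x ∈ ball (0 : E) L := by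
      rw [mem_ball_zero_iff]
      exact hL x hx
    filter_upwards [isOpen_ball.mem_nhds h1] with y hy
    have h2 : b y = 1 := b.one_of_mem_closedBall (ball_subset_closedBall hy)
    show b y * f y = f y
    rw [h2, one_mul]
  obtain ⟨X, hX, hXF⟩ := Pool.Agent.Helper69.SY.hv_ E B F hB hFs
  have hXc : HasCompactSupport X := by
    refine HasCompactSupport.intro (isCompact_closedBall (0 : E) (L + 1)) fun x hx => ?_
    refine hB.nondeg x _ fun v => ?_
    rw [hXF x v]
    have h1 : F =ᶠ[𝓝 x] fun _ => 0 := by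
      filter_upwards [isClosed_closedBall.isOpen_compl.mem_nhds hx] with y hy
      have h2 : b y = 0 := by
        apply b.zero_of_le_dist
        rw [mem_compl_iff, mem_closedBall, not_le] at hy
        exact hy.le
      show b y * f y = 0
      rw [h2, zero_mul]
    rw [h1.fderiv_eq]
    simp
  obtain ⟨C, hC⟩ := ContDiff.lipschitzWith_of_hasCompactSupport hXc hX (by simp)
  obtain ⟨Φ, hΦ, h0, hder, hadd⟩ := exists_flow_lip hX hC
  have hflow : Flow X Φ := ⟨hΦ, h0, hder⟩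
  have hpull := Pool.Agent.Helper32.SY.fp_ E B F X Φ hB hFs hX hXF hflow
  refine ⟨X, Φ, hX, hΦ, h0, hder, hadd, fun t => (hpull t).1, fun q hq w => ?_⟩
  rw [hXF q w, (hFeq q hq).fderiv_eq]

/-- a compact set is displaced by a small Hamiltonian diffeomorphism if the Hamiltonian vector of `f` is
nowhere a limit of chords -/
theorem chord_displace (hB : Symp B) {K : Set E} (hK : IsCompact K) {f : E → ℝ}
    (hf : ContDiff ℝ ∞ f)
    (hch : ∀ q ∈ K, ∀ X, (∀ w, B q X w = fderiv ℝ f q w) → ¬ Chord K q X) :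
    ∃ g : E → E, ContDiff ℝ ∞ g ∧ Function.Injective g ∧ Pull g B B ∧ ∀ x ∈ K, g x ∉ K := by
  obtain ⟨X, Φ, hX, hΦ, h0, hder, hadd, hpull, hXK⟩ := ham_flow hB hK hf
  by_contra hcon
  have hall : ∀ s : ℝ, ∃ x ∈ K, Φ s x ∈ K := by
    intro s
    by_contra hs
    push Not at hs
    apply hcon
    refine ⟨Φ s, hΦ.comp (contDiff_const.prodMk contDiff_id), ?_, hpull s, hs⟩
    intro x y hxy
    have h2 : Φ (-s) (Φ s x) = Φ (-s) (Φ s y) := by rw [hxy]
    rwa [← hadd, ← hadd, neg_add_cancel, h0, h0] at h2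
  choose z hz hz' using hall
  obtain ⟨q, hq, σ, hσ, hzq⟩ := hK.tendsto_subseq (fun j : ℕ => hz (1 / ((j : ℝ) + 1)))
  set t : ℕ → ℝ := fun j => 1 / (((σ j : ℕ) : ℝ) + 1) with ht
  have ht0 : ∀ j, 0 < t j := fun j => by positivity
  have htt : Tendsto t atTop (𝓝 0) := tendsto_one_div_add_atTop_nhds_zero_nat.comp hσ.tendsto_atTop
  set x : ℕ → E := fun j => z (t j) with hx
  have hxq : Tendsto x atTop (𝓝 q) := hzq
  refine hch q hq (X q) (hXK q hq) ⟨x, fun j => Φ (t j) (x j), t, fun j => hz _, fun j => hz' _,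
    ht0, htt, hxq, ?_⟩
  -- the difference quotients of the flow
  have h1 := chord_map (f := fun z : ℝ × E => Φ z.1 z.2) (q := ((0 : ℝ), q)) (X := ((1 : ℝ), (0 : E)))
    (x := fun j => ((0 : ℝ), x j)) (y := fun j => (t j, x j)) hΦ ht0 htt
    (tendsto_const_nhds.prodMk_nhds hxq)
    (by
      refine tendsto_const_nhds.congr fun j => ?_
      show ((1 : ℝ), (0 : E)) = (t j)⁻¹ • ((t j, x j) - ((0 : ℝ), x j))
      rw [Prod.mk_sub_mk, sub_zero, sub_self, Prod.smul_mk, smul_zero, smul_eq_mul,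
        inv_mul_cancel₀ (ht0 j).ne'])
  have h2 : fderiv ℝ (fun z : ℝ × E => Φ z.1 z.2) ((0 : ℝ), q) ((1 : ℝ), (0 : E)) = X q := by
    have h3 : HasDerivAt ((fun z : ℝ × E => Φ z.1 z.2) ∘ fun s : ℝ => ((s, q) : ℝ × E))
        (fderiv ℝ (fun z : ℝ × E => Φ z.1 z.2) (0, q) (1, 0)) 0 :=
      HasFDerivAt.comp_hasDerivAt 0 ((hΦ.differentiable (by simp)) (0, q)).hasFDerivAt
        ((hasDerivAt_id (0 : ℝ)).prodMk (hasDerivAt_const (0 : ℝ) q))
    have h4 : HasDerivAt (fun s => Φ s q) (X q) 0 := by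
      have h5 := hder 0 q
      rwa [h0] at h5
    exact h3.unique h4
  rw [h2] at h1
  refine h1.congr fun j => ?_
  simp only [h0]

/-- a compact set without complete orbit has a function which increases along the flow -/
theorem exists_increasing {X : E → E} {φ : ℝ → E → E} (hφ : ContDiff ℝ ∞ (fun z : ℝ × E => φ z.1 z.2))
    (h0 : ∀ x, φ 0 x = x) (hadd : ∀ s t x, φ (s + t) x = φ s (φ t x))
    (hder : ∀ t x, HasDerivAt (fun s => φ s x) (X (φ t x)) t) {K : Set E} (hK : IsCompact K)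
    (hno : ∀ x, ∃ t, φ t x ∉ K) :
    ∃ h : E → ℝ, ContDiff ℝ ∞ h ∧ ∀ x ∈ K, 0 < fderiv ℝ h x (X x) := by
  have hφc : ∀ t, Continuous (φ t) := fun t =>
    hφ.continuous.comp (by fun_prop : Continuous fun x : E => (t, x))
  -- a uniform exit time
  obtain ⟨j, hj⟩ : ∃ j : ℕ, ∀ x, ∃ t ∈ Icc (-(j : ℝ)) j, φ t x ∉ K := by
    by_contra hcon
    push Not at hcon
    set C : ℕ → Set E := fun j => ⋂ t ∈ Icc (-(j : ℝ)) j, {x | φ t x ∈ K} with hC
    have hCcl : ∀ j, IsClosed (C j) := fun j =>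
      isClosed_biInter fun t _ => hK.isClosed.preimage (hφc t)
    have hCK : C 0 ⊆ K := by
      intro x hx
      have h1 := mem_iInter₂.1 hx 0 (by simp)
      have h2 : φ 0 x ∈ K := h1
      rwa [h0] at h2
    obtain ⟨x, hx⟩ := IsCompact.nonempty_iInter_of_sequence_nonempty_isCompact_isClosed C
      (by
        intro i x hx
        refine mem_iInter₂.2 fun t ht => mem_iInter₂.1 hx t ?_
        push_cast
        exact ⟨by linarith [ht.1], by linarith [ht.2]⟩)
      (by
        intro i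
        obtain ⟨x, hx⟩ := hcon i
        exact ⟨x, mem_iInter₂.2 fun t ht => hx t ht⟩)
      (hK.of_isClosed_subset (hCcl 0) hCK) hCcl
    obtain ⟨t, ht⟩ := hno x
    obtain ⟨i, hi⟩ := exists_nat_ge |t|
    exact ht (mem_iInter₂.1 (mem_iInter.1 hx i) t (abs_le.1 hi))
  set T : ℝ := 2 * j + 1 with hT
  have hT0 : 0 < T := by positivity
  have hexit : ∀ x, ∃ s ∈ Icc (0 : ℝ) 1, φ (T * s) x ∉ K := by
    intro x
    obtain ⟨t, ht, htK⟩ := hj (φ j x)
    refine ⟨(t + j) / T, ⟨?_, ?_⟩, ?_⟩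
    · have := ht.1
      apply div_nonneg _ hT0.le
      linarith
    · rw [div_le_one hT0]
      have := ht.2
      linarith
    · rw [mul_div_cancel₀ _ hT0.ne', hadd]
      exact htK
  obtain ⟨g, hgs, hg, hgr⟩ := hK.isClosed.isOpen_compl.exists_contDiff_support_eq (n := ⊤)
  have hg0 : ∀ x, 0 ≤ g x := fun x => (hgr (mem_range_self x)).1
  have hgK : ∀ x, g x = 0 ↔ x ∈ K := by
    intro x
    have h1 : x ∈ Function.support g ↔ x ∈ Kᶜ := by rw [hgs]
    rw [Function.mem_support, mem_compl_iff] at h1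
    exact not_iff_not.1 h1
  have hg' : ContDiff ℝ ∞ g := hg
  set G : ℝ × E → ℝ := fun z => (1 - z.1) * g (φ (T * z.1) z.2) with hG
  have hGs : ContDiff ℝ ∞ G := by
    have h1 : ContDiff ℝ ∞ (fun z : ℝ × E => ((T * z.1, z.2) : ℝ × E)) :=
      (contDiff_const.mul contDiff_fst).prodMk contDiff_snd
    exact (contDiff_const.sub contDiff_fst).mul (hg'.comp (hφ.comp h1))
  refine ⟨fun x => ∫ s in (0 : ℝ)..1, G (s, x), par_smooth hGs, fun x hx => ?_⟩
  have h1 := par_deriv hGs x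
  have hcont : Continuous fun s : ℝ => (fderiv ℝ G (s, x)).comp (ContinuousLinearMap.inr ℝ ℝ E) :=
    ((hGs.continuous_fderiv (by simp)).comp
      (by fun_prop : Continuous fun t : ℝ => (t, x))).clm_comp continuous_const
  rw [h1.fderiv, ContinuousLinearMap.intervalIntegral_apply (hcont.intervalIntegrable 0 1)]
  set Γ : ℝ → ℝ := fun s => g (φ (T * s) x) with hΓ
  have hΓs : ContDiff ℝ ∞ Γ := by
    have h2 : ContDiff ℝ ∞ (fun s : ℝ => ((T * s, x) : ℝ × E)) :=
      (contDiff_const.mul contDiff_id).prodMk contDiff_const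
    exact hg'.comp (hφ.comp h2)
  have hΓd : ∀ s, HasDerivAt Γ (deriv Γ s) s := fun s =>
    (hΓs.differentiable (by simp) s).hasDerivAt
  -- the derivative of `G` in the direction of `X`
  have h2 : ∀ s ∈ uIcc (0 : ℝ) 1, ((fderiv ℝ G (s, x)).comp (ContinuousLinearMap.inr ℝ ℝ E)) (X x)
      = (1 / T * (1 - s)) * deriv Γ s := by
    intro s _
    have h3 : HasDerivAt (fun ε => G (s, φ ε x)) (((fderiv ℝ G (s, x)).comp
        (ContinuousLinearMap.inr ℝ ℝ E)) (X x)) 0 := by
      have h4 : HasDerivAt (fun ε => φ ε x) (X x) 0 := by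
        have h5 := hder 0 x
        rwa [h0] at h5
      have h5 : HasFDerivAt (fun y => G (s, y)) ((fderiv ℝ G (s, x)).comp
          (ContinuousLinearMap.inr ℝ ℝ E)) (φ 0 x) := by
        rw [h0]
        exact ((hGs.differentiable (by simp)) (s, x)).hasFDerivAt.comp x
          (hasFDerivAt_prodMk_right s x)
      exact h5.comp_hasDerivAt (0 : ℝ) h4
    have h4 : (fun ε => G (s, φ ε x)) = fun ε => (1 - s) * Γ (s + 1 / T * ε) := by
      funext ε
      show (1 - s) * g (φ (T * s) (φ ε x)) = (1 - s) * g (φ (T * (s + 1 / T * ε)) x)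
      rw [← hadd, mul_add, ← mul_assoc, mul_one_div_cancel hT0.ne', one_mul]
    rw [h4] at h3
    have h5 : HasDerivAt (fun ε : ℝ => s + 1 / T * ε) (1 / T) 0 := by
      have h6 := ((hasDerivAt_id (0 : ℝ)).const_mul (1 / T)).const_add s
      rw [mul_one] at h6
      exact h6
    have h6 : HasDerivAt Γ (deriv Γ s) (s + 1 / T * 0) := by
      rw [mul_zero, add_zero]
      exact hΓd s
    have h7 : HasDerivAt (fun ε : ℝ => Γ (s + 1 / T * ε)) (deriv Γ s * (1 / T)) 0 :=
      HasDerivAt.comp (h₂ := Γ) (h := fun ε : ℝ => s + 1 / T * ε) (0 : ℝ) h6 h5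
    rw [h3.unique (h7.const_mul (1 - s))]
    ring
  rw [intervalIntegral.integral_congr h2]
  have hu : ∀ s, HasDerivAt (fun s : ℝ => 1 / T * (1 - s)) (-(1 / T)) s := by
    intro s
    have h3 := ((hasDerivAt_id s).const_sub 1).const_mul (1 / T)
    rw [mul_neg_one] at h3
    exact h3
  have hΓc : Continuous (deriv Γ) := hΓs.continuous_deriv (by simp)
  rw [intervalIntegral.integral_mul_deriv_eq_deriv_mul_of_hasDerivAt (u := fun s => 1 / T * (1 - s))
    (v := Γ) (u' := fun _ => -(1 / T)) (v' := deriv Γ)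
    (fun s _ => (hu s).continuousAt.continuousWithinAt)
    (fun s _ => (hΓd s).continuousAt.continuousWithinAt)
    (fun s _ => hu s) (fun s _ => hΓd s) intervalIntegrable_const
    (hΓc.intervalIntegrable 0 1)]
  have hΓ0 : Γ 0 = 0 := by
    show g (φ (T * 0) x) = 0
    rw [mul_zero, h0]
    exact (hgK x).2 hx
  rw [hΓ0, sub_self, mul_zero, zero_mul, mul_zero, sub_zero, zero_sub,
    intervalIntegral.integral_const_mul, neg_mul, neg_neg]
  refine mul_pos (by positivity) ?_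
  obtain ⟨s, hs, hsK⟩ := hexit x
  refine intervalIntegral.integral_pos zero_lt_one hΓs.continuous.continuousOn
    (fun s _ => hg0 _) ⟨s, hs, ?_⟩
  refine lt_of_le_of_ne (hg0 _) fun h => hsK ?_
  exact (hgK _).1 h.symm

end

end Pool.Agent.Helper37.CA
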