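import Pool.Agent.Helper37.CA.Turn
import Pool.Agent.Helper37.CA.Chord

/-!
# Circle actions commuting with a Liouville flow
-/

set_option autoImplicit false

open Set Filter Topology Metric MeasureTheory
open scoped ContDiff NNReal

namespace Pool.Agent.Helper37.CA

open Pool.Agent.Helper91.SY

section
variable {E : Type} [NormedAddCommGroup E] [NormedSpace ℝ E] {Φ : ℝ → E → E}

/-- a smooth flow -/
structure Fl {E : Type} [NormedAddCommGroup E] [NormedSpace ℝ E] (Φ : ℝ → E → E) : Prop where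
  smooth : ContDiff ℝ ∞ (fun z : ℝ × E => Φ z.1 z.2)
  zero : ∀ x, Φ 0 x = x
  add : ∀ s t x, Φ (s + t) x = Φ s (Φ t x)

theorem Fl.right (h : Fl Φ) (t : ℝ) : ContDiff ℝ ∞ (Φ t) :=
  h.smooth.comp (contDiff_const.prodMk contDiff_id)

theorem Fl.gen_smooth (h : Fl Φ) : ContDiff ℝ ∞ (gen Φ) := by
  have h1 : ContDiff ℝ ∞ (fderiv ℝ (fun z : ℝ × E => Φ z.1 z.2)) := h.smooth.fderiv_right le_rfl
  have h2 : ContDiff ℝ ∞ (fun x : E => fderiv ℝ (fun z : ℝ × E => Φ z.1 z.2) (0, x)) :=
    h1.comp (contDiff_const.prodMk contDiff_id)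
  exact h2.clm_apply contDiff_const

theorem Fl.deriv_zero (h : Fl Φ) (x : E) : HasDerivAt (fun t => Φ t x) (gen Φ x) 0 := by
  have h1 : HasDerivAt ((fun z : ℝ × E => Φ z.1 z.2) ∘ fun s : ℝ => ((s, x) : ℝ × E))
      (fderiv ℝ (fun z : ℝ × E => Φ z.1 z.2) (0, x) (1, 0)) 0 :=
    HasFDerivAt.comp_hasDerivAt 0 ((h.smooth.differentiable (by simp)) (0, x)).hasFDerivAt
      ((hasDerivAt_id (0 : ℝ)).prodMk (hasDerivAt_const (0 : ℝ) x))
  exact h1

theorem Fl.deriv (h : Fl Φ) (t : ℝ) (x : E) :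
    HasDerivAt (fun t => Φ t x) (gen Φ (Φ t x)) t := by
  have h1 := h.deriv_zero (Φ t x)
  have h2 : HasDerivAt (fun s => Φ (s - t) (Φ t x)) (gen Φ (Φ t x)) t := by
    have h3 : HasDerivAt (fun s : ℝ => s - t) 1 t := (hasDerivAt_id t).sub_const t
    have h4 : HasDerivAt (fun u => Φ u (Φ t x)) (gen Φ (Φ t x)) (t - t) := by
      rwa [sub_self]
    have h5 := HasDerivAt.scomp (g₁ := fun u => Φ u (Φ t x)) (h := fun s : ℝ => s - t) t h4 h3
    rwa [one_smul] at h5
  have h3 : (fun s => Φ (s - t) (Φ t x)) = fun s => Φ s x := by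
    funext s
    rw [← h.add, sub_add_cancel]
  rwa [h3] at h2

theorem Fl.space (h : Fl Φ) (t : ℝ) (x : E) : fderiv ℝ (Φ t) x =
    (fderiv ℝ (fun z : ℝ × E => Φ z.1 z.2) (t, x)).comp (ContinuousLinearMap.inr ℝ ℝ E) := by
  have h1 : HasFDerivAt (Φ t) ((fderiv ℝ (fun z : ℝ × E => Φ z.1 z.2) (t, x)).comp
      (ContinuousLinearMap.inr ℝ ℝ E)) x :=
    ((h.smooth.differentiable (by simp)) (t, x)).hasFDerivAt.comp x (hasFDerivAt_prodMk_right t x)
  exact h1.fderiv

/-- the derivative in time of the space derivative -/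
theorem Fl.dt_space (h : Fl Φ) (x v : E) :
    HasDerivAt (fun t => fderiv ℝ (Φ t) x v) (fderiv ℝ (gen Φ) x v) 0 := by
  have hinf : (∞ : WithTop ℕ∞) ≠ 0 := by simp
  have h2inf : (2 : WithTop ℕ∞) ≤ ∞ := WithTop.coe_le_coe.2 (le_top : (2 : ℕ∞) ≤ ⊤)
  set G : ℝ × E → E := fun z => Φ z.1 z.2 with hG
  have hGs : ContDiff ℝ ∞ G := h.smooth
  have hG1 : ContDiff ℝ ∞ (fderiv ℝ G) := hGs.fderiv_right le_rfl
  have hG1d : Differentiable ℝ (fderiv ℝ G) := hG1.differentiable hinf
  have hin2 : HasDerivAt (fun s : ℝ => ((s, x) : ℝ × E)) ((1 : ℝ), (0 : E)) 0 :=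
    (hasDerivAt_id (0 : ℝ)).prodMk (hasDerivAt_const (0 : ℝ) x)
  have h1 : HasDerivAt (fun s => fderiv ℝ G (s, x)) (fderiv ℝ (fderiv ℝ G) (0, x) (1, 0)) 0 :=
    (hG1d (0, x)).hasFDerivAt.comp_hasDerivAt (0 : ℝ) hin2
  have h2 : HasDerivAt (fun s => fderiv ℝ G (s, x) (0, v))
      (fderiv ℝ (fderiv ℝ G) (0, x) (1, 0) (0, v)) 0 := by
    have h3 := h1.clm_apply (hasDerivAt_const (0 : ℝ) ((0 : ℝ), v))
    simpa using h3
  have h4 : (fun t => fderiv ℝ (Φ t) x v) = fun s => fderiv ℝ G (s, x) (0, v) := by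
    funext t
    rw [h.space]
    rfl
  rw [h4]
  refine h2.congr_deriv ?_
  have hs : IsSymmSndFDerivAt ℝ G (0, x) :=
    (hGs.contDiffAt).isSymmSndFDerivAt (by simp; exact h2inf)
  rw [hs.eq]
  have h6 : HasFDerivAt (fun y => fderiv ℝ G (0, y))
      ((fderiv ℝ (fderiv ℝ G) (0, x)).comp (ContinuousLinearMap.inr ℝ ℝ E)) x :=
    (hG1d (0, x)).hasFDerivAt.comp x (hasFDerivAt_prodMk_right (0 : ℝ) x)
  have h7 := h6.clm_apply (hasFDerivAt_const ((1 : ℝ), (0 : E)) x)
  have h8 : fderiv ℝ (gen Φ) x = _ := h7.fderiv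
  rw [h8]
  simp

variable {B : E → E →L[ℝ] E →L[ℝ] ℝ}

theorem symp_anti (hB : Symp B) (y a b : E) : B y a b = -B y b a := by
  have h1 := hB.alt y (a + b)
  have h2 := hB.alt y a
  have h3 := hB.alt y b
  simp only [map_add, add_apply] at h1
  linarith

/-- the form dual to the field of a conformal flow is a primitive -/
theorem Fl.d1_dual (h : Fl Φ) (hB : Symp B)
    (hc : ∀ t x u v, B (Φ t x) (fderiv ℝ (Φ t) x u) (fderiv ℝ (Φ t) x v) = Real.exp t * B x u v)
    (x u v : E) : d1 (fun x => B x (gen Φ x)) x u v = B x u v := by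
  have hinf : (∞ : WithTop ℕ∞) ≠ 0 := by simp
  have hBd : Differentiable ℝ B := hB.smooth.differentiable hinf
  have hZd : Differentiable ℝ (gen Φ) := h.gen_smooth.differentiable hinf
  -- the derivative of the conformal identity at `t = 0`
  have h1 : HasDerivAt (fun t => B (Φ t x)) (fderiv ℝ B x (gen Φ x)) 0 := by
    have h2 : HasFDerivAt B (fderiv ℝ B x) (Φ 0 x) := by
      rw [h.zero]
      exact (hBd x).hasFDerivAt
    exact HasFDerivAt.comp_hasDerivAt (l := B) (f := fun t => Φ t x) (0 : ℝ) h2 (h.deriv_zero x)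
  have h2 := (h1.clm_apply (h.dt_space x u)).clm_apply (h.dt_space x v)
  have h3 : HasDerivAt (fun t : ℝ => Real.exp t * B x u v) (Real.exp 0 * B x u v) 0 :=
    (Real.hasDerivAt_exp 0).mul_const _
  have h4 : (fun t => B (Φ t x) (fderiv ℝ (Φ t) x u) (fderiv ℝ (Φ t) x v)) =
      fun t : ℝ => Real.exp t * B x u v := by
    funext t
    exact hc t x u v
  rw [h4] at h2
  have h5 := h2.unique h3
  have h0 : Φ 0 = id := by
    funext y
    exact h.zero y
  have h6 : fderiv ℝ (Φ 0) x = ContinuousLinearMap.id ℝ E := by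
    rw [h0]
    exact fderiv_id
  simp only [h6, h.zero, add_apply, ContinuousLinearMap.id_apply, Real.exp_zero, one_mul] at h5
  have h7 := (hBd x).hasFDerivAt.clm_apply (hZd x).hasFDerivAt
  have h8 : fderiv ℝ (fun x => B x (gen Φ x)) x = _ := h7.fderiv
  have h9 := hB.closed x (gen Φ x) u v
  have h10 := symp_anti hB x (fderiv ℝ (gen Φ) x v) u
  unfold d1
  rw [h8]
  simp only [add_apply, ContinuousLinearMap.comp_apply, ContinuousLinearMap.flip_apply]
  linarith

variable {S : ℝ → E → E} {a : E → E →L[ℝ] ℝ}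

theorem mom_deriv' (h : Circ S) (ha : ContDiff ℝ ∞ a) (hd : ∀ x u v, d1 a x u v = B x u v)
    (hinv : ∀ t x v, a (S t x) (fderiv ℝ (S t) x v) = a x v) (x v : E) :
    fderiv ℝ (mom S a) x v = -B x (gen S x) v := by
  have h1 := ((ha.differentiable (by simp)) x).hasFDerivAt.clm_apply
    ((h.gen_smooth.differentiable (by simp)) x).hasFDerivAt
  have h2 : fderiv ℝ (mom S a) x = _ := h1.fderiv
  rw [h2, ← hd]
  have h3 := h.inf_inv ha hinv x v
  unfold d1
  simp only [add_apply, ContinuousLinearMap.comp_apply,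
    ContinuousLinearMap.flip_apply]
  linarith

/-- the moment map is homogeneous along the Liouville flow -/
theorem mom_flow' (h : Circ S) (hB : Symp B) (ha : ContDiff ℝ ∞ a)
    (hd : ∀ x u v, d1 a x u v = B x u v)
    (hinv : ∀ t x v, a (S t x) (fderiv ℝ (S t) x v) = a x v) (hF : Fl Φ)
    (hdual : ∀ x v, B x (gen Φ x) v = a x v) (t : ℝ) (x : E) :
    mom S a (Φ t x) = Real.exp t * mom S a x := by
  have hW : ∀ s, HasDerivAt (fun s => Real.exp (-s) * mom S a (Φ s x)) 0 s := by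
    intro s
    have h1 : HasDerivAt (fun s => mom S a (Φ s x))
        (fderiv ℝ (mom S a) (Φ s x) (gen Φ (Φ s x))) s :=
      HasFDerivAt.comp_hasDerivAt (l := mom S a) (f := fun s => Φ s x) s
        (((mom_smooth h ha).differentiable (by simp)) (Φ s x)).hasFDerivAt (hF.deriv s x)
    have h8 : HasDerivAt (fun s : ℝ => Real.exp (-s)) (Real.exp (-s) * (-1)) s :=
      (hasDerivAt_neg s).exp
    refine (h8.mul h1).congr_deriv ?_
    rw [mom_deriv' h ha hd hinv, ← symp_anti hB, hdual]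
    show Real.exp (-s) * -1 * mom S a (Φ s x) + Real.exp (-s) * mom S a (Φ s x) = 0
    ring
  have hc := is_const_of_deriv_eq_zero (fun s => (hW s).differentiableAt)
    (fun s => (hW s).deriv) t 0
  simp only [hF.zero, neg_zero, Real.exp_zero, one_mul] at hc
  rw [← hc, ← mul_assoc, ← Real.exp_add, add_neg_cancel, Real.exp_zero, one_mul]

/-- the moment map is nonnegative if it is so at infinity, and vanishes only at fixed points -/
theorem mom_nonneg' [FiniteDimensional ℝ E] (h : Circ S) (hB : Symp B) (ha : ContDiff ℝ ∞ a)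
    (hd : ∀ x u v, d1 a x u v = B x u v)
    (hinv : ∀ t x v, a (S t x) (fderiv ℝ (S t) x v) = a x v) {C : Set E} (hC : IsCompact C)
    (hfar : ∀ x, x ∉ C → 0 ≤ mom S a x) (x : E) :
    0 ≤ mom S a x ∧ (mom S a x = 0 → gen S x = 0) := by
  have : ProperSpace E := FiniteDimensional.proper ℝ E
  have hcont : Continuous (mom S a) := (mom_smooth h ha).continuous
  have hcrit : ∀ y, IsLocalMin (mom S a) y → gen S y = 0 := by
    intro y hy
    refine hB.nondeg y _ fun v => ?_
    have h1 := hy.fderiv_eq_zero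
    have h2 := mom_deriv' h ha hd hinv y v
    rw [h1] at h2
    have h3 : (0 : E →L[ℝ] ℝ) v = 0 := rfl
    rw [h3] at h2
    linarith
  have hnn : ∀ y, 0 ≤ mom S a y := by
    intro y
    by_contra hy
    rw [not_le] at hy
    have hyC : y ∈ C := by
      by_contra h1
      have := hfar y h1
      linarith
    obtain ⟨m, hm, hmin⟩ := hC.exists_isMinOn ⟨y, hyC⟩ hcont.continuousOn
    have h1 : mom S a m ≤ mom S a y := hmin hyC
    have h2 : ∀ z, mom S a m ≤ mom S a z := by
      intro z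
      by_cases hz : z ∈ C
      · exact hmin hz
      · have := hfar z hz
        linarith
    have h3 := hcrit m (Eventually.of_forall h2)
    have h4 : mom S a m = 0 := by
      unfold mom
      rw [h3, map_zero]
    linarith
  refine ⟨hnn x, fun h0 => hcrit x (Eventually.of_forall fun z => ?_)⟩
  rw [h0]
  exact hnn z

/-- a circle action commuting with a conformal flow which has a compact core: the core consists of fixed
points -/
theorem core_fixed [FiniteDimensional ℝ E] (h : Circ S)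
    (hB : Symp B) (hpull : ∀ t, Pull (S t) B B) (hF : Fl Φ)
    (hc : ∀ t x u v, B (Φ t x) (fderiv ℝ (Φ t) x u) (fderiv ℝ (Φ t) x v) = Real.exp t * B x u v)
    (hcomm : ∀ s t x, Φ s (S t x) = S t (Φ s x)) {K : Set E} (hK : IsCompact K)
    (hKi : ∀ s, ∀ x ∈ K, Φ s x ∈ K) {C : Set E} (hC : IsCompact C)
    (hpos : ∀ x, x ∉ C → 0 ≤ B x (gen Φ x) (gen S x)) : ∀ x ∈ K, gen S x = 0 := by
  set a : E → E →L[ℝ] ℝ := fun x => B x (gen Φ x) with ha
  have has : ContDiff ℝ ∞ a := hB.smooth.clm_apply hF.gen_smooth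
  have hd : ∀ x u v, d1 a x u v = B x u v := hF.d1_dual hB hc
  have hZ : ∀ t x, gen Φ (S t x) = fderiv ℝ (S t) x (gen Φ x) := by
    intro t x
    have h1 := hF.deriv_zero (S t x)
    have h2 : (fun s => Φ s (S t x)) = fun s => S t (Φ s x) := by
      funext s
      exact hcomm s t x
    rw [h2] at h1
    have h3 : HasFDerivAt (S t) (fderiv ℝ (S t) x) (Φ 0 x) := by
      rw [hF.zero]
      exact ((h.right t).differentiable (by simp) x).hasFDerivAt
    exact h1.unique (h3.comp_hasDerivAt (0 : ℝ) (hF.deriv_zero x))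
  have hinv : ∀ t x v, a (S t x) (fderiv ℝ (S t) x v) = a x v := by
    intro t x v
    show B (S t x) (gen Φ (S t x)) (fderiv ℝ (S t) x v) = B x (gen Φ x) v
    rw [hZ]
    exact hpull t x _ v
  have hnn := mom_nonneg' h hB has hd hinv hC hpos
  have hfl := mom_flow' h hB has hd hinv hF (fun x v => rfl)
  intro x hx
  apply (hnn x).2
  obtain ⟨M, hM⟩ := hK.exists_bound_of_continuousOn
    (mom_smooth h has).continuous.continuousOn
  have h1 : ∀ n : ℕ, ‖mom S a x‖ ≤ Real.exp (-(n : ℝ)) * M := by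
    intro n
    have h2 := hM (Φ (n : ℝ) x) (hKi _ x hx)
    rw [hfl, norm_mul, Real.norm_of_nonneg (Real.exp_pos _).le] at h2
    have h3 : Real.exp (-(n : ℝ)) * (Real.exp (n : ℝ) * ‖mom S a x‖) ≤ Real.exp (-(n : ℝ)) * M :=
      mul_le_mul_of_nonneg_left h2 (Real.exp_pos _).le
    rwa [← mul_assoc, ← Real.exp_add, neg_add_cancel, Real.exp_zero, one_mul] at h3
  have h4 : Tendsto (fun n : ℕ => Real.exp (-(n : ℝ)) * M) atTop (𝓝 (0 * M)) :=
    (Real.tendsto_exp_neg_atTop_nhds_zero.comp tendsto_natCast_atTop_atTop).mul_const M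
  rw [zero_mul] at h4
  have h5 : ‖mom S a x‖ ≤ 0 := ge_of_tendsto' h4 h1
  exact norm_le_zero_iff.1 h5

end

/-- a Liouville flow with the compact core `K` -/
structure CoreFlow {n : ℕ} (η : Form n) (Φ : ℝ → V n → V n) (K : Set (V n)) : Prop where
  flow : Fl Φ
  conf : ∀ s x u v, η (Φ s x) ![fderiv ℝ (Φ s) x u, fderiv ℝ (Φ s) x v] = Real.exp s * η x ![u, v]
  cpt : IsCompact K
  inv : ∀ s, ∀ x ∈ K, Φ s x ∈ K
  att : ∀ N : Set (V n), IsOpen N → K ⊆ N → ∀ r : ℝ, ∃ s₀ : ℝ, ∀ s, s₀ ≤ s → ∀ x, ‖x‖ ≤ r →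
    Φ (-s) x ∈ N

/-- a Liouville flow whose core lies, to first order, in a symplectic submanifold of positive
codimension -/
def SympCore {n : ℕ} (η : Form n) : Prop := ∃ (Φ : ℝ → V n → V n) (K : Set (V n)) (c : V n → V n),
  CoreFlow η Φ K ∧ ContDiff ℝ ∞ c ∧ ∀ q ∈ K, c q = q ∧
    (∀ v, fderiv ℝ c q (fderiv ℝ c q v) = fderiv ℝ c q v) ∧ (∃ v, fderiv ℝ c q v ≠ v) ∧
    ∀ u v, η q ![fderiv ℝ c q u, v] = η q ![u, fderiv ℝ c q v]

/-- a nontrivial circle action commuting with a Liouville flow with compact core, with nonnegative moment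
map outside a compact set -/
def SymCore {n : ℕ} (η : Form n) : Prop := ∃ (Φ T : ℝ → V n → V n) (K : Set (V n)),
  CoreFlow η Φ K ∧ Fl T ∧ (∀ x, T (2 * Real.pi) x = x) ∧ (∃ t x, T t x ≠ x) ∧
    (∀ t x u v, η (T t x) ![fderiv ℝ (T t) x u, fderiv ℝ (T t) x v] = η x ![u, v]) ∧
    (∀ s t x, Φ s (T t x) = T t (Φ s x)) ∧
    ∃ C : Set (V n), IsCompact C ∧ ∀ x, x ∉ C →
      0 ≤ η x ![deriv (fun s => Φ s x) 0, deriv (fun t => T t x) 0]

/-- a Liouville flow with a compact core which is displaced infinitesimally by a Hamiltonian field -/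
def InfCore {n : ℕ} (η : Form n) : Prop := ∃ (Φ : ℝ → V n → V n) (K : Set (V n)) (f : V n → ℝ),
  CoreFlow η Φ K ∧ ContDiff ℝ ∞ f ∧
    ∀ q ∈ K, ∀ X, (∀ v, η q ![X, v] = fderiv ℝ f q v) → ¬ Chord K q X

/-- a Liouville flow with a compact core in a level set, which contains no complete orbit -/
def LevelCore {n : ℕ} (η : Form n) : Prop := ∃ (Φ : ℝ → V n → V n) (K : Set (V n)) (f : V n → ℝ),
  CoreFlow η Φ K ∧ ContDiff ℝ ∞ f ∧ (∀ q ∈ K, f q = 0) ∧
    ∀ γ : ℝ → V n, Differentiable ℝ γ →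
      (∀ t v, η (γ t) ![deriv γ t, v] = fderiv ℝ f (γ t) v) → ∃ t, γ t ∉ K

/-- a Liouville flow with a compact core in an embedded `ℝ^k`, along which the constant vector `u` is
`η`-orthogonal to the tangent space -/
def PlaneCore {n : ℕ} (η : Form n) : Prop := ∃ (Φ : ℝ → V n → V n) (K : Set (V n)) (k : ℕ)
  (ι : (Fin k → ℝ) → V n) (r : V n → (Fin k → ℝ)) (u : Fin k → ℝ),
  CoreFlow η Φ K ∧ ContDiff ℝ ∞ ι ∧ ContDiff ℝ ∞ r ∧ (∀ z, r (ι z) = z) ∧ u ≠ 0 ∧
    ∀ q ∈ K, ∃ z, ι z = q ∧ ∀ v, η q ![fderiv ℝ ι z u, fderiv ℝ ι z v] = 0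

/-- a Liouville flow with a displaced core -/
theorem core_standard {n : ℕ} (hn : 2 ≤ n) {η : Form n} (hη : StdAtInf η)
    {B : V n → V n →L[ℝ] V n →L[ℝ] ℝ} (hBη : ∀ x u v, B x u v = η x ![u, v]) {R : ℝ} (hR : 0 < R)
    (ho : Pool.Agent.Helper97.SZ.Outside η R) {Φ : ℝ → V n → V n} {K : Set (V n)}
    (hF : CoreFlow η Φ K)
    (hg : ∃ g : V n → V n, ContDiff ℝ ∞ g ∧ Function.Injective g ∧ Pull g B B ∧ ∀ x ∈ K, g x ∉ K) :
    Standard η := by
  obtain ⟨g, hg, hgi, hgp, hgK⟩ := hg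
  exact displaced_standard hn hη hBη hR ho
    ⟨hF.flow.smooth, hF.flow.zero, hF.flow.add, hF.conf, hF.cpt,
      fun N hN hKN => hF.att N hN hKN R⟩ hg hgi hgp hgK

theorem infCore_standard {n : ℕ} (hn : 2 ≤ n) {η : Form n} (hη : StdAtInf η) (h : InfCore η) :
    Standard η := by
  obtain ⟨Φ, K, f, hF, hf, hK⟩ := h
  obtain ⟨B, B0, R, a, hP, hBη, hB0⟩ := exists_prim hn hη
  refine core_standard hn hη hBη hP.pos (fun x hx u v => ?_) hF
    (chord_displace hP.symp hF.cpt hf fun q hq X hX => hK q hq X fun v => ?_)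
  · rw [← hBη, hP.far x hx.le, hB0]
  · rw [← hBη, hX]

/-- a core to first order in a symplectic submanifold is displaced infinitesimally -/
theorem sympCore_infCore {n : ℕ} (hn : 2 ≤ n) {η : Form n} (hη : StdAtInf η) (h : SympCore η) :
    InfCore η := by
  obtain ⟨Φ, K, c, hF, hc, hK⟩ := h
  obtain ⟨B, B0, R, a, hP, hBη, hB0⟩ := exists_prim hn hη
  obtain ⟨L, hL⟩ := hF.cpt.isBounded.exists_norm_le
  set P : V n → V n →L[ℝ] V n := fun x => ContinuousLinearMap.id ℝ (V n) - fderiv ℝ c x with hPd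
  have hPs : ContDiff ℝ ∞ P := contDiff_const.sub (hc.fderiv_right le_rfl)
  have hPa : ∀ x v, P x v = v - fderiv ℝ c x v := fun x v => rfl
  have hGd : ∀ x, HasFDerivAt (fun x => x - c x) (P x) x := fun x =>
    (hasFDerivAt_id x).sub ((hc.differentiable (by simp) x).hasFDerivAt)
  obtain ⟨ν, hν, hνK⟩ := exists_nu hPs hF.flow.right
    (fun t x => by rw [← hF.flow.add, neg_add_cancel, hF.flow.zero]) hF.cpt
    (by
      intro q hq
      refine ContinuousLinearMap.ext fun v => ?_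
      show P q (P q v) = P q v
      simp only [hPa, map_sub]
      rw [(hK q hq).2.1 v]
      abel)
    (by
      intro q hq h0
      obtain ⟨v, hv⟩ := (hK q hq).2.2.1
      apply hv
      have h1 : P q v = 0 := by
        rw [h0]
        rfl
      rw [hPa, sub_eq_zero] at h1
      exact h1.symm) (fun t _ x hx => hF.inv t x hx) hL
    (by
      intro N hN hKN
      obtain ⟨s₀, hs₀⟩ := hF.att N hN hKN L
      exact ⟨max s₀ 0, le_max_right _ _, fun x hx => hs₀ _ (le_max_left _ _) x hx⟩)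
  have hG : ContDiff ℝ ∞ (fun x : V n => x - c x) := contDiff_id.sub hc
  refine ⟨Φ, K, fun x => ν x (x - c x), hF, hν.clm_apply hG, fun q hq X hX hch => ?_⟩
  have h1 : ∀ w, fderiv ℝ (fun x => ν x (x - c x)) q w = ν q w := by
    intro w
    have h2 := ((hν.differentiable (by simp)) q).hasFDerivAt.clm_apply (hGd q)
    rw [h2.fderiv]
    simp only [ContinuousLinearMap.comp_apply, (hK q hq).1, sub_self, map_zero, add_zero]
    exact congrArg (fun L : V n →L[ℝ] ℝ => L w) (hνK q hq).2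
  have h2 : ∀ w, B q X w = ν q w := fun w => by rw [hBη, hX, h1]
  have h3 : P q X = 0 := by
    have h4 := chord_zero hG (fun x hx => by rw [(hK x hx).1, sub_self]) hch
    rwa [(hGd q).fderiv] at h4
  have h5 : P q X - X = 0 := by
    refine hP.symp.nondeg q _ fun w => ?_
    have hadj : B q (fderiv ℝ c q X) w = B q X (fderiv ℝ c q w) := by
      rw [hBη, hBη]
      exact (hK q hq).2.2.2 X w
    rw [map_sub, sub_apply, h2, hPa, map_sub, sub_apply, hadj, h2, h2]
    have h4 : ν q w - ν q (fderiv ℝ c q w) = ν q (P q w) := by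
      rw [hPa, map_sub]
    rw [h4, show ν q (P q w) = ν q w from congrArg (fun L : V n →L[ℝ] ℝ => L w) (hνK q hq).2,
      sub_self]
  rw [h3, zero_sub, neg_eq_zero] at h5
  apply (hνK q hq).1
  refine ContinuousLinearMap.ext fun w => ?_
  rw [← h2, h5, map_zero]

/-- a core in a level set without complete orbit is displaced infinitesimally -/
theorem levelCore_infCore {n : ℕ} (hn : 2 ≤ n) {η : Form n} (hη : StdAtInf η) (h : LevelCore η) :
    InfCore η := by
  obtain ⟨Φ, K, f, hF, hf, hf0, hK⟩ := h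
  obtain ⟨B, B0, R, a, hP, hBη, hB0⟩ := exists_prim hn hη
  obtain ⟨X, φ, hX, hφ, h0, hder, hadd, hpull, hXK⟩ := ham_flow hP.symp hF.cpt hf
  obtain ⟨h, hh, hhK⟩ := exists_increasing hφ h0 hadd hder hF.cpt (by
    intro x
    by_contra hcon
    push Not at hcon
    obtain ⟨t, ht⟩ := hK (fun s => φ s x) (fun t => (hder t x).differentiableAt) (by
      intro t v
      rw [(hder t x).deriv, ← hBη]
      exact hXK _ (hcon t) v)
    exact ht (hcon t))
  refine ⟨Φ, K, h, hF, hh, fun q hq Y hY hch => ?_⟩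
  have h1 := chord_zero hf hf0 hch
  rw [← hXK q hq, symp_anti hP.symp, hBη, hY] at h1
  have h2 := hhK q hq
  linarith

/-- a core in an embedded `ℝ^k` with a constant characteristic vector is displaced infinitesimally -/
theorem planeCore_infCore {n : ℕ} {η : Form n} (h : PlaneCore η) : InfCore η := by
  obtain ⟨Φ, K, k, ι, r, u, hF, hι, hr, hrι, hu, hK⟩ := h
  obtain ⟨i, hi⟩ := Function.ne_iff.1 hu
  have hdr : ContDiff ℝ ∞ (fun x : V n => r x i) := (contDiff_pi.1 hr) i
  refine ⟨Φ, K, fun x => r x i, hF, hdr, fun q hq X hX hch => ?_⟩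
  obtain ⟨z, hz, hη0⟩ := hK q hq
  have hrd : HasFDerivAt r (fderiv ℝ r (ι z)) (ι z) :=
    (hr.differentiable (by simp) (ι z)).hasFDerivAt
  have hιd : HasFDerivAt ι (fderiv ℝ ι z) z := (hι.differentiable (by simp) z).hasFDerivAt
  have hcomp : ∀ v, fderiv ℝ r q (fderiv ℝ ι z v) = v := by
    intro v
    have h1 := hrd.comp z hιd
    have h2 : r ∘ ι = id := by
      funext y
      exact hrι y
    rw [h2] at h1
    have h3 := congrArg (fun L : (Fin k → ℝ) →L[ℝ] (Fin k → ℝ) => L v)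
      (h1.unique (hasFDerivAt_id z))
    rw [← hz]
    exact h3
  -- `X` is tangent to the image of `ι`
  have hX1 : fderiv ℝ (fun x => x - ι (r x)) q X = 0 := by
    refine chord_zero (contDiff_id.sub (hι.comp hr)) (fun x hx => ?_) hch
    obtain ⟨z', hz', -⟩ := hK x hx
    rw [← hz', hrι, sub_self]
  have hX2 : X = fderiv ℝ ι z (fderiv ℝ r q X) := by
    have h1 : HasFDerivAt (fun x => x - ι (r x))
        (ContinuousLinearMap.id ℝ (V n) - (fderiv ℝ ι z).comp (fderiv ℝ r q)) q := by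
      refine (hasFDerivAt_id q).sub ?_
      have h2 : HasFDerivAt ι (fderiv ℝ ι z) (r q) := by
        rw [← hz, hrι]
        exact hιd
      exact h2.comp q ((hr.differentiable (by simp) q).hasFDerivAt)
    rw [h1.fderiv] at hX1
    exact sub_eq_zero.1 hX1
  have h1 := hX (fderiv ℝ ι z u)
  have h2 : η q ![X, fderiv ℝ ι z u] = 0 := by
    obtain ⟨L, hL⟩ := Pool.Agent.Helper18.SY.cv_ n
    have h3 := hη0 (fderiv ℝ r q X)
    rw [← hX2] at h3
    have h4 : ∀ a b, L (η q) a b = -L (η q) b a := by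
      have h5 : ∀ a, L (η q) a a = 0 := by
        intro a
        rw [hL]
        exact (η q).map_eq_zero_of_eq _ (i := 0) (j := 1) rfl (by decide)
      intro a b
      have h6 := h5 (a + b)
      simp only [map_add, add_apply, h5] at h6
      linarith
    rw [← hL, h4, hL, h3, neg_zero]
  rw [h2] at h1
  have h3 : HasFDerivAt (fun x => r x i) ((ContinuousLinearMap.proj i).comp (fderiv ℝ r q)) q :=
    (ContinuousLinearMap.proj (R := ℝ) (φ := fun _ : Fin k => ℝ) i).hasFDerivAt.comp q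
      ((hr.differentiable (by simp) q).hasFDerivAt)
  rw [h3.fderiv] at h1
  have h4 : (0 : ℝ) = (fderiv ℝ r q (fderiv ℝ ι z u)) i := h1
  rw [hcomp] at h4
  exact hi h4.symm

theorem symCore_sympCore {n : ℕ} (hn : 2 ≤ n) {η : Form n} (hη : StdAtInf η) (h : SymCore η) :
    SympCore η := by
  obtain ⟨Φ, T, K, hF, hT, hper, hne, hinv, hcomm, C, hC, hpos⟩ := h
  obtain ⟨B, B0, R, a, hP, hBη, hB0⟩ := exists_prim hn hη
  have hc : Circ (fun t x => T (2 * Real.pi * t) x) := by
    refine ⟨?_, ?_, ?_, ?_⟩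
    · have h1 : ContDiff ℝ ∞ (fun z : ℝ × V n => ((2 * Real.pi * z.1, z.2) : ℝ × V n)) :=
        (contDiff_const.mul contDiff_fst).prodMk contDiff_snd
      exact hT.smooth.comp h1
    · intro x
      show T (2 * Real.pi * 0) x = x
      rw [mul_zero, hT.zero]
    · intro s t x
      show T (2 * Real.pi * (s + t)) x = _
      rw [mul_add, hT.add]
    · intro x
      show T (2 * Real.pi * 1) x = x
      rw [mul_one, hper]
  have hgen : ∀ x, gen (fun t x => T (2 * Real.pi * t) x) x =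
      (2 * Real.pi) • deriv (fun t => T t x) 0 := by
    intro x
    have h1 := hc.deriv_zero x
    have h2 : HasDerivAt (fun t => T t x) (deriv (fun t => T t x) 0) (2 * Real.pi * 0) := by
      rw [mul_zero]
      exact (hT.deriv_zero x).differentiableAt.hasDerivAt
    have h3 : HasDerivAt (fun t : ℝ => 2 * Real.pi * t) (2 * Real.pi) 0 := by
      simpa using (hasDerivAt_id (0 : ℝ)).const_mul (2 * Real.pi)
    exact h1.unique (HasDerivAt.scomp (g₁ := fun t => T t x) (h := fun t : ℝ => 2 * Real.pi * t)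
      (0 : ℝ) h2 h3)
  set S : ℝ → V n → V n := fun t x => T (2 * Real.pi * t) x with hS
  have hpi : 0 < 2 * Real.pi := by positivity
  have hne' : ∃ x, gen S x ≠ 0 := by
    by_contra hcon
    push Not at hcon
    obtain ⟨t, x, htx⟩ := hne
    apply htx
    have h1 := (hc.fix_iff x).1 (hcon x) (t / (2 * Real.pi))
    have h2 : T (2 * Real.pi * (t / (2 * Real.pi))) x = x := h1
    rwa [mul_div_cancel₀ _ hpi.ne'] at h2
  have hpull : ∀ t, Pull (S t) B B := by
    intro t x u v
    rw [hBη, hBη]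
    exact hinv _ x u v
  have hfix := core_fixed hc hP.symp hpull hF.flow
    (fun t x u v => by rw [hBη, hBη]; exact hF.conf t x u v)
    (fun s t x => hcomm s _ x) hF.cpt hF.inv hC
    (by
      intro x hx
      rw [hgen, map_smul, hBη, smul_eq_mul]
      have h1 := hpos x hx
      rw [(hF.flow.deriv_zero x).deriv] at h1
      positivity)
  have hcore := fun x (hx : x ∈ K) => hc.core hne' hpull (hfix x hx)
  refine ⟨Φ, K, ctr S, hF, hc.ctr_smooth, fun q hq => ⟨(hcore q hq).1, (hcore q hq).2.1,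
    (hcore q hq).2.2.1, fun u v => ?_⟩⟩
  rw [← hBη, ← hBη]
  exact (hcore q hq).2.2.2 u v

/-- a standard form has a Liouville flow whose core is a point, and which commutes with a circle action -/
theorem standard_point {n : ℕ} (hn : 2 ≤ n) {η : Form n} (h : Standard η) :
    ∃ (Φ T : ℝ → V n → V n) (p : V n),
    CoreFlow η Φ {p} ∧ Fl T ∧ (∀ x, T (2 * Real.pi) x = x) ∧ (∃ t x, T t x ≠ x) ∧
    (∀ t x u v, η (T t x) ![fderiv ℝ (T t) x u, fderiv ℝ (T t) x v] = η x ![u, v]) ∧
    (∀ s t x, Φ s (T t x) = T t (Φ s x)) ∧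
    ∃ C : Set (V n), IsCompact C ∧ ∀ x, x ∉ C →
      0 ≤ η x ![deriv (fun s => Φ s x) 0, deriv (fun t => T t x) 0] := by
  obtain ⟨φ, hφ, hp⟩ := h
  have hφd : ∀ y, HasFDerivAt (fun y => φ y) (fderiv ℝ (fun y => φ y) y) y := fun y =>
    (hφ.1.differentiable (by simp)).differentiableAt.hasFDerivAt
  have hφsd : ∀ y, HasFDerivAt (fun y => φ.symm y) (fderiv ℝ (fun y => φ.symm y) y) y := fun y =>
    (hφ.2.differentiable (by simp)).differentiableAt.hasFDerivAt
  -- pulling back a linear map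
  have hlin : ∀ (A : V n →L[ℝ] V n) (x u : V n), fderiv ℝ (fun y => φ y) (φ.symm (A (φ x)))
      (fderiv ℝ (fun x => φ.symm (A (φ x))) x u) = A (fderiv ℝ (fun y => φ y) x u) := by
    intro A x u
    have h1 : fderiv ℝ (fun x => φ.symm (A (φ x))) x =
        (fderiv ℝ (fun y => φ.symm y) (A (φ x))).comp (A.comp (fderiv ℝ (fun y => φ y) x)) :=
      ((hφsd (A (φ x))).comp x (A.hasFDerivAt.comp x (hφd x))).fderiv
    rw [h1]
    exact Pool.Agent.Helper97.SZ.fderiv_inv (f := fun y => φ.symm y) (g := fun y => φ y) (hφsd _).differentiableAt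
      (hφd _).differentiableAt (Eventually.of_forall fun z => φ.apply_symm_apply z)
      (A (fderiv ℝ (fun y => φ y) x u))
  set w : Fin n → ℕ := fun _ => 1 with hw
  set Φ : ℝ → V n → V n := fun s x => φ.symm (Real.exp (s / 2) • φ x) with hΦ
  set T : ℝ → V n → V n := fun t x => φ.symm (turn w t (φ x)) with hT
  have hturn_add : ∀ s t z, turn w (s + t) z = turn w s (turn w t z) := by
    intro s t z
    unfold turn
    refine Prod.ext (funext fun i => ?_) (funext fun i => ?_)
    · simp only [mul_add, Real.cos_add, Real.sin_add]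
      ring
    · simp only [mul_add, Real.cos_add, Real.sin_add]
      ring
  have hΦf : Fl Φ := by
    refine ⟨?_, ?_, ?_⟩
    · have h1 : ContDiff ℝ ∞ (fun z : ℝ × V n => Real.exp (z.1 / 2)) :=
        Real.contDiff_exp.comp (contDiff_fst.div_const 2)
      have h2 : ContDiff ℝ ∞ (fun z : ℝ × V n => φ z.2) := hφ.1.comp contDiff_snd
      exact hφ.2.comp (h1.smul h2)
    · intro x
      simp [hΦ]
    · intro s t x
      simp only [hΦ, Equiv.apply_symm_apply, smul_smul]
      rw [← Real.exp_add, ← add_div]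
  have hTf : Fl T := by
    refine ⟨?_, ?_, ?_⟩
    · have h2 : ContDiff ℝ ∞ (fun z : ℝ × V n => φ z.2) := hφ.1.comp contDiff_snd
      have h3 : ContDiff ℝ ∞ (fun z : ℝ × V n => turn w z.1 z.2) := by
        unfold turn
        refine ContDiff.prodMk ?_ ?_
        · rw [contDiff_pi]
          intro i
          have h4 : ContDiff ℝ ∞ (fun z : ℝ × V n => z.2.1 i) :=
            (contDiff_apply ℝ ℝ i).comp (contDiff_fst.comp contDiff_snd)
          have h5 : ContDiff ℝ ∞ (fun z : ℝ × V n => z.2.2 i) :=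
            (contDiff_apply ℝ ℝ i).comp (contDiff_snd.comp contDiff_snd)
          have h6 : ContDiff ℝ ∞ (fun z : ℝ × V n => (w i : ℝ) * z.1) :=
            contDiff_const.mul contDiff_fst
          exact ((Real.contDiff_cos.comp h6).mul h4).sub ((Real.contDiff_sin.comp h6).mul h5)
        · rw [contDiff_pi]
          intro i
          have h4 : ContDiff ℝ ∞ (fun z : ℝ × V n => z.2.1 i) :=
            (contDiff_apply ℝ ℝ i).comp (contDiff_fst.comp contDiff_snd)
          have h5 : ContDiff ℝ ∞ (fun z : ℝ × V n => z.2.2 i) :=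
            (contDiff_apply ℝ ℝ i).comp (contDiff_snd.comp contDiff_snd)
          have h6 : ContDiff ℝ ∞ (fun z : ℝ × V n => (w i : ℝ) * z.1) :=
            contDiff_const.mul contDiff_fst
          exact ((Real.contDiff_sin.comp h6).mul h4).add ((Real.contDiff_cos.comp h6).mul h5)
      exact hφ.2.comp (h3.comp (contDiff_fst.prodMk h2))
    · intro x
      have h1 : turn w 0 (φ x) = φ x := by
        unfold turn
        simp
      show φ.symm (turn w 0 (φ x)) = x
      rw [h1, φ.symm_apply_apply]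
    · intro s t x
      show φ.symm (turn w (s + t) (φ x)) = φ.symm (turn w s (φ (φ.symm (turn w t (φ x)))))
      rw [φ.apply_symm_apply, hturn_add]
  have hφΦ : ∀ s x, φ (Φ s x) = Real.exp (s / 2) • φ x := fun s x => φ.apply_symm_apply _
  have hφT : ∀ t x, φ (T t x) = turn w t (φ x) := fun s x => φ.apply_symm_apply _
  have hsc : ∀ s x, Φ s x = φ.symm ((Real.exp (s / 2) • ContinuousLinearMap.id ℝ (V n)) (φ x)) :=
    fun s x => rfl
  refine ⟨Φ, T, φ.symm 0, ⟨hΦf, ?_, isCompact_singleton, ?_, ?_⟩, hTf, ?_, ?_, ?_, ?_,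
    ∅, isCompact_empty, ?_⟩
  · intro t x u v
    show η (φ.symm ((Real.exp (t / 2) • ContinuousLinearMap.id ℝ (V n)) (φ x)))
      ![fderiv ℝ (fun x => φ.symm ((Real.exp (t / 2) • ContinuousLinearMap.id ℝ (V n)) (φ x))) x u,
        fderiv ℝ (fun x => φ.symm ((Real.exp (t / 2) • ContinuousLinearMap.id ℝ (V n)) (φ x))) x v] = _
    rw [← hp, hlin, hlin, ← hp]
    have h3 : Real.exp t = Real.exp (t / 2) * Real.exp (t / 2) := by
      rw [← Real.exp_add, add_halves]
    rw [h3]
    unfold w0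
    rw [Finset.mul_sum]
    refine Finset.sum_congr rfl fun i _ => ?_
    simp only [smul_apply, ContinuousLinearMap.id_apply, Prod.smul_fst, Prod.smul_snd,
      Pi.smul_apply, smul_eq_mul]
    ring
  · intro s x hx
    rw [mem_singleton_iff] at hx ⊢
    rw [hx]
    show φ.symm (Real.exp (s / 2) • φ (φ.symm 0)) = φ.symm 0
    rw [φ.apply_symm_apply, smul_zero]
  · intro N hN hpN r
    have hC : IsCompact ((fun x => φ x) '' closedBall (0 : V n) r) :=
      (isCompact_closedBall _ _).image hφ.1.continuous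
    obtain ⟨M, hM⟩ := hC.isBounded.subset_closedBall (0 : V n)
    have hM' : ∀ x : V n, ‖x‖ ≤ r → ‖φ x‖ ≤ max M 1 := by
      intro x hx
      have h1 := hM (mem_image_of_mem (fun x => φ x) (by rwa [mem_closedBall_zero_iff]))
      rw [mem_closedBall_zero_iff] at h1
      exact h1.trans (le_max_left _ _)
    have hM0 : 0 < max M 1 := lt_of_lt_of_le one_pos (le_max_right _ _)
    obtain ⟨δ, hδ, hδN⟩ := Metric.mem_nhds_iff.1
      (hφ.2.continuous.continuousAt.preimage_mem_nhds (x := (0 : V n))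
        (hN.mem_nhds (hpN rfl)))
    have ht : Tendsto (fun t : ℝ => Real.exp (-t / 2) * max M 1) atTop (𝓝 (0 * max M 1)) := by
      apply Tendsto.mul_const
      apply Real.tendsto_exp_atBot.comp
      have h1 : Tendsto (fun t : ℝ => -t) atTop atBot := tendsto_neg_atTop_atBot
      exact h1.atBot_div_const (by norm_num)
    rw [zero_mul] at ht
    obtain ⟨T', hT'⟩ := (ht.eventually (gt_mem_nhds hδ)).exists_forall_of_atTop
    refine ⟨T', fun t htT x hx => ?_⟩
    apply hδN
    rw [mem_ball_zero_iff, norm_smul, Real.norm_eq_abs, abs_of_pos (Real.exp_pos _)]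
    refine lt_of_le_of_lt ?_ (hT' t htT)
    exact mul_le_mul_of_nonneg_left (hM' x hx) (Real.exp_pos _).le
  · intro x
    have h1 : turn w (2 * Real.pi) (φ x) = φ x := by
      unfold turn
      simp [hw]
    show φ.symm (turn w (2 * Real.pi) (φ x)) = x
    rw [h1, φ.symm_apply_apply]
  · have hn0 : 0 < n := by omega
    set z : V n := (Pi.single ⟨0, hn0⟩ 1, 0) with hz
    refine ⟨Real.pi, φ.symm z, fun h1 => ?_⟩
    have h2 : φ (T Real.pi (φ.symm z)) = z := by
      rw [h1, φ.apply_symm_apply]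
    rw [hφT, φ.apply_symm_apply] at h2
    have h3 := congrArg (fun y : V n => y.1 ⟨0, hn0⟩) h2
    simp [turn, hz, hw] at h3
    linarith
  · intro t x u v
    show η (φ.symm (turnL w t (φ x))) ![fderiv ℝ (fun x => φ.symm (turnL w t (φ x))) x u,
        fderiv ℝ (fun x => φ.symm (turnL w t (φ x))) x v] = _
    rw [← hp, hlin, hlin, ← hp]
    exact turn_w0 w t _ _
  · intro s t x
    apply φ.injective
    rw [hφΦ, hφT, hφT, hφΦ]
    exact ((turnL w t).map_smul _ _).symm
  · intro x _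
    rw [← hp]
    have h1 : fderiv ℝ (fun y => φ y) x (deriv (fun s => Φ s x) 0) = (1 / 2 : ℝ) • φ x := by
      have h2 : HasFDerivAt (fun y => φ y) (fderiv ℝ (fun y => φ y) x) (Φ 0 x) := by
        rw [hΦf.zero]
        exact hφd x
      have h3 := h2.comp_hasDerivAt (0 : ℝ) (hΦf.deriv_zero x).differentiableAt.hasDerivAt
      have h4 : HasDerivAt (fun s : ℝ => Real.exp (s / 2) • φ x) ((1 / 2 : ℝ) • φ x) 0 := by
        have h5 : HasDerivAt (fun s : ℝ => Real.exp (s / 2)) (Real.exp (0 / 2) * (1 / 2)) 0 :=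
          ((hasDerivAt_id' (0 : ℝ)).div_const 2).exp
        rw [zero_div, Real.exp_zero, one_mul] at h5
        exact h5.smul_const (φ x)
      have h5 : ((fun y => φ y) ∘ fun s => Φ s x) = fun s : ℝ => Real.exp (s / 2) • φ x := by
        funext s
        exact hφΦ s x
      rw [h5] at h3
      exact h3.unique h4
    have h2 : fderiv ℝ (fun y => φ y) x (deriv (fun t => T t x) 0) = tgen w (φ x) := by
      have h2 : HasFDerivAt (fun y => φ y) (fderiv ℝ (fun y => φ y) x) (T 0 x) := by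
        rw [hTf.zero]
        exact hφd x
      have h3 := h2.comp_hasDerivAt (0 : ℝ) (hTf.deriv_zero x).differentiableAt.hasDerivAt
      have h5 : ((fun y => φ y) ∘ fun s => T s x) = fun s : ℝ => turn w s (φ x) := by
        funext s
        exact hφT s x
      rw [h5] at h3
      exact h3.unique (turn_deriv w (φ x))
    rw [h1, h2]
    have h3 : w0 ((1 / 2 : ℝ) • φ x) (tgen w (φ x)) = (1 / 2) * w0 (φ x) (tgen w (φ x)) := by
      unfold w0
      rw [Finset.mul_sum]
      refine Finset.sum_congr rfl fun i _ => ?_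
      simp only [Prod.smul_fst, Prod.smul_snd, Pi.smul_apply, smul_eq_mul]
      ring
    rw [h3]
    have := w0_tgen w (φ x)
    positivity

theorem standard_symCore {n : ℕ} (hn : 2 ≤ n) {η : Form n} (h : Standard η) : SymCore η := by
  obtain ⟨Φ, T, p, h1, h2, h3, h4, h5, h6, h7⟩ := standard_point hn h
  exact ⟨Φ, T, {p}, h1, h2, h3, h4, h5, h6, h7⟩

/-- the first coordinate -/
noncomputable def cfst {n : ℕ} (i : Fin n) : V n →L[ℝ] ℝ :=
  (ContinuousLinearMap.proj i).comp (ContinuousLinearMap.fst ℝ (Fin n → ℝ) (Fin n → ℝ))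

theorem standard_levelCore {n : ℕ} (hn : 2 ≤ n) {η : Form n} (h : Standard η) : LevelCore η := by
  obtain ⟨Φ, T, p, h1, -⟩ := standard_point hn h
  have hn0 : 0 < n := by omega
  refine ⟨Φ, {p}, fun x => cfst ⟨0, hn0⟩ (x - p), h1,
    (cfst ⟨0, hn0⟩).contDiff.comp (contDiff_id.sub contDiff_const), ?_, ?_⟩
  · intro q hq
    rw [mem_singleton_iff] at hq
    show cfst ⟨0, hn0⟩ (q - p) = 0
    rw [hq, sub_self, map_zero]
  · intro γ hγ hH
    by_contra hcon
    push Not at hcon
    have h2 : γ = fun _ => p := by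
      funext t
      exact hcon t
    have h3 := hH 0 (Pi.single ⟨0, hn0⟩ 1, 0)
    have h4 : HasFDerivAt (fun x => cfst ⟨0, hn0⟩ (x - p)) (cfst ⟨0, hn0⟩) (γ 0) :=
      (cfst ⟨0, hn0⟩).hasFDerivAt.comp (γ 0) ((hasFDerivAt_id (γ 0)).sub_const p)
    rw [h4.fderiv, h2, deriv_const] at h3
    have h5 : η p ![0, (Pi.single ⟨0, hn0⟩ 1, 0)] = 0 := (η p).map_coord_zero (i := 0) rfl
    rw [h5] at h3
    have h6 : cfst ⟨0, hn0⟩ ((Pi.single ⟨0, hn0⟩ 1, 0) : V n) = 1 := by
      simp [cfst]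
    rw [h6] at h3
    exact zero_ne_one h3

theorem standard_planeCore {n : ℕ} (hn : 2 ≤ n) {η : Form n} (h : Standard η) : PlaneCore η := by
  obtain ⟨Φ, T, p, h1, -⟩ := standard_point hn h
  have hn0 : 0 < n := by omega
  set e : V n := (Pi.single ⟨0, hn0⟩ 1, 0) with he
  have h6 : cfst ⟨0, hn0⟩ e = 1 := by
    simp [cfst, he]
  have hι : ∀ z : Fin 1 → ℝ, HasFDerivAt (fun z : Fin 1 → ℝ => p + z 0 • e)
      ((ContinuousLinearMap.proj (R := ℝ) (φ := fun _ : Fin 1 => ℝ) 0).smulRight e) z := by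
    intro z
    exact ((ContinuousLinearMap.proj (R := ℝ) (φ := fun _ : Fin 1 => ℝ) 0).smulRight
      e).hasFDerivAt.const_add p
  refine ⟨Φ, {p}, 1, fun z => p + z 0 • e, fun x _ => cfst ⟨0, hn0⟩ (x - p), fun _ => 1, h1,
    ?_, ?_, ?_, ?_, ?_⟩
  · exact contDiff_const.add ((contDiff_apply ℝ ℝ 0).smul contDiff_const)
  · rw [contDiff_pi]
    intro i
    exact (cfst ⟨0, hn0⟩).contDiff.comp (contDiff_id.sub contDiff_const)
  · intro z
    funext i
    show cfst ⟨0, hn0⟩ (p + z 0 • e - p) = z i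
    rw [add_sub_cancel_left, map_smul, h6, smul_eq_mul, mul_one, Subsingleton.elim i 0]
  · intro h2
    have h3 := congrFun h2 0
    exact one_ne_zero h3
  · intro q hq
    rw [mem_singleton_iff] at hq
    refine ⟨0, by rw [hq]; simp, fun v => ?_⟩
    rw [(hι 0).fderiv]
    obtain ⟨L, hL⟩ := Pool.Agent.Helper18.SY.cv_ n
    rw [← hL]
    have h5 : L (η q) e e = 0 := by
      rw [hL]
      exact (η q).map_eq_zero_of_eq _ (i := 0) (j := 1) rfl (by decide)
    show L (η q) ((1 : ℝ) • e) (v 0 • e) = 0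
    rw [one_smul, map_smul, h5, smul_zero]

/-- THEOREM A -/
theorem thmA {n : ℕ} (hn : 2 ≤ n) {η : Form n} (hη : StdAtInf η) :
    [Standard η, InfCore η, LevelCore η, PlaneCore η, SympCore η, SymCore η].TFAE := by
  tfae_have 1 → 6 := standard_symCore hn
  tfae_have 6 → 5 := symCore_sympCore hn hη
  tfae_have 5 → 2 := sympCore_infCore hn hη
  tfae_have 2 → 1 := infCore_standard hn hη
  tfae_have 1 → 3 := standard_levelCore hn
  tfae_have 3 → 2 := levelCore_infCore hn hη
  tfae_have 1 → 4 := standard_planeCore hn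
  tfae_have 4 → 2 := planeCore_infCore
  tfae_finish

end Pool.Agent.Helper37.CA
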