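import Pool.Agent.Helper37.CA.Tan
import Pool.Agent.Helper32.SY.FP
import Pool.Agent.Helper69.SY.HV

/-!
# Displacing a compact set of fixed points
-/

set_option autoImplicit false

open Set Filter Topology Metric MeasureTheory
open scoped ContDiff NNReal

namespace Pool.Agent.Helper37.CA

open Pool.Agent.Helper91.SY

section
variable {E : Type} [NormedAddCommGroup E] [NormedSpace ℝ E] [FiniteDimensional ℝ E] {S : ℝ → E → E}
  {B : E → E →L[ℝ] E →L[ℝ] ℝ}

/-- the average of a vector over the isotropy representation is killed by the linearised generator -/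
theorem Circ.avg_vec (h : Circ S) {p : E} (hp : ∀ t, S t p = p) (w : E) :
    fderiv ℝ (gen S) p (∫ t in (0 : ℝ)..1, fderiv ℝ (S t) p w) = 0 := by
  have hcont : Continuous fun t : ℝ => fderiv ℝ (S t) p w := by
    have h1 : (fun t : ℝ => fderiv ℝ (S t) p w) = fun t =>
        (fderiv ℝ (fun z : ℝ × E => S z.1 z.2) (t, p)) (0, w) := by
      funext t
      rw [h.space]
      simp
    rw [h1]
    exact ((h.smooth.continuous_fderiv (by simp)).comp
      (by fun_prop : Continuous fun t : ℝ => (t, p))).clm_apply continuous_const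
  have hper : Function.Periodic (fun t : ℝ => fderiv ℝ (S t) p w) 1 := by
    intro t
    have h1 : S (t + 1) = S t := by
      funext y
      rw [h.add, h.one]
    show fderiv ℝ (S (t + 1)) p w = fderiv ℝ (S t) p w
    rw [h1]
  have hfix : ∀ s, fderiv ℝ (S s) p (∫ t in (0 : ℝ)..1, fderiv ℝ (S t) p w) =
      ∫ t in (0 : ℝ)..1, fderiv ℝ (S t) p w := by
    intro s
    rw [← ContinuousLinearMap.intervalIntegral_comp_comm _ (hcont.intervalIntegrable 0 1)]
    calc ∫ t in (0 : ℝ)..1, fderiv ℝ (S s) p (fderiv ℝ (S t) p w)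
        = ∫ t in (0 : ℝ)..1, fderiv ℝ (S (t + s)) p w := by
          refine intervalIntegral.integral_congr fun t _ => ?_
          show fderiv ℝ (S s) p (fderiv ℝ (S t) p w) = fderiv ℝ (S (t + s)) p w
          rw [add_comm t s, h.iso_add hp s t]
          rfl
      _ = ∫ t in (0 + s)..(1 + s), fderiv ℝ (S t) p w :=
          intervalIntegral.integral_comp_add_right (fun t => fderiv ℝ (S t) p w) s
      _ = ∫ t in (0 : ℝ)..1, fderiv ℝ (S t) p w := by
          have := hper.intervalIntegral_add_eq s 0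
          rw [zero_add] at this
          rw [zero_add, add_comm 1 s]
          exact this
  have h1 := h.dt_space p (∫ t in (0 : ℝ)..1, fderiv ℝ (S t) p w)
  have h2 : (fun s => fderiv ℝ (S s) p (∫ t in (0 : ℝ)..1, fderiv ℝ (S t) p w)) =
      fun _ => ∫ t in (0 : ℝ)..1, fderiv ℝ (S t) p w := by
    funext s
    exact hfix s
  rw [h2] at h1
  exact h1.unique (hasDerivAt_const (0 : ℝ) _)

/-- a compact set of zeros of a map `G` is displaced by a small Hamiltonian diffeomorphism, if the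
Hamiltonian vector of `f` at its points is not in the kernel of the derivative of `G` -/
theorem ham_displace (hB : Symp B) {K : Set E} (hK : IsCompact K) {G : E → E}
    (hG : ContDiff ℝ ∞ G) (hG0 : ∀ x ∈ K, G x = 0) {f : E → ℝ} (hf : ContDiff ℝ ∞ f)
    (hmove : ∀ p ∈ K, ∀ v, (∀ w, B p v w = fderiv ℝ f p w) → fderiv ℝ G p v ≠ 0) :
    ∃ g : E → E, ContDiff ℝ ∞ g ∧ Function.Injective g ∧ Pull g B B ∧ ∀ x ∈ K, g x ∉ K := by
  have : ProperSpace E := FiniteDimensional.proper ℝ E
  -- cut off the function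
  obtain ⟨L, hL0, hL⟩ : ∃ L : ℝ, 0 < L ∧ ∀ x ∈ K, ‖x‖ < L := by
    obtain ⟨L, hL⟩ := hK.isBounded.exists_norm_le
    exact ⟨max L 0 + 1, by positivity, fun x hx =>
      lt_of_le_of_lt ((hL x hx).trans (le_max_left _ _)) (lt_add_one _)⟩
  let b : ContDiffBump (0 : E) := ⟨L, L + 1, hL0, by linarith⟩
  set F : E → ℝ := fun x => b x * f x with hF
  have hbs : ContDiff ℝ ∞ (fun x : E => b x) := b.contDiff
  have hFs : ContDiff ℝ ∞ F := hbs.mul hf
  have hFeq : ∀ x ∈ K, F =ᶠ[𝓝 x] f := by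
    intro x hx
    have h1 : x ∈ ball (0 : E) L := by
      rw [mem_ball_zero_iff]
      exact hL x hx
    filter_upwards [isOpen_ball.mem_nhds h1] with y hy
    have h2 : b y = 1 := b.one_of_mem_closedBall (ball_subset_closedBall hy)
    show b y * f y = f y
    rw [h2, one_mul]
  obtain ⟨X, hX, hXF⟩ := Pool.Agent.Helper69.SY.hv_ E B F hB hFs
  have hXc : HasCompactSupport X := by
    refine HasCompactSupport.intro (isCompact_closedBall (0 : E) (L + 1)) fun x hx => ?_
    refine hB.nondeg x _ fun v => ?_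
    rw [hXF x v]
    have h1 : F =ᶠ[𝓝 x] fun _ => 0 := by
      filter_upwards [isClosed_closedBall.isOpen_compl.mem_nhds hx] with y hy
      have h2 : b y = 0 := by
        apply b.zero_of_le_dist
        rw [mem_compl_iff, mem_closedBall, not_le] at hy
        exact hy.le
      show b y * f y = 0
      rw [h2, zero_mul]
    rw [h1.fderiv_eq]
    simp
  obtain ⟨C, hC⟩ := ContDiff.lipschitzWith_of_hasCompactSupport hXc hX (by simp)
  obtain ⟨Φ, hΦ, h0, hder, hadd⟩ := exists_flow_lip hX hC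
  have hflow : Flow X Φ := ⟨hΦ, h0, hder⟩
  have hpull := Pool.Agent.Helper32.SY.fp_ E B F X Φ hB hFs hX hXF hflow
  have hΦs : ∀ t, ContDiff ℝ ∞ (Φ t) := fun t => hΦ.comp (contDiff_const.prodMk contDiff_id)
  -- the points of `K` leave the zero set of `G`
  have key : ∀ p ∈ K, ∀ᶠ z : ℝ × E in 𝓝 ((0 : ℝ), p), z.2 ∈ K → 0 < z.1 →
      G (Φ z.1 z.2) ≠ 0 := by
    intro p hp
    have hne : fderiv ℝ G p (X p) ≠ 0 := by
      refine hmove p hp _ fun w => ?_
      rw [hXF p w, (hFeq p hp).fderiv_eq]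
    obtain ⟨ℓ, -, hℓ⟩ := exists_dual_vector ℝ _ (norm_ne_zero_iff.2 hne)
    have hℓ' : 0 < ℓ (fderiv ℝ G p (X p)) := by
      rw [hℓ]
      exact_mod_cast norm_pos_iff.2 hne
    set W : ℝ × E → ℝ := fun z => ℓ (fderiv ℝ G (Φ z.1 z.2) (X (Φ z.1 z.2))) with hW
    have hWc : Continuous W := by
      have h1 : Continuous fun z : ℝ × E => fderiv ℝ G (Φ z.1 z.2) :=
        (hG.continuous_fderiv (by simp)).comp hΦ.continuous
      have h2 : Continuous fun z : ℝ × E => X (Φ z.1 z.2) := hX.continuous.comp hΦ.continuous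
      exact ℓ.continuous.comp (h1.clm_apply h2)
    have hWp : 0 < W (0, p) := by
      show 0 < ℓ (fderiv ℝ G (Φ 0 p) (X (Φ 0 p)))
      rw [h0]
      exact hℓ'
    have h1 : ∀ᶠ z in 𝓝 ((0 : ℝ), p), 0 < W z := hWc.continuousAt.eventually (lt_mem_nhds hWp)
    obtain ⟨ε, hε, hεW⟩ := Metric.eventually_nhds_iff_ball.1 h1
    filter_upwards [Metric.ball_mem_nhds ((0 : ℝ), p) hε] with z hz1 hz2 hz3
    have hz4 : z.1 < ε ∧ dist z.2 p < ε := by
      have h3 : dist z ((0 : ℝ), p) < ε := hz1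
      rw [Prod.dist_eq] at h3
      have h4 : dist z.1 0 < ε := lt_of_le_of_lt (le_max_left _ _) h3
      have h5 : dist z.2 p < ε := lt_of_le_of_lt (le_max_right _ _) h3
      rw [Real.dist_eq, sub_zero] at h4
      exact ⟨lt_of_le_of_lt (le_abs_self _) h4, h5⟩
    have hderiv : ∀ s, HasDerivAt (fun s => ℓ (G (Φ s z.2))) (W (s, z.2)) s := by
      intro s
      have h3 : HasDerivAt (fun s => G (Φ s z.2))
          (fderiv ℝ G (Φ s z.2) (X (Φ s z.2))) s :=
        HasFDerivAt.comp_hasDerivAt (l := G) (f := fun s => Φ s z.2) s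
          ((hG.differentiable (by simp)) (Φ s z.2)).hasFDerivAt (hder s z.2)
      exact ℓ.hasFDerivAt.comp_hasDerivAt s h3
    have hmono : StrictMonoOn (fun s => ℓ (G (Φ s z.2))) (Icc 0 z.1) := by
      refine strictMonoOn_of_deriv_pos (convex_Icc 0 z.1)
        (fun s _ => (hderiv s).continuousAt.continuousWithinAt) fun s hs => ?_
      rw [interior_Icc] at hs
      rw [(hderiv s).deriv]
      refine hεW (s, z.2) ?_
      rw [mem_ball, Prod.dist_eq, max_lt_iff]
      refine ⟨?_, hz4.2⟩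
      show dist s 0 < ε
      rw [Real.dist_eq, sub_zero, abs_of_pos hs.1]
      exact hs.2.trans hz4.1
    have h3 := hmono (a := 0) (b := z.1) ⟨le_rfl, hz3.le⟩ ⟨hz3.le, le_rfl⟩ hz3
    simp only [h0, hG0 z.2 hz2, map_zero] at h3
    intro h4
    rw [h4, map_zero] at h3
    exact lt_irrefl _ h3
  have h1 := hK.eventually_forall_of_forall_eventually (x₀ := (0 : ℝ))
    (P := fun s y => y ∈ K → 0 < s → G (Φ s y) ≠ 0) key
  obtain ⟨s, hs, hs0⟩ : ∃ s : ℝ, (∀ y ∈ K, y ∈ K → 0 < s → G (Φ s y) ≠ 0) ∧ 0 < s := by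
    have h2 : ∀ᶠ s in 𝓝[>] (0 : ℝ), ∀ y ∈ K, y ∈ K → 0 < s → G (Φ s y) ≠ 0 :=
      h1.filter_mono nhdsWithin_le_nhds
    exact (h2.and self_mem_nhdsWithin).exists
  refine ⟨Φ s, hΦs s, ?_, (hpull s).1, fun x hx hx' => ?_⟩
  · intro x y hxy
    have h2 : Φ (-s) (Φ s x) = Φ (-s) (Φ s y) := by rw [hxy]
    rwa [← hadd, ← hadd, neg_add_cancel, h0, h0] at h2
  · exact hs x hx hx hs0 (hG0 _ hx')

end

end Pool.Agent.Helper37.CA
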