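import Pool.Agent.Helper37.CA.Crit
import Pool.Agent.Helper91.SY.Main
import Pool.Agent.Helper91.SY.Defs

/-!
# Definitions and bridge for the core conditions (for the result file of EmbeddingCriterion)
-/

set_option autoImplicit false

namespace Pool.Agent.Helper37.CAE

open Filter Topology
open scoped ContDiff
open Pool.Agent.Helper91.SYD

section general

variable {E : Type} [NormedAddCommGroup E] [NormedSpace ℝ E]

/-- `F` is a smooth flow, i.e. a smooth action of `ℝ` on `E`. -/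
structure SmoothFlow (F : ℝ → E → E) : Prop where
  smooth : ContDiff ℝ ∞ (fun z : ℝ × E => F z.1 z.2)
  zero : ∀ x, F 0 x = x
  add : ∀ s t x, F (s + t) x = F s (F t x)

/-- The generating vector of the flow `F` at the point `x`. -/
noncomputable def velocity (F : ℝ → E → E) (x : E) : E := deriv (fun t => F t x) 0

/-- `T` is a nontrivial smooth action of the circle `ℝ / 2πℤ` on `E` which preserves the form `η`. -/
structure CircleAction (η : E → E [⋀^Fin 2]→L[ℝ] ℝ) (T : ℝ → E → E) : Prop where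
  flow : SmoothFlow T
  period : ∀ x, T (2 * Real.pi) x = x
  nontrivial : ∃ t x, T t x ≠ x
  preserves : ∀ t x u v, ev (η (T t x)) (dmap (T t) x u) (dmap (T t) x v) = ev (η x) u v

/-- `Φ` is a Liouville flow of `η` with the compact core `K`: `Φ_s^* η = e^s η`, the compact set `K` is invariant,
and `Φ_{-s}` maps, for large `s`, any given bounded set into any given neighbourhood of `K`. -/
structure Core (η : E → E [⋀^Fin 2]→L[ℝ] ℝ) (Φ : ℝ → E → E) (K : Set E) : Prop where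
  flow : SmoothFlow Φ
  liouville : ∀ s x u v,
    ev (η (Φ s x)) (dmap (Φ s) x u) (dmap (Φ s) x v) = Real.exp s * ev (η x) u v
  compact : IsCompact K
  invariant : ∀ s, ∀ x ∈ K, Φ s x ∈ K
  attracts : ∀ N : Set E, IsOpen N → K ⊆ N → ∀ r : ℝ, ∃ s₀ : ℝ, ∀ s, s₀ ≤ s → ∀ x, ‖x‖ ≤ r →
    Φ (-s) x ∈ N

/-- The vector `X` is a limit of multiples of chords of the set `K` which shrink to the point `q`. -/
def Chord (K : Set E) (q X : E) : Prop := ∃ (x y : ℕ → E) (t : ℕ → ℝ), (∀ j, x j ∈ K) ∧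
  (∀ j, y j ∈ K) ∧ (∀ j, 0 < t j) ∧ Tendsto t atTop (𝓝 0) ∧ Tendsto x atTop (𝓝 q) ∧
  Tendsto (fun j => (t j)⁻¹ • (y j - x j)) atTop (𝓝 X)

/-- (2) The core `K` of some Liouville flow of `η` is displaced infinitesimally by the Hamiltonian field of a
function `f`: at no point of `K` is the Hamiltonian vector of `f` a limit of chords of `K`. -/
def InfinitesimalCore (η : E → E [⋀^Fin 2]→L[ℝ] ℝ) : Prop :=
  ∃ (Φ : ℝ → E → E) (K : Set E) (f : E → ℝ), Core η Φ K ∧ ContDiff ℝ ∞ f ∧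
    ∀ q ∈ K, ∀ X, HamAt η f q X → ¬ Chord K q X

/-- (3) The core `K` of some Liouville flow of `η` lies in a level set of a function `f` and contains no complete
orbit of the Hamiltonian field of `f`. -/
def LevelCore (η : E → E [⋀^Fin 2]→L[ℝ] ℝ) : Prop :=
  ∃ (Φ : ℝ → E → E) (K : Set E) (f : E → ℝ), Core η Φ K ∧ ContDiff ℝ ∞ f ∧ (∀ q ∈ K, f q = 0) ∧
    ∀ γ : ℝ → E, Differentiable ℝ γ → (∀ t, HamAt η f (γ t) (deriv γ t)) → ∃ t, γ t ∉ K

/-- (4) The core `K` of some Liouville flow of `η` lies in the image of an embedding `ι` of `ℝ^k` with a smooth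
left inverse `r`, and for some constant vector `a ≠ 0` the vector `Dι(a)` is, at the points of `K`,
`η`-orthogonal to all tangent vectors of the image. -/
def PlaneCore (η : E → E [⋀^Fin 2]→L[ℝ] ℝ) : Prop :=
  ∃ (Φ : ℝ → E → E) (K : Set E) (k : ℕ) (ι : (Fin k → ℝ) → E) (r : E → (Fin k → ℝ))
    (a : Fin k → ℝ), Core η Φ K ∧ ContDiff ℝ ∞ ι ∧ ContDiff ℝ ∞ r ∧ (∀ z, r (ι z) = z) ∧ a ≠ 0 ∧
    ∀ q ∈ K, ∃ z, ι z = q ∧ ∀ v, ev (η q) (fderiv ℝ ι z a) (fderiv ℝ ι z v) = 0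

/-- (5) The core `K` of some Liouville flow of `η` lies, to first order, in a symplectic submanifold of positive
codimension: a smooth map `c` is the identity on `K` and its derivative at the points of `K` is a projection,
different from the identity and self-adjoint for `η`. -/
def SymplecticCore (η : E → E [⋀^Fin 2]→L[ℝ] ℝ) : Prop :=
  ∃ (Φ : ℝ → E → E) (K : Set E) (c : E → E), Core η Φ K ∧ ContDiff ℝ ∞ c ∧ ∀ q ∈ K, c q = q ∧
    (∀ v, dmap c q (dmap c q v) = dmap c q v) ∧ (∃ v, dmap c q v ≠ v) ∧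
    ∀ u v, ev (η q) (dmap c q u) v = ev (η q) u (dmap c q v)

/-- (6) Some Liouville flow `Φ` of `η` with a compact core commutes with a nontrivial circle action `T` which
preserves `η`, and the moment map `η(Z, X)`, where `Z, X` are the generating fields of `Φ, T`, is nonnegative
outside a compact set. -/
def CircleCore (η : E → E [⋀^Fin 2]→L[ℝ] ℝ) : Prop :=
  ∃ (Φ T : ℝ → E → E) (K : Set E), Core η Φ K ∧ CircleAction η T ∧
    (∀ s t x, Φ s (T t x) = T t (Φ s x)) ∧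
    ∃ C : Set E, IsCompact C ∧ ∀ x, x ∉ C → 0 ≤ ev (η x) (velocity Φ x) (velocity T x)

/-- The six conditions. -/
def conditions (σ : E → E → ℝ) (η : E → E [⋀^Fin 2]→L[ℝ] ℝ) : List Prop :=
  [Standard σ η, InfinitesimalCore η, LevelCore η, PlaneCore η, SymplecticCore η, CircleCore η]

end general

section bridge

variable {n : ℕ} {η : V n → V n [⋀^Fin 2]→L[ℝ] ℝ}

theorem flow_iff {F : ℝ → V n → V n} : Pool.Agent.Helper37.CA.Fl F ↔ SmoothFlow F :=
  ⟨fun h => ⟨h.smooth, h.zero, h.add⟩, fun h => ⟨h.smooth, h.zero, h.add⟩⟩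

theorem core_iff {Φ : ℝ → V n → V n} {K : Set (V n)} :
    Pool.Agent.Helper37.CA.CoreFlow η Φ K ↔ Core η Φ K :=
  ⟨fun h => ⟨flow_iff.1 h.flow, h.conf, h.cpt, h.inv, h.att⟩,
    fun h => ⟨flow_iff.2 h.flow, h.liouville, h.compact, h.invariant, h.attracts⟩⟩

theorem inf_iff : Pool.Agent.Helper37.CA.InfCore η ↔ InfinitesimalCore η := by
  constructor
  · rintro ⟨Φ, K, f, h1, h2⟩
    exact ⟨Φ, K, f, core_iff.1 h1, h2⟩
  · rintro ⟨Φ, K, f, h1, h2⟩
    exact ⟨Φ, K, f, core_iff.2 h1, h2⟩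

theorem level_iff : Pool.Agent.Helper37.CA.LevelCore η ↔ LevelCore η := by
  constructor
  · rintro ⟨Φ, K, f, h1, h2, h3, h4⟩
    exact ⟨Φ, K, f, core_iff.1 h1, h2, h3, h4⟩
  · rintro ⟨Φ, K, f, h1, h2, h3, h4⟩
    exact ⟨Φ, K, f, core_iff.2 h1, h2, h3, h4⟩

theorem plane_iff : Pool.Agent.Helper37.CA.PlaneCore η ↔ PlaneCore η := by
  constructor
  · rintro ⟨Φ, K, k, ι, r, a, h1, h2⟩
    exact ⟨Φ, K, k, ι, r, a, core_iff.1 h1, h2⟩
  · rintro ⟨Φ, K, k, ι, r, a, h1, h2⟩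
    exact ⟨Φ, K, k, ι, r, a, core_iff.2 h1, h2⟩

theorem symp_iff : Pool.Agent.Helper37.CA.SympCore η ↔ SymplecticCore η := by
  constructor
  · rintro ⟨Φ, K, c, h1, h2⟩
    exact ⟨Φ, K, c, core_iff.1 h1, h2⟩
  · rintro ⟨Φ, K, c, h1, h2⟩
    exact ⟨Φ, K, c, core_iff.2 h1, h2⟩

theorem circle_iff : Pool.Agent.Helper37.CA.SymCore η ↔ CircleCore η := by
  constructor
  · rintro ⟨Φ, T, K, h1, h2, h3, h4, h5, h6⟩
    exact ⟨Φ, T, K, core_iff.1 h1, ⟨flow_iff.1 h2, h3, h4, h5⟩, h6⟩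
  · rintro ⟨Φ, T, K, h1, ⟨h2, h3, h4, h5⟩, h6⟩
    exact ⟨Φ, T, K, core_iff.2 h1, flow_iff.2 h2, h3, h4, h5, h6⟩

theorem std_iff : Pool.Agent.Helper91.SY.Standard η ↔ Standard w0 η := Iff.rfl

end bridge


theorem cores (n : ℕ) (hn : 2 ≤ n) (η : V n → V n [⋀^Fin 2]→L[ℝ] ℝ)
    (hη : StandardAtInfinity w0 η) : (conditions w0 η).TFAE := by
  have hη' : Pool.Agent.Helper91.SY.StdAtInf η := ⟨hη.1.1, hη.1.2, hη.1.3, hη.2⟩
  have h := Pool.Agent.Helper37.CA.thmA hn hη'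
  rw [inf_iff, level_iff, plane_iff, symp_iff, circle_iff, std_iff] at h
  exact h

end Pool.Agent.Helper37.CAE
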