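import Pool.Agent.Helper87.SY.Flow2

/-!
# Global smooth flows of Lipschitz fields
-/

set_option autoImplicit false

open Set Filter Topology Metric
open scoped ContDiff NNReal

namespace Pool.Agent.Helper37.CA

open Pool.Agent.Helper87.SY

open scoped Manifold in
/-- global solutions of Lipschitz `C¹` fields -/
theorem exists_sol_lip {E : Type} [NormedAddCommGroup E] [NormedSpace ℝ E]
    [FiniteDimensional ℝ E] {W : E → E} (hW : ContDiff ℝ 1 W) {L : ℝ≥0} (hL : LipschitzWith L W)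
    (x : E) : ∃ γ : ℝ → E, γ 0 = x ∧ ∀ t, HasDerivAt γ (W (γ t)) t := by
  have : CompleteSpace E := FiniteDimensional.complete ℝ E
  have hL0 : (0 : ℝ) ≤ L := L.2
  have hpos : 0 < 1 / ((L : ℝ) + 1) := by positivity
  have hloc : ∀ x : E, ∃ γ : ℝ → E, γ 0 = x ∧
      ∀ t ∈ Icc (-(1 / ((L : ℝ) + 1))) (1 / ((L : ℝ) + 1)),
        HasDerivWithinAt γ (W (γ t)) (Icc (-(1 / ((L : ℝ) + 1))) (1 / ((L : ℝ) + 1))) t := by
    intro x
    set a : ℝ≥0 := ‖W x‖₊ + 1 with ha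
    have hbd : ∀ y ∈ closedBall x (a : ℝ), ‖W y‖ ≤ ((‖W x‖₊ + L * a : ℝ≥0) : ℝ) := by
      intro y hy
      have h1 := hL.dist_le_mul y x
      rw [dist_eq_norm] at h1
      have h2 : ‖W y‖ ≤ ‖W x‖ + ‖W y - W x‖ := by
        have := norm_add_le (W x) (W y - W x)
        simpa using this
      have h3 : (L : ℝ) * dist y x ≤ L * a := mul_le_mul_of_nonneg_left (mem_closedBall.1 hy) hL0
      push_cast
      linarith
    have hPL : IsPicardLindelof (fun _ => W) (tmin := -(1 / ((L : ℝ) + 1)))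
        (tmax := 1 / ((L : ℝ) + 1))
        ⟨0, by constructor <;> linarith⟩ x a 0 (‖W x‖₊ + L * a) L := by
      refine IsPicardLindelof.of_time_independent hbd hL.lipschitzOnWith ?_
      push_cast
      rw [sub_zero, zero_sub, neg_neg, max_self, sub_zero, mul_one_div,
        div_le_iff₀ (by positivity)]
      have : (a : ℝ) = ‖W x‖ + 1 := by rw [ha]; push_cast; rfl
      nlinarith [norm_nonneg (W x)]
    obtain ⟨y, hy, hy'⟩ := hPL.exists_eq_forall_mem_Icc_hasDerivWithinAt₀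
    exact ⟨y, hy, hy'⟩
  have hv : ContMDiff 𝓘(ℝ, E) 𝓘(ℝ, E).tangent 1
      (fun x => (⟨x, W x⟩ : TangentBundle 𝓘(ℝ, E) E)) := by
    have := (contMDiff_vectorSpace_iff_contDiff (V := W) (n := 1)).2 hW
    exact this
  obtain ⟨γ, h0, h1⟩ := exists_isMIntegralCurve_of_isMIntegralCurveOn (I := 𝓘(ℝ, E)) (v := W) hv
    (ε := 1 / ((L : ℝ) + 1)) (by positivity) (fun x => by
      obtain ⟨γ, h0, h1⟩ := hloc x
      refine ⟨γ, h0, fun t ht => ?_⟩
      have h2 := h1 t ⟨ht.1.le, ht.2.le⟩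
      have h3 : HasFDerivWithinAt γ ((1 : ℝ →L[ℝ] ℝ).smulRight (W (γ t)))
          (Ioo (-(1 / ((L : ℝ) + 1))) (1 / ((L : ℝ) + 1))) t :=
        (h2.mono Ioo_subset_Icc_self).hasFDerivWithinAt
      exact h3.hasMFDerivWithinAt) x
  refine ⟨γ, h0, fun t => ?_⟩
  have h2 : HasFDerivAt γ ((1 : ℝ →L[ℝ] ℝ).smulRight (W (γ t)) : ℝ →L[ℝ] E) t :=
    HasMFDerivAt.hasFDerivAt (h1 t)
  exact h2.hasDerivAt.congr_deriv (by simp)

/-- a Lipschitz `C^∞` field has a global, jointly `C^∞` flow with the group law -/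
theorem exists_flow_lip {E : Type} [NormedAddCommGroup E] [NormedSpace ℝ E]
    [FiniteDimensional ℝ E] {W : E → E} (hW : ContDiff ℝ ∞ W) {L : ℝ≥0} (hL : LipschitzWith L W) :
    ∃ Φ : ℝ → E → E, ContDiff ℝ ∞ (fun z : ℝ × E => Φ z.1 z.2) ∧ (∀ x, Φ 0 x = x) ∧
      (∀ t x, HasDerivAt (fun s => Φ s x) (W (Φ t x)) t) ∧
      ∀ s t x, Φ (s + t) x = Φ s (Φ t x) := by
  choose γ h0 h1 using exists_sol_lip (hW.of_le (by exact_mod_cast le_top) : ContDiff ℝ 1 W) hL
  have h : IsFlow W (fun t x => γ x t) := ⟨h0, h1⟩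
  refine ⟨fun t x => γ x t, h.contDiff hW, h0, fun t x => h1 x t, fun s t x => ?_⟩
  have huniq := ODE_solution_unique_univ (v := fun _ => W) (s := fun _ => univ) (K := L)
    (f := fun s => γ x (s + t)) (g := fun s => γ (γ x t) s) (t₀ := 0)
    (fun _ => hL.lipschitzOnWith) (fun s => ⟨?_, trivial⟩) (fun s => ⟨h1 _ s, trivial⟩)
    (by simp [h0])
  · exact congrFun huniq s
  · exact (h1 x (s + t)).comp_add_const s t

end Pool.Agent.Helper37.CA
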