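import Pool.Agent.Helper37.CA.Flow
import Pool.Agent.Helper37.CA.Avg
import Pool.Agent.Helper91.SY.Goals

/-!
# The Liouville flow of a primitive which is standard at infinity
-/

set_option autoImplicit false

open Set Filter Topology Metric
open scoped ContDiff NNReal

namespace Pool.Agent.Helper37.CA

open Pool.Agent.Helper91.SY

section
variable {E : Type} [NormedAddCommGroup E] [NormedSpace ℝ E] [FiniteDimensional ℝ E]

/-- `a` is a primitive of the symplectic form `B`; both are standard outside the ball of radius `ρ` -/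
structure Prim (B : E → E →L[ℝ] E →L[ℝ] ℝ) (B0 : E →L[ℝ] E →L[ℝ] ℝ) (ρ : ℝ)
    (a : E → E →L[ℝ] ℝ) : Prop where
  pos : 0 < ρ
  symp : Symp B
  far : Far ρ B B0
  smooth : ContDiff ℝ ∞ a
  prim : ∀ x u v, d1 a x u v = B x u v
  std : ∀ x v, ρ ≤ ‖x‖ → a x v = (1 / 2) * B0 x v

/-- the dual field of a `1`-form -/
theorem exists_dual {B : E → E →L[ℝ] E →L[ℝ] ℝ} (hB : Symp B) {a : E → E →L[ℝ] ℝ}
    (ha : ContDiff ℝ ∞ a) : ∃ X : E → E, ContDiff ℝ ∞ X ∧ ∀ x v, B x (X x) v = a x v := by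
  have : CompleteSpace E := FiniteDimensional.complete ℝ E
  have hfr : Module.finrank ℝ E = Module.finrank ℝ (E →L[ℝ] ℝ) := by
    rw [← (LinearMap.toContinuousLinearMap (𝕜 := ℝ) (E := E) (F' := ℝ)).finrank_eq]
    exact (Subspace.dual_finrank_eq (K := ℝ) (V := E)).symm
  have heq : ∀ x, ∃ e : E ≃L[ℝ] (E →L[ℝ] ℝ), (e : E →L[ℝ] (E →L[ℝ] ℝ)) = B x := by
    intro x
    have hinj : Function.Injective ((B x : E →L[ℝ] (E →L[ℝ] ℝ)) : E →ₗ[ℝ] (E →L[ℝ] ℝ)) := by
      rw [← LinearMap.ker_eq_bot, LinearMap.ker_eq_bot']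
      intro u hu
      apply hB.nondeg x u
      intro v
      have : B x u = 0 := hu
      rw [this]
      rfl
    refine ⟨(LinearEquiv.ofInjectiveOfFinrankEq _ hinj hfr).toContinuousLinearEquiv, ?_⟩
    ext u v
    rfl
  have hsm : ContDiff ℝ ∞ (fun x => (B x).inverse) := by
    rw [contDiff_iff_contDiffAt]
    intro x
    obtain ⟨e, he⟩ := heq x
    have h1 : ContDiffAt ℝ ∞ (ContinuousLinearMap.inverse : (E →L[ℝ] (E →L[ℝ] ℝ)) → _) (B x) := by
      rw [← he]
      exact contDiffAt_map_inverse e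
    exact h1.comp x hB.smooth.contDiffAt
  refine ⟨fun x => (B x).inverse (a x), hsm.clm_apply ha, ?_⟩
  intro x v
  obtain ⟨e, he⟩ := heq x
  have h1 : (B x) ((B x).inverse (a x)) = a x := by
    rw [← he, ContinuousLinearMap.inverse_equiv]
    simp
  rw [h1]

omit [FiniteDimensional ℝ E] in
/-- the Liouville flow multiplies the form by `e^t` -/
theorem flow_conf {B : E → E →L[ℝ] E →L[ℝ] ℝ} (hB : Symp B) {a : E → E →L[ℝ] ℝ}
    (ha : ContDiff ℝ ∞ a) (hd : ∀ x u v, d1 a x u v = B x u v) {X : E → E} (hX : ContDiff ℝ ∞ X)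
    (hXa : ∀ x v, B x (X x) v = a x v) {Φ : ℝ → E → E} (hF : Flow X Φ) (t : ℝ) (x u v : E) :
    B (Φ t x) (fderiv ℝ (Φ t) x u) (fderiv ℝ (Φ t) x v) = Real.exp t * B x u v := by
  have hinf : (∞ : WithTop ℕ∞) ≠ 0 := by simp
  have h2inf : (2 : WithTop ℕ∞) ≤ ∞ := WithTop.coe_le_coe.2 (le_top : (2 : ℕ∞) ≤ ⊤)
  have hBd : Differentiable ℝ B := hB.smooth.differentiable hinf
  have hXd : Differentiable ℝ X := hX.differentiable hinf
  have had : Differentiable ℝ a := ha.differentiable hinf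
  set G : ℝ × E → E := fun p => Φ p.1 p.2 with hG
  have hGs : ContDiff ℝ ∞ G := hF.smooth
  have hGd : Differentiable ℝ G := hGs.differentiable hinf
  have hG1 : ContDiff ℝ ∞ (fderiv ℝ G) := hGs.fderiv_right (m := ∞) (by simp)
  have hG1d : Differentiable ℝ (fderiv ℝ G) := hG1.differentiable hinf
  have hanti : ∀ y a b, B y a b = -B y b a := by
    intro y a b
    have h1 := hB.alt y (a + b)
    have h2 := hB.alt y a
    have h3 := hB.alt y b
    simp only [map_add, add_apply] at h1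
    linarith
  have hin1 : ∀ (t : ℝ) (x : E), HasFDerivAt (fun y : E => ((t, y) : ℝ × E))
      (ContinuousLinearMap.inr ℝ ℝ E) x := by
    intro t x
    exact hasFDerivAt_prodMk_right t x
  have hin2 : ∀ (t : ℝ) (x : E), HasDerivAt (fun s : ℝ => ((s, x) : ℝ × E)) ((1 : ℝ), (0 : E)) t := by
    intro t x
    exact (hasDerivAt_id t).prodMk (hasDerivAt_const t x)
  have hspace : ∀ (t : ℝ) (x u : E), fderiv ℝ (Φ t) x u = fderiv ℝ G (t, x) (0, u) := by
    intro t x u
    have h1 : HasFDerivAt (Φ t) ((fderiv ℝ G (t, x)).comp (ContinuousLinearMap.inr ℝ ℝ E)) x :=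
      (hGd (t, x)).hasFDerivAt.comp x (hin1 t x)
    rw [h1.fderiv]
    simp
  have htime : ∀ (t : ℝ) (x : E), X (Φ t x) = fderiv ℝ G (t, x) (1, 0) := by
    intro t x
    have h1 : HasDerivAt (G ∘ fun s : ℝ => ((s, x) : ℝ × E)) (fderiv ℝ G (t, x) (1, 0)) t :=
      HasFDerivAt.comp_hasDerivAt t (hGd (t, x)).hasFDerivAt (hin2 t x)
    exact (hF.deriv t x).unique h1
  have hsymm : ∀ (t : ℝ) (x : E) (a b : ℝ × E),
      fderiv ℝ (fderiv ℝ G) (t, x) a b = fderiv ℝ (fderiv ℝ G) (t, x) b a := by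
    intro t x a b
    have h1 : IsSymmSndFDerivAt ℝ G (t, x) :=
      (hGs.contDiffAt).isSymmSndFDerivAt (by simp; exact h2inf)
    exact h1.eq a b
  have hU : ∀ (t : ℝ) (x u : E), HasDerivAt (fun s => fderiv ℝ (Φ s) x u)
      (fderiv ℝ X (Φ t x) (fderiv ℝ (Φ t) x u)) t := by
    intro t x u
    have h1 : HasDerivAt (fun s => fderiv ℝ G (s, x)) (fderiv ℝ (fderiv ℝ G) (t, x) (1, 0)) t :=
      (hG1d (t, x)).hasFDerivAt.comp_hasDerivAt t (hin2 t x)
    have h2 : HasDerivAt (fun s => fderiv ℝ G (s, x) (0, u))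
        (fderiv ℝ (fderiv ℝ G) (t, x) (1, 0) (0, u)) t := by
      have h3 := h1.clm_apply (hasDerivAt_const t ((0 : ℝ), u))
      simpa using h3
    have h4 : (fun s => fderiv ℝ (Φ s) x u) = fun s => fderiv ℝ G (s, x) (0, u) := by
      funext s
      exact hspace s x u
    rw [h4]
    have h5 : fderiv ℝ (fderiv ℝ G) (t, x) (1, 0) (0, u)
        = fderiv ℝ X (Φ t x) (fderiv ℝ (Φ t) x u) := by
      rw [hsymm]
      have h6 : HasFDerivAt (fun y => fderiv ℝ G (t, y))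
          ((fderiv ℝ (fderiv ℝ G) (t, x)).comp (ContinuousLinearMap.inr ℝ ℝ E)) x :=
        (hG1d (t, x)).hasFDerivAt.comp x (hin1 t x)
      have h7 := h6.clm_apply (hasFDerivAt_const ((1 : ℝ), (0 : E)) x)
      have h8 : HasFDerivAt (Φ t) (fderiv ℝ (Φ t) x) x := by
        have h9 : HasFDerivAt (Φ t) ((fderiv ℝ G (t, x)).comp (ContinuousLinearMap.inr ℝ ℝ E)) x :=
          (hGd (t, x)).hasFDerivAt.comp x (hin1 t x)
        exact h9.differentiableAt.hasFDerivAt
      have h10 : HasFDerivAt (fun y => X (Φ t y)) ((fderiv ℝ X (Φ t x)).comp (fderiv ℝ (Φ t) x)) x :=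
        (hXd (Φ t x)).hasFDerivAt.comp x h8
      have h11 : (fun y => X (Φ t y)) = fun y => fderiv ℝ G (t, y) (1, 0) := by
        funext y
        exact htime t y
      rw [h11] at h10
      have h12 := congrArg (fun L : E →L[ℝ] E => L u) (h7.unique h10)
      simpa using h12
    rw [← h5]
    exact h2
  have hHam : ∀ y u v, fderiv ℝ B y u (X y) v + B y (fderiv ℝ X y u) v = fderiv ℝ a y u v := by
    intro y u v
    have h1 : (fun z => B z (X z)) = a := by
      funext z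
      ext w
      exact hXa z w
    have h2 := (hBd y).hasFDerivAt.clm_apply (hXd y).hasFDerivAt
    rw [h1] at h2
    have h3 := congrArg (fun L : E →L[ℝ] E →L[ℝ] ℝ => L u v)
      (h2.unique (had y).hasFDerivAt)
    simp only [add_apply, ContinuousLinearMap.comp_apply,
      ContinuousLinearMap.flip_apply] at h3
    linarith
  have hW : ∀ s, HasDerivAt (fun s => Real.exp (-s) *
      B (Φ s x) (fderiv ℝ (Φ s) x u) (fderiv ℝ (Φ s) x v)) 0 s := by
    intro s
    have h1 : HasDerivAt (B ∘ fun s => Φ s x) (fderiv ℝ B (Φ s x) (X (Φ s x))) s :=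
      HasFDerivAt.comp_hasDerivAt (l := B) (f := fun s => Φ s x) s (hBd (Φ s x)).hasFDerivAt
        (hF.deriv s x)
    have h2 := (h1.clm_apply (hU s x u)).clm_apply (hU s x v)
    have h3 := hHam (Φ s x) (fderiv ℝ (Φ s) x u) (fderiv ℝ (Φ s) x v)
    have h4 := hHam (Φ s x) (fderiv ℝ (Φ s) x v) (fderiv ℝ (Φ s) x u)
    have h5 := hB.closed (Φ s x) (X (Φ s x)) (fderiv ℝ (Φ s) x u) (fderiv ℝ (Φ s) x v)
    have h6 := hd (Φ s x) (fderiv ℝ (Φ s) x u) (fderiv ℝ (Φ s) x v)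
    unfold d1 at h6
    have h7 := hanti (Φ s x) (fderiv ℝ (Φ s) x u)
      (fderiv ℝ X (Φ s x) (fderiv ℝ (Φ s) x v))
    have h8 : HasDerivAt (fun s : ℝ => Real.exp (-s)) (Real.exp (-s) * (-1)) s :=
      (Real.hasDerivAt_exp (-s)).comp s (hasDerivAt_neg s)
    have h9 := h8.mul h2
    refine h9.congr_deriv ?_
    simp only [add_apply, Function.comp_apply]
    have h10 : fderiv ℝ B (Φ s x) (X (Φ s x)) (fderiv ℝ (Φ s) x u) (fderiv ℝ (Φ s) x v) +
        B (Φ s x) (fderiv ℝ X (Φ s x) (fderiv ℝ (Φ s) x u)) (fderiv ℝ (Φ s) x v) +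
        B (Φ s x) (fderiv ℝ (Φ s) x u) (fderiv ℝ X (Φ s x) (fderiv ℝ (Φ s) x v)) =
        B (Φ s x) (fderiv ℝ (Φ s) x u) (fderiv ℝ (Φ s) x v) := by linarith
    rw [h10]
    ring
  have hc := is_const_of_deriv_eq_zero (fun s => (hW s).differentiableAt)
    (fun s => (hW s).deriv) t 0
  have h0 : Φ 0 = id := by
    funext y
    exact hF.zero y
  have h1 : fderiv ℝ (Φ 0) x = ContinuousLinearMap.id ℝ E := by
    rw [h0]
    exact fderiv_id
  simp only [h1, hF.zero, ContinuousLinearMap.id_apply, neg_zero, Real.exp_zero, one_mul] at hc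
  rw [← hc, ← mul_assoc, ← Real.exp_add, add_neg_cancel, Real.exp_zero, one_mul]

/-- the Liouville flow of `a` -/
structure LFlow (B : E → E →L[ℝ] E →L[ℝ] ℝ) (ρ : ℝ) (a : E → E →L[ℝ] ℝ) (Z : E → E)
    (Φ : ℝ → E → E) : Prop where
  smooth : ContDiff ℝ ∞ (fun z : ℝ × E => Φ z.1 z.2)
  zero : ∀ x, Φ 0 x = x
  add : ∀ s t x, Φ (s + t) x = Φ s (Φ t x)
  deriv : ∀ t x, HasDerivAt (fun s => Φ s x) (Z (Φ t x)) t
  dual : ∀ x v, B x (Z x) v = a x v
  conf : ∀ t x u v, B (Φ t x) (fderiv ℝ (Φ t) x u) (fderiv ℝ (Φ t) x v) = Real.exp t * B x u v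
  far : ∀ t x, 0 ≤ t → ρ ≤ ‖x‖ → Φ t x = Real.exp (t / 2) • x

theorem exists_lflow {B : E → E →L[ℝ] E →L[ℝ] ℝ} {B0 : E →L[ℝ] E →L[ℝ] ℝ} {ρ : ℝ}
    {a : E → E →L[ℝ] ℝ} (h : Prim B B0 ρ a) : ∃ (Z : E → E) (Φ : ℝ → E → E), LFlow B ρ a Z Φ := by
  have : ProperSpace E := FiniteDimensional.proper ℝ E
  obtain ⟨Z, hZ, hZa⟩ := exists_dual h.symp h.smooth
  have hfar : ∀ x, ρ ≤ ‖x‖ → Z x = (1 / 2 : ℝ) • x := by
    intro x hx
    have h1 : Z x - (1 / 2 : ℝ) • x = 0 := by
      refine h.symp.nondeg x _ fun v => ?_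
      rw [map_sub, sub_apply, hZa, h.std x v hx, map_smul, smul_apply,
        h.far x hx, smul_eq_mul]
      ring
    exact sub_eq_zero.1 h1
  -- `Z` is Lipschitz
  obtain ⟨C, hC⟩ := (isCompact_closedBall (0 : E) ρ).exists_bound_of_continuousOn
    (hZ.continuous_fderiv (by simp)).continuousOn
  have hlip : LipschitzWith ⟨max C 1, le_max_of_le_right zero_le_one⟩ Z := by
    refine lipschitzWith_of_nnnorm_fderiv_le (hZ.differentiable (by simp)) fun x => ?_
    show ‖fderiv ℝ Z x‖ ≤ max C 1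
    rcases le_or_gt ‖x‖ ρ with hx | hx
    · exact (hC x (by rwa [mem_closedBall_zero_iff])).trans (le_max_left _ _)
    · have h1 : Z =ᶠ[𝓝 x] fun y => (1 / 2 : ℝ) • y := by
        filter_upwards [(isOpen_lt continuous_const continuous_norm).mem_nhds hx] with y hy
        exact hfar y (le_of_lt hy)
      rw [h1.fderiv_eq]
      have h2 : HasFDerivAt (fun y : E => (1 / 2 : ℝ) • y)
          ((1 / 2 : ℝ) • ContinuousLinearMap.id ℝ E) x := (hasFDerivAt_id x).const_smul (1 / 2 : ℝ)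
      rw [h2.fderiv]
      refine le_trans ?_ (le_max_right _ _)
      rw [norm_smul]
      have h3 : ‖ContinuousLinearMap.id ℝ E‖ ≤ 1 := ContinuousLinearMap.norm_id_le
      have h4 : ‖(1 / 2 : ℝ)‖ = 1 / 2 := by norm_num
      rw [h4]
      linarith
  obtain ⟨Φ, hs, h0, hder, hadd⟩ := exists_flow_lip hZ hlip
  refine ⟨Z, Φ, hs, h0, hadd, hder, hZa, ?_, ?_⟩
  · intro t x u v
    exact flow_conf h.symp h.smooth h.prim hZ hZa ⟨hs, h0, hder⟩ t x u v
  · intro t x ht hx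
    have h1 : ∀ s, 0 ≤ s → ρ ≤ ‖Real.exp (s / 2) • x‖ := by
      intro s hs
      rw [norm_smul, Real.norm_of_nonneg (Real.exp_pos _).le]
      have : 1 ≤ Real.exp (s / 2) := Real.one_le_exp (by positivity)
      nlinarith [norm_nonneg x]
    have h2 : ∀ s, HasDerivAt (fun s : ℝ => Real.exp (s / 2) • x)
        ((1 / 2 : ℝ) • (Real.exp (s / 2) • x)) s := by
      intro s
      have h3 : HasDerivAt (fun s : ℝ => Real.exp (s / 2)) (Real.exp (s / 2) * (1 / 2)) s :=
        ((hasDerivAt_id' s).div_const 2).exp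
      refine (h3.smul_const x).congr_deriv ?_
      rw [smul_smul, mul_comm]
    have huniq := ODE_solution_unique_of_mem_Icc_right (v := fun _ => Z)
      (s := fun _ => univ) (K := ⟨max C 1, le_max_of_le_right zero_le_one⟩) (a := 0) (b := t)
      (f := fun s => Φ s x) (g := fun s => Real.exp (s / 2) • x)
      (fun _ _ => hlip.lipschitzOnWith)
      (fun s _ => (hder s x).continuousAt.continuousWithinAt)
      (fun s _ => (hder s x).hasDerivWithinAt) (fun _ _ => trivial)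
      (fun s _ => (h2 s).continuousAt.continuousWithinAt)
      (fun s hs => by
        rw [hfar _ (h1 s hs.1)]
        exact (h2 s).hasDerivWithinAt) (fun _ _ => trivial) (by simp [h0])
    exact huniq ⟨ht, le_rfl⟩

end

end Pool.Agent.Helper37.CA
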