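import Pool.Agent.Helper37.CA.Skel

/-!
# The moment map of a circle action preserving a primitive
-/

set_option autoImplicit false

open Set Filter Topology Metric
open scoped ContDiff NNReal

namespace Pool.Agent.Helper37.CA

open Pool.Agent.Helper91.SY

section
variable {E : Type} [NormedAddCommGroup E] [NormedSpace ℝ E] {S : ℝ → E → E}

theorem Circ.gen_smooth (h : Circ S) : ContDiff ℝ ∞ (gen S) := by
  have h1 : ContDiff ℝ ∞ (fderiv ℝ (fun z : ℝ × E => S z.1 z.2)) := h.smooth.fderiv_right le_rfl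
  have h2 : ContDiff ℝ ∞ (fun x : E => fderiv ℝ (fun z : ℝ × E => S z.1 z.2) (0, x)) :=
    h1.comp (contDiff_const.prodMk contDiff_id)
  exact h2.clm_apply contDiff_const

theorem Circ.deriv_zero (h : Circ S) (x : E) : HasDerivAt (fun t => S t x) (gen S x) 0 := by
  have h1 : HasDerivAt ((fun z : ℝ × E => S z.1 z.2) ∘ fun s : ℝ => ((s, x) : ℝ × E))
      (fderiv ℝ (fun z : ℝ × E => S z.1 z.2) (0, x) (1, 0)) 0 :=
    HasFDerivAt.comp_hasDerivAt 0 ((h.smooth.differentiable (by simp)) (0, x)).hasFDerivAt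
      ((hasDerivAt_id (0 : ℝ)).prodMk (hasDerivAt_const (0 : ℝ) x))
  exact h1

theorem Circ.deriv (h : Circ S) (t : ℝ) (x : E) :
    HasDerivAt (fun t => S t x) (gen S (S t x)) t := by
  have h1 := h.deriv_zero (S t x)
  have h2 : HasDerivAt (fun s => S (s - t) (S t x)) (gen S (S t x)) t := by
    have h3 : HasDerivAt (fun s : ℝ => s - t) 1 t := (hasDerivAt_id t).sub_const t
    have h4 : HasDerivAt (fun u => S u (S t x)) (gen S (S t x)) (t - t) := by
      rwa [sub_self]
    have h5 := HasDerivAt.scomp (g₁ := fun u => S u (S t x)) (h := fun s : ℝ => s - t) t h4 h3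
    rwa [one_smul] at h5
  have h3 : (fun s => S (s - t) (S t x)) = fun s => S s x := by
    funext s
    rw [← h.add, sub_add_cancel]
  rwa [h3] at h2

/-- a fixed point of the action is a zero of the generator and conversely -/
theorem Circ.fix_iff (h : Circ S) [FiniteDimensional ℝ E] (x : E) :
    gen S x = 0 ↔ ∀ t, S t x = x := by
  constructor
  · intro h0
    have hc : ∀ t, HasDerivAt (fun t => S t x) 0 t := by
      intro t
      have h1 : gen S (S t x) = fderiv ℝ (S t) x (gen S x) := by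
        have h2 : HasDerivAt (fun s => S t (S s x)) (fderiv ℝ (S t) x (gen S x)) 0 := by
          have h3 := h.deriv_zero x
          have h4 : HasFDerivAt (S t) (fderiv ℝ (S t) x) (S 0 x) := by
            rw [h.zero]
            exact ((h.right t).differentiable (by simp) x).hasFDerivAt
          exact h4.comp_hasDerivAt 0 h3
        have h5 : (fun s => S t (S s x)) = fun s => S s (S t x) := by
          funext s
          rw [← h.add, ← h.add, add_comm]
        rw [h5] at h2
        exact (h.deriv_zero (S t x)).unique h2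
      have h2 := h.deriv t x
      rw [h1, h0, map_zero] at h2
      exact h2
    intro t
    have := is_const_of_deriv_eq_zero (fun t => (hc t).differentiableAt)
      (fun t => (hc t).deriv) t 0
    simp only [h.zero] at this
    exact this
  · intro h0
    have h1 := h.deriv_zero x
    have h2 : (fun t => S t x) = fun _ => x := by
      funext t
      exact h0 t
    rw [h2] at h1
    exact h1.unique (hasDerivAt_const (0 : ℝ) x)

/-- the derivative in time of the space derivative -/
theorem Circ.dt_space (h : Circ S) (x v : E) :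
    HasDerivAt (fun t => fderiv ℝ (S t) x v) (fderiv ℝ (gen S) x v) 0 := by
  have hinf : (∞ : WithTop ℕ∞) ≠ 0 := by simp
  have h2inf : (2 : WithTop ℕ∞) ≤ ∞ := WithTop.coe_le_coe.2 (le_top : (2 : ℕ∞) ≤ ⊤)
  set G : ℝ × E → E := fun z => S z.1 z.2 with hG
  have hGs : ContDiff ℝ ∞ G := h.smooth
  have hG1 : ContDiff ℝ ∞ (fderiv ℝ G) := hGs.fderiv_right le_rfl
  have hG1d : Differentiable ℝ (fderiv ℝ G) := hG1.differentiable hinf
  have hin2 : HasDerivAt (fun s : ℝ => ((s, x) : ℝ × E)) ((1 : ℝ), (0 : E)) 0 :=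
    (hasDerivAt_id (0 : ℝ)).prodMk (hasDerivAt_const (0 : ℝ) x)
  have h1 : HasDerivAt (fun s => fderiv ℝ G (s, x)) (fderiv ℝ (fderiv ℝ G) (0, x) (1, 0)) 0 :=
    (hG1d (0, x)).hasFDerivAt.comp_hasDerivAt (0 : ℝ) hin2
  have h2 : HasDerivAt (fun s => fderiv ℝ G (s, x) (0, v))
      (fderiv ℝ (fderiv ℝ G) (0, x) (1, 0) (0, v)) 0 := by
    have h3 := h1.clm_apply (hasDerivAt_const (0 : ℝ) ((0 : ℝ), v))
    simpa using h3
  have h4 : (fun t => fderiv ℝ (S t) x v) = fun s => fderiv ℝ G (s, x) (0, v) := by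
    funext t
    rw [h.space]
    rfl
  rw [h4]
  refine h2.congr_deriv ?_
  have hs : IsSymmSndFDerivAt ℝ G (0, x) :=
    (hGs.contDiffAt).isSymmSndFDerivAt (by simp; exact h2inf)
  rw [hs.eq]
  have h6 : HasFDerivAt (fun y => fderiv ℝ G (0, y))
      ((fderiv ℝ (fderiv ℝ G) (0, x)).comp (ContinuousLinearMap.inr ℝ ℝ E)) x :=
    (hG1d (0, x)).hasFDerivAt.comp x (hasFDerivAt_prodMk_right (0 : ℝ) x)
  have h7 := h6.clm_apply (hasFDerivAt_const ((1 : ℝ), (0 : E)) x)
  have h8 : fderiv ℝ (gen S) x = _ := h7.fderiv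
  rw [h8]
  simp

/-- infinitesimal invariance of an invariant `1`-form -/
theorem Circ.inf_inv (h : Circ S) {a : E → E →L[ℝ] ℝ} (ha : ContDiff ℝ ∞ a)
    (hinv : ∀ t x v, a (S t x) (fderiv ℝ (S t) x v) = a x v) (x v : E) :
    fderiv ℝ a x (gen S x) v + a x (fderiv ℝ (gen S) x v) = 0 := by
  have h1 : HasDerivAt (fun t => a (S t x)) (fderiv ℝ a x (gen S x)) 0 := by
    have h2 : HasFDerivAt a (fderiv ℝ a x) (S 0 x) := by
      rw [h.zero]
      exact (ha.differentiable (by simp) x).hasFDerivAt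
    exact h2.comp_hasDerivAt (0 : ℝ) (h.deriv_zero x)
  have h3 := h1.clm_apply (h.dt_space x v)
  have h4 : (fun t => a (S t x) (fderiv ℝ (S t) x v)) = fun _ => a x v := by
    funext t
    exact hinv t x v
  rw [h4] at h3
  have h5 := h3.unique (hasDerivAt_const (0 : ℝ) (a x v))
  have h0 : S 0 = id := by
    funext y
    exact h.zero y
  have h6 : fderiv ℝ (S 0) x = ContinuousLinearMap.id ℝ E := by
    rw [h0]
    exact fderiv_id
  simp only [h6, h.zero, ContinuousLinearMap.id_apply] at h5
  exact h5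

variable [FiniteDimensional ℝ E] {B : E → E →L[ℝ] E →L[ℝ] ℝ} {B0 : E →L[ℝ] E →L[ℝ] ℝ} {ρ : ℝ}
  {a : E → E →L[ℝ] ℝ}

/-- the moment map -/
noncomputable def mom (S : ℝ → E → E) (a : E → E →L[ℝ] ℝ) (x : E) : ℝ := a x (gen S x)

omit [FiniteDimensional ℝ E] in
theorem mom_smooth (h : Circ S) (ha : ContDiff ℝ ∞ a) : ContDiff ℝ ∞ (mom S a) :=
  ha.clm_apply h.gen_smooth

omit [FiniteDimensional ℝ E] in
theorem mom_deriv (h : Circ S) (hP : Prim B B0 ρ a)
    (hinv : ∀ t x v, a (S t x) (fderiv ℝ (S t) x v) = a x v) (x v : E) :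
    fderiv ℝ (mom S a) x v = -B x (gen S x) v := by
  have h1 := ((hP.smooth.differentiable (by simp)) x).hasFDerivAt.clm_apply
    ((h.gen_smooth.differentiable (by simp)) x).hasFDerivAt
  have h2 : fderiv ℝ (mom S a) x = _ := h1.fderiv
  rw [h2, ← hP.prim]
  have h3 := h.inf_inv hP.smooth hinv x v
  unfold d1
  simp only [add_apply, ContinuousLinearMap.comp_apply,
    ContinuousLinearMap.flip_apply]
  linarith

omit [FiniteDimensional ℝ E] in
/-- the moment map is homogeneous along the Liouville flow -/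
theorem mom_flow (h : Circ S) (hP : Prim B B0 ρ a)
    (hinv : ∀ t x v, a (S t x) (fderiv ℝ (S t) x v) = a x v) {Z : E → E} {Φ : ℝ → E → E}
    (hF : LFlow B ρ a Z Φ) (t : ℝ) (x : E) : mom S a (Φ t x) = Real.exp t * mom S a x := by
  have hanti : ∀ y a b, B y a b = -B y b a := by
    intro y a b
    have h1 := hP.symp.alt y (a + b)
    have h2 := hP.symp.alt y a
    have h3 := hP.symp.alt y b
    simp only [map_add, add_apply] at h1
    linarith
  have hW : ∀ s, HasDerivAt (fun s => Real.exp (-s) * mom S a (Φ s x)) 0 s := by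
    intro s
    have h1 : HasDerivAt (fun s => mom S a (Φ s x)) (fderiv ℝ (mom S a) (Φ s x) (Z (Φ s x))) s :=
      HasFDerivAt.comp_hasDerivAt (l := mom S a) (f := fun s => Φ s x) s
        (((mom_smooth h hP.smooth).differentiable (by simp)) (Φ s x)).hasFDerivAt (hF.deriv s x)
    have h8 : HasDerivAt (fun s : ℝ => Real.exp (-s)) (Real.exp (-s) * (-1)) s :=
      (hasDerivAt_neg s).exp
    refine (h8.mul h1).congr_deriv ?_
    rw [mom_deriv h hP hinv, ← hanti, hF.dual]
    show Real.exp (-s) * -1 * mom S a (Φ s x) + Real.exp (-s) * mom S a (Φ s x) = 0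
    ring
  have hc := is_const_of_deriv_eq_zero (fun s => (hW s).differentiableAt)
    (fun s => (hW s).deriv) t 0
  simp only [hF.zero, neg_zero, Real.exp_zero, one_mul] at hc
  rw [← hc, ← mul_assoc, ← Real.exp_add, add_neg_cancel, Real.exp_zero, one_mul]

/-- the moment map is nonnegative if it is so at infinity, and vanishes only at fixed points -/
theorem mom_nonneg (h : Circ S) (hP : Prim B B0 ρ a)
    (hinv : ∀ t x v, a (S t x) (fderiv ℝ (S t) x v) = a x v)
    (hfar : ∀ x, ρ ≤ ‖x‖ → 0 ≤ mom S a x) (x : E) :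
    0 ≤ mom S a x ∧ (mom S a x = 0 → gen S x = 0) := by
  have : ProperSpace E := FiniteDimensional.proper ℝ E
  have hcont : Continuous (mom S a) := (mom_smooth h hP.smooth).continuous
  have hcrit : ∀ y, IsLocalMin (mom S a) y → gen S y = 0 := by
    intro y hy
    refine hP.symp.nondeg y _ fun v => ?_
    have h1 := hy.fderiv_eq_zero
    have h2 := mom_deriv h hP hinv y v
    rw [h1] at h2
    have h3 : (0 : E →L[ℝ] ℝ) v = 0 := rfl
    rw [h3] at h2
    linarith
  have hnn : ∀ y, 0 ≤ mom S a y := by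
    intro y
    by_contra hy
    rw [not_le] at hy
    obtain ⟨m, hm, hmin⟩ := (isCompact_closedBall (0 : E) (max ρ ‖y‖)).exists_isMinOn
      ⟨y, by rw [mem_closedBall_zero_iff]; exact le_max_right _ _⟩ hcont.continuousOn
    have h1 : mom S a m ≤ mom S a y :=
      hmin (by rw [mem_closedBall_zero_iff]; exact le_max_right _ _)
    have h2 : ∀ z, mom S a m ≤ mom S a z := by
      intro z
      rcases le_or_gt ‖z‖ (max ρ ‖y‖) with hz | hz
      · exact hmin (by rwa [mem_closedBall_zero_iff])
      · have := hfar z ((le_max_left _ _).trans hz.le)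
        linarith
    have h3 := hcrit m (Eventually.of_forall h2)
    have h4 : mom S a m = 0 := by
      unfold mom
      rw [h3, map_zero]
    linarith
  refine ⟨hnn x, fun h0 => hcrit x (Eventually.of_forall fun z => ?_)⟩
  rw [h0]
  exact hnn z

end

end Pool.Agent.Helper37.CA
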