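import Pool.Agent.Helper37.CA.Disp

/-!
# Compact invariant sets of fixed points which attract a ball have a normal function
-/

set_option autoImplicit false

open Set Filter Topology Metric MeasureTheory
open scoped ContDiff NNReal

namespace Pool.Agent.Helper37.CA

open Pool.Agent.Helper91.SY

section
variable {E : Type} [NormedAddCommGroup E] [NormedSpace ℝ E] [FiniteDimensional ℝ E] {S : ℝ → E → E}

/-- near a fixed point at which the linearised generator is `0` the action is trivial -/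
theorem Circ.triv_near (h : Circ S) {p : E} (hp : ∀ t, S t p = p) (hd : fderiv ℝ (gen S) p = 0) :
    ∀ᶠ x in 𝓝 p, gen S x = 0 := by
  have : CompleteSpace E := FiniteDimensional.complete ℝ E
  have hst : HasStrictFDerivAt (boch S p) ((ContinuousLinearEquiv.refl ℝ E : E ≃L[ℝ] E) : E →L[ℝ] E)
      p := by
    have h1 := (h.boch_smooth p).contDiffAt.hasStrictFDerivAt (x := p) (by simp)
    have h2 : fderiv ℝ (boch S p) p = ContinuousLinearMap.id ℝ E := (h.boch_deriv hp).fderiv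
    rw [h2] at h1
    exact h1
  set e := hst.toOpenPartialHomeomorph (boch S p) with he
  have hpe : p ∈ e.source := hst.mem_toOpenPartialHomeomorph_source
  have htube : ∀ᶠ x in 𝓝 p, ∀ t ∈ Icc (0 : ℝ) 1, S t x ∈ e.source := by
    refine isCompact_Icc.eventually_forall_of_forall_eventually fun t _ => ?_
    have h1 : Continuous fun z : E × ℝ => S z.2 z.1 :=
      h.smooth.continuous.comp (continuous_snd.prodMk continuous_fst)
    have h2 : (fun z : E × ℝ => S z.2 z.1) (p, t) ∈ e.source := by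
      show S t p ∈ e.source
      rw [hp]
      exact hpe
    exact h1.continuousAt.preimage_mem_nhds (e.open_source.mem_nhds h2)
  filter_upwards [htube, e.open_source.mem_nhds hpe] with x h1 h3
  have h4 : ∀ t ∈ Icc (0 : ℝ) 1, S t x = x := by
    intro t ht
    refine e.injOn (h1 t ht) h3 ?_
    show boch S p (S t x) = boch S p x
    rw [h.boch_equiv hp, h.iso_fix hp (by rw [hd]; rfl)]
  have h5 : HasDerivWithinAt (fun t => S t x) (gen S x) (Icc 0 1) 0 :=
    (h.deriv_zero _).hasDerivWithinAt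
  have h6 : HasDerivWithinAt (fun t => S t x) 0 (Icc 0 1) 0 :=
    (hasDerivWithinAt_const (0 : ℝ) (Icc 0 1) x).congr h4 (h4 0 ⟨le_rfl, zero_le_one⟩)
  exact UniqueDiffWithinAt.eq_deriv (Icc (0 : ℝ) 1)
    (uniqueDiffOn_Icc zero_lt_one 0 ⟨le_rfl, zero_le_one⟩) h5 h6

/-- the linearised generator of a nontrivial action is never `0` at a fixed point -/
theorem Circ.never (h : Circ S) (hne : ∃ x, gen S x ≠ 0) {p : E} (hp : gen S p = 0) :
    fderiv ℝ (gen S) p ≠ 0 := by
  intro hd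
  set U : Set E := {x | ∀ᶠ y in 𝓝 x, gen S y = 0} with hU
  have hUo : IsOpen U := isOpen_setOfPred_eventually_nhds
  have hgc : Continuous (gen S) := h.gen_smooth.continuous
  have hdc : Continuous (fderiv ℝ (gen S)) := h.gen_smooth.continuous_fderiv (by simp)
  have hUc : IsClosed U := by
    rw [← closure_subset_iff_isClosed]
    intro x hx
    have h1 : gen S x = 0 := by
      have h2 : closure U ⊆ {x | gen S x = 0} :=
        closure_minimal (fun y hy => (show ∀ᶠ z in 𝓝 y, gen S z = 0 from hy).self_of_nhds)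
          (isClosed_eq hgc continuous_const)
      exact h2 hx
    have h3 : fderiv ℝ (gen S) x = 0 := by
      have h2 : closure U ⊆ {x | fderiv ℝ (gen S) x = 0} := by
        refine closure_minimal (fun y hy => ?_) (isClosed_eq hdc continuous_const)
        have h4 : gen S =ᶠ[𝓝 y] fun _ => 0 := hy
        show fderiv ℝ (gen S) y = 0
        rw [h4.fderiv_eq]
        simp
      exact h2 hx
    exact h.triv_near ((h.fix_iff x).1 h1) h3
  have hpU : p ∈ U := h.triv_near ((h.fix_iff p).1 hp) hd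
  have huniv : U = univ := IsClopen.eq_univ ⟨hUc, hUo⟩ ⟨p, hpU⟩
  obtain ⟨x, hx⟩ := hne
  have hxU : x ∈ U := by
    rw [huniv]
    trivial
  exact hx (show ∀ᶠ z in 𝓝 x, gen S z = 0 from hxU).self_of_nhds

/-- the centre of the orbit -/
noncomputable def ctr (S : ℝ → E → E) (x : E) : E := ∫ t in (0 : ℝ)..1, S t x

theorem Circ.ctr_smooth (h : Circ S) : ContDiff ℝ ∞ (ctr S) :=
  par_smooth (G := fun z : ℝ × E => S z.1 z.2) h.smooth

omit [FiniteDimensional ℝ E] in
theorem ctr_fix [CompleteSpace E] {p : E} (hp : ∀ t, S t p = p) : ctr S p = p := by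
  unfold ctr
  simp [hp]

theorem Circ.ctr_fderiv (h : Circ S) (x w : E) :
    fderiv ℝ (ctr S) x w = ∫ t in (0 : ℝ)..1, fderiv ℝ (S t) x w := by
  have : CompleteSpace E := FiniteDimensional.complete ℝ E
  have h1 : HasFDerivAt (ctr S) (∫ t in (0 : ℝ)..1, (fderiv ℝ (fun z : ℝ × E => S z.1 z.2)
      (t, x)).comp (ContinuousLinearMap.inr ℝ ℝ E)) x :=
    par_deriv (G := fun z : ℝ × E => S z.1 z.2) h.smooth x
  have h2 : Continuous fun t : ℝ => (fderiv ℝ (fun z : ℝ × E => S z.1 z.2)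
      (t, x)).comp (ContinuousLinearMap.inr ℝ ℝ E) :=
    ((h.smooth.continuous_fderiv (by simp)).comp
      (by fun_prop : Continuous fun t : ℝ => (t, x))).clm_comp continuous_const
  rw [h1.fderiv, ContinuousLinearMap.intervalIntegral_apply (h2.intervalIntegrable 0 1)]
  refine intervalIntegral.integral_congr fun t _ => ?_
  show _ = fderiv ℝ (S t) x w
  rw [h.space]

/-- the projection to the nontrivial part of the isotropy representation -/
noncomputable def prj (S : ℝ → E → E) (x : E) : E →L[ℝ] E :=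
  ContinuousLinearMap.id ℝ E - fderiv ℝ (ctr S) x

theorem Circ.prj_smooth (h : Circ S) : ContDiff ℝ ∞ (prj S) :=
  contDiff_const.sub (h.ctr_smooth.fderiv_right le_rfl)

theorem Circ.prj_idem (h : Circ S) {p : E} (hp : ∀ t, S t p = p) (w : E) :
    prj S p (prj S p w) = prj S p w := by
  have hQ : fderiv ℝ (ctr S) p (fderiv ℝ (ctr S) p w) = fderiv ℝ (ctr S) p w := by
    have h1 : ∀ t, fderiv ℝ (S t) p (fderiv ℝ (ctr S) p w) = fderiv ℝ (ctr S) p w := by
      intro t
      refine h.iso_fix hp ?_ t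
      rw [h.ctr_fderiv]
      exact h.avg_vec hp w
    rw [h.ctr_fderiv p (fderiv ℝ (ctr S) p w), intervalIntegral.integral_congr fun t _ => h1 t,
      intervalIntegral.integral_const]
    simp
  unfold prj
  simp only [sub_apply, ContinuousLinearMap.id_apply, map_sub]
  rw [hQ]
  abel

theorem Circ.prj_ne (h : Circ S) {p : E} (hp : ∀ t, S t p = p) (hd : fderiv ℝ (gen S) p ≠ 0) :
    prj S p ≠ 0 := by
  intro h0
  apply hd
  ext w
  have h1 : prj S p w = 0 := by
    rw [h0]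
    rfl
  have h2 : w = fderiv ℝ (ctr S) p w := by
    unfold prj at h1
    simp only [sub_apply, ContinuousLinearMap.id_apply] at h1
    exact sub_eq_zero.1 h1
  rw [h2, h.ctr_fderiv]
  exact h.avg_vec hp w

omit [FiniteDimensional ℝ E] in
theorem norm_idem {A : E →L[ℝ] E} (hA : A.comp A = A) (h0 : A ≠ 0) : 1 ≤ ‖A‖ := by
  have h1 : 0 < ‖A‖ := norm_pos_iff.2 h0
  have h2 : ‖A‖ ≤ ‖A‖ * ‖A‖ := by
    calc ‖A‖ = ‖A.comp A‖ := by rw [hA]
      _ ≤ ‖A‖ * ‖A‖ := ContinuousLinearMap.opNorm_comp_le _ _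
  by_contra h3
  rw [not_le] at h3
  nlinarith

/-- the product of slowly varying almost projections -/
noncomputable def nuk (lam : E →L[ℝ] ℝ) (c : ℕ → E → E →L[ℝ] E) : ℕ → E → E →L[ℝ] ℝ
  | 0, _ => lam
  | k + 1, x => (nuk lam c k x).comp (c (k + 1) x)

omit [FiniteDimensional ℝ E] in
theorem nuk_smooth {lam : E →L[ℝ] ℝ} {c : ℕ → E → E →L[ℝ] E} (hc : ∀ k, ContDiff ℝ ∞ (c k)) (k : ℕ) :
    ContDiff ℝ ∞ (nuk lam c k) := by
  induction k with
  | zero => exact contDiff_const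
  | succ k ih => exact ih.clm_comp (hc (k + 1))

omit [FiniteDimensional ℝ E] in
theorem nuk_ne {lam : E →L[ℝ] ℝ} {c : ℕ → E → E →L[ℝ] E} {m : ℕ} {x : E}
    (h1 : ∀ k, k ≤ m → ‖(c k x).comp (c k x) - c k x‖ ≤ 1 / 8)
    (h2 : ∀ k, k < m → ‖c (k + 1) x - c k x‖ ≤ 1 / 4) (h3 : lam ≠ 0)
    (h4 : ‖lam.comp (c 0 x) - lam‖ ≤ 1 / 4 * ‖lam‖) (k : ℕ) (hk : k ≤ m) :
    nuk lam c k x ≠ 0 ∧
      ‖(nuk lam c k x).comp (c k x) - nuk lam c k x‖ ≤ 1 / 4 * ‖nuk lam c k x‖ := by
  induction k with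
  | zero => exact ⟨h3, h4⟩
  | succ k ih =>
    obtain ⟨h5, h6⟩ := ih (by omega)
    have h7 : 0 < ‖nuk lam c k x‖ := norm_pos_iff.2 h5
    set ν := nuk lam c k x with hν
    have h8 : nuk lam c (k + 1) x = ν.comp (c (k + 1) x) := rfl
    have h9 : ‖ν.comp (c (k + 1) x) - ν‖ ≤ 1 / 2 * ‖ν‖ := by
      have h10 : ν.comp (c (k + 1) x) - ν = ν.comp (c (k + 1) x - c k x) + (ν.comp (c k x) - ν) := by
        rw [ContinuousLinearMap.comp_sub]
        abel
      rw [h10]
      refine (norm_add_le _ _).trans ?_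
      have h11 := ContinuousLinearMap.opNorm_comp_le ν (c (k + 1) x - c k x)
      have h12 := h2 k (by omega)
      have h13 : ‖ν‖ * ‖c (k + 1) x - c k x‖ ≤ ‖ν‖ * (1 / 4) :=
        mul_le_mul_of_nonneg_left h12 h7.le
      linarith
    have h14 : 1 / 2 * ‖ν‖ ≤ ‖ν.comp (c (k + 1) x)‖ := by
      have h15 := norm_sub_norm_le ν (ν.comp (c (k + 1) x))
      rw [norm_sub_rev] at h15
      linarith
    rw [h8]
    constructor
    · rw [← norm_pos_iff]
      linarith
    · have h16 : (ν.comp (c (k + 1) x)).comp (c (k + 1) x) - ν.comp (c (k + 1) x) =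
          ν.comp ((c (k + 1) x).comp (c (k + 1) x) - c (k + 1) x) := by
        rw [ContinuousLinearMap.comp_sub]
        rfl
      rw [h16]
      have h17 := ContinuousLinearMap.opNorm_comp_le ν
        ((c (k + 1) x).comp (c (k + 1) x) - c (k + 1) x)
      have h18 := mul_le_mul_of_nonneg_left (h1 (k + 1) hk) h7.le
      linarith

omit [FiniteDimensional ℝ E] in
/-- a projection-valued map has a nonzero section of the dual over a compact set which is invariant under
the flow `Φ` in positive time and attracts a ball in negative time -/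
theorem exists_nu {P : E → E →L[ℝ] E} (hPs : ContDiff ℝ ∞ P) {Φ : ℝ → E → E}
    (hΦ : ∀ t, ContDiff ℝ ∞ (Φ t)) (hinv : ∀ t x, Φ (-t) (Φ t x) = x) {K : Set E}
    (hK : IsCompact K) (hidem : ∀ q ∈ K, (P q).comp (P q) = P q) (hPne : ∀ q ∈ K, P q ≠ 0)
    (hKΦ : ∀ t, 0 ≤ t → ∀ x ∈ K, Φ t x ∈ K) {L : ℝ} (hKL : ∀ x ∈ K, ‖x‖ ≤ L)
    (hatt : ∀ N : Set E, IsOpen N → K ⊆ N → ∃ T, 0 ≤ T ∧ ∀ x, ‖x‖ ≤ L → Φ (-T) x ∈ N) :
    ∃ ν : E → E →L[ℝ] ℝ, ContDiff ℝ ∞ ν ∧ ∀ q ∈ K, ν q ≠ 0 ∧ (ν q).comp (P q) = ν q := by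
  rcases K.eq_empty_or_nonempty with hKe | ⟨q₀, hq₀⟩
  · exact ⟨fun _ => 0, contDiff_const, fun x hx => by
      rw [hKe] at hx
      exact absurd hx (notMem_empty x)⟩
  have hL0 : 0 ≤ L := (norm_nonneg q₀).trans (hKL q₀ hq₀)
  have hPc : Continuous P := hPs.continuous
  have hPP : Continuous fun x => (P x).comp (P x) := hPc.clm_comp hPc
  set N : Set E := {y | ‖(P y).comp (P y) - P y‖ < 1 / 8} ∩ {y | 1 / 2 < ‖P y‖} with hN
  have hNo : IsOpen N := (isOpen_lt (hPP.sub hPc).norm continuous_const).inter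
    (isOpen_lt continuous_const hPc.norm)
  have hKN : K ⊆ N := by
    intro q hq
    constructor
    · show ‖(P q).comp (P q) - P q‖ < 1 / 8
      rw [hidem q hq, sub_self, norm_zero]
      norm_num
    · have h1 := norm_idem (hidem q hq) (hPne q hq)
      show 1 / 2 < ‖P q‖
      linarith
  obtain ⟨T, hT0, hT⟩ := hatt N hNo hKN
  -- the homotopy
  set c' : ℝ → E → E →L[ℝ] E := fun s x => P (Φ (-T) (s • Φ T x)) with hc'
  have hc's : ∀ s, ContDiff ℝ ∞ (c' s) := by
    intro s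
    exact hPs.comp ((hΦ (-T)).comp ((hΦ T).const_smul s))
  have hc'c : Continuous fun z : ℝ × E => c' z.1 z.2 := by
    have h1 : Continuous fun z : ℝ × E => z.1 • Φ T z.2 :=
      continuous_fst.smul ((hΦ T).continuous.comp continuous_snd)
    exact hPc.comp ((hΦ (-T)).continuous.comp h1)
  have hc'N : ∀ s ∈ Icc (0 : ℝ) 1, ∀ x ∈ K, Φ (-T) (s • Φ T x) ∈ N := by
    intro s hs x hx
    refine hT _ ?_
    rw [norm_smul, Real.norm_of_nonneg hs.1]
    have h1 := hKL _ (hKΦ T hT0 x hx)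
    have h2 : s * ‖Φ T x‖ ≤ 1 * ‖Φ T x‖ := mul_le_mul_of_nonneg_right hs.2 (norm_nonneg _)
    linarith
  have hcomp : IsCompact ((Icc (0 : ℝ) 1) ×ˢ K) := isCompact_Icc.prod hK
  obtain ⟨δ, hδ, hδc⟩ := Metric.uniformContinuousOn_iff.1
    (hcomp.uniformContinuousOn_of_continuous hc'c.continuousOn) (1 / 4) (by norm_num)
  obtain ⟨m, hm⟩ := exists_nat_gt (1 / δ)
  have hm0 : (0 : ℝ) < m := lt_trans (by positivity) hm
  have hm1 : 1 / (m : ℝ) < δ := by
    rw [div_lt_iff₀ hm0]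
    rw [div_lt_iff₀ hδ] at hm
    linarith
  set c : ℕ → E → E →L[ℝ] E := fun k x => c' ((k : ℝ) / m) x with hc
  have hk01 : ∀ k : ℕ, k ≤ m → (k : ℝ) / m ∈ Icc (0 : ℝ) 1 := by
    intro k hk
    refine ⟨by positivity, ?_⟩
    rw [div_le_one hm0]
    exact_mod_cast hk
  -- the first functional
  have hy : Φ (-T) 0 ∈ N := hT 0 (by rw [norm_zero]; exact hL0)
  obtain ⟨lam, hlam, hlam'⟩ : ∃ lam : E →L[ℝ] ℝ, lam ≠ 0 ∧
      ‖lam.comp (P (Φ (-T) 0)) - lam‖ ≤ 1 / 4 * ‖lam‖ := by
    set A := P (Φ (-T) 0) with hA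
    have h1 : 1 / 2 < ‖A‖ := hy.2
    obtain ⟨v, hv⟩ : ∃ v, 1 / 2 * ‖v‖ < ‖A v‖ := by
      by_contra hcon
      push Not at hcon
      have := A.opNorm_le_bound (by norm_num) hcon
      linarith
    have hAv : A v ≠ 0 := by
      intro h0
      rw [h0, norm_zero] at hv
      nlinarith [norm_nonneg v]
    obtain ⟨μ, hμ1, hμ2⟩ := exists_dual_vector ℝ _ (norm_ne_zero_iff.2 hAv)
    have hv0 : 0 < ‖v‖ := by
      rw [norm_pos_iff]
      intro h0
      rw [h0, map_zero] at hAv
      exact hAv rfl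
    have h2 : 1 / 2 ≤ ‖μ.comp A‖ := by
      have h3 := (μ.comp A).le_opNorm v
      have h4 : (μ.comp A) v = ‖A v‖ := hμ2
      rw [h4, Real.norm_of_nonneg (norm_nonneg _)] at h3
      by_contra h5
      rw [not_le] at h5
      nlinarith
    refine ⟨μ.comp A, ?_, ?_⟩
    · rw [← norm_pos_iff]
      linarith
    · have h5 : (μ.comp A).comp A - μ.comp A = μ.comp (A.comp A - A) := by
        rw [ContinuousLinearMap.comp_sub]
        rfl
      rw [h5]
      have h6 := ContinuousLinearMap.opNorm_comp_le μ (A.comp A - A)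
      rw [hμ1, one_mul] at h6
      have h7 : ‖A.comp A - A‖ < 1 / 8 := hy.1
      linarith
  have hcs : ∀ k, ContDiff ℝ ∞ (c k) := fun k => hc's _
  set ν : E → E →L[ℝ] ℝ := nuk lam c m with hν
  have hνs : ContDiff ℝ ∞ ν := nuk_smooth hcs m
  have hν0 : ∀ q ∈ K, ν q ≠ 0 := by
    intro q hq
    refine (nuk_ne (lam := lam) (c := c) (m := m) (x := q) ?_ ?_ hlam ?_ m le_rfl).1
    · intro k hk
      have h1 := (hc'N _ (hk01 k hk) q hq).1
      exact le_of_lt h1
    · intro k hk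
      have h1 := hδc ((((k + 1 : ℕ) : ℝ)) / m, q) ⟨hk01 (k + 1) hk, hq⟩ ((k : ℝ) / m, q)
        ⟨hk01 k hk.le, hq⟩ (by
          rw [Prod.dist_eq, dist_self, max_lt_iff]
          refine ⟨?_, hδ⟩
          show dist (((k + 1 : ℕ) : ℝ) / m) ((k : ℝ) / m) < δ
          rw [Real.dist_eq]
          have h2 : ((k + 1 : ℕ) : ℝ) / m - (k : ℝ) / m = 1 / m := by
            push_cast
            field_simp
            ring
          rw [h2, abs_of_pos (by positivity)]
          exact hm1)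
      rw [dist_eq_norm] at h1
      exact le_of_lt h1
    · show ‖lam.comp (P (Φ (-T) ((((0 : ℕ) : ℝ) / m) • Φ T q))) - lam‖ ≤ _
      rw [Nat.cast_zero, zero_div, zero_smul]
      exact hlam'
  refine ⟨ν, hνs, fun q hq => ⟨hν0 q hq, ?_⟩⟩
  have hmpos : 0 < m := by exact_mod_cast hm0
  obtain ⟨k, rfl⟩ : ∃ k, m = k + 1 := ⟨m - 1, by omega⟩
  have h1 : c (k + 1) q = P q := by
    show P (Φ (-T) ((((k + 1 : ℕ) : ℝ) / ((k + 1 : ℕ) : ℝ)) • Φ T q)) = P q
    rw [div_self (by exact_mod_cast Nat.succ_ne_zero k), one_smul, hinv]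
  have h2 : ν q = (nuk lam c k q).comp (P q) := by
    show (nuk lam c k q).comp (c (k + 1) q) = _
    rw [h1]
  rw [h2, ContinuousLinearMap.comp_assoc, hidem q hq]

/-- a compact set which is invariant under the flow `Φ` in positive time, attracts a ball in negative time
and is symplectically nondegenerate (`c` is the identity on it, with a self-adjoint projection `≠ id` as
derivative) is displaced by a small Hamiltonian diffeomorphism -/
theorem core_displaced {B : E → E →L[ℝ] E →L[ℝ] ℝ} (hB : Symp B) {Φ : ℝ → E → E}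
    (hΦ : ∀ t, ContDiff ℝ ∞ (Φ t)) (hinv : ∀ t x, Φ (-t) (Φ t x) = x) {K : Set E}
    (hK : IsCompact K) {c : E → E} (hc : ContDiff ℝ ∞ c) (hcK : ∀ q ∈ K, c q = q)
    (hidem : ∀ q ∈ K, ∀ v, fderiv ℝ c q (fderiv ℝ c q v) = fderiv ℝ c q v)
    (hne : ∀ q ∈ K, ∃ v, fderiv ℝ c q v ≠ v)
    (hadj : ∀ q ∈ K, ∀ u v, B q (fderiv ℝ c q u) v = B q u (fderiv ℝ c q v))
    (hKΦ : ∀ t, 0 ≤ t → ∀ x ∈ K, Φ t x ∈ K) {L : ℝ} (hKL : ∀ x ∈ K, ‖x‖ ≤ L)
    (hatt : ∀ N : Set E, IsOpen N → K ⊆ N → ∃ T, 0 ≤ T ∧ ∀ x, ‖x‖ ≤ L → Φ (-T) x ∈ N) :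
    ∃ g : E → E, ContDiff ℝ ∞ g ∧ Function.Injective g ∧ Pull g B B ∧ ∀ x ∈ K, g x ∉ K := by
  set P : E → E →L[ℝ] E := fun x => ContinuousLinearMap.id ℝ E - fderiv ℝ c x with hP
  have hPs : ContDiff ℝ ∞ P := contDiff_const.sub (hc.fderiv_right le_rfl)
  have hPa : ∀ x v, P x v = v - fderiv ℝ c x v := fun x v => rfl
  have hGd : ∀ x, HasFDerivAt (fun x => x - c x) (P x) x := fun x =>
    (hasFDerivAt_id x).sub ((hc.differentiable (by simp) x).hasFDerivAt)
  obtain ⟨ν, hν, hνK⟩ := exists_nu hPs hΦ hinv hK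
    (by
      intro q hq
      ext v
      show P q (P q v) = P q v
      simp only [hPa, map_sub]
      rw [hidem q hq]
      abel)
    (by
      intro q hq h0
      obtain ⟨v, hv⟩ := hne q hq
      apply hv
      have h1 : P q v = 0 := by
        rw [h0]
        rfl
      rw [hPa, sub_eq_zero] at h1
      exact h1.symm) hKΦ hKL hatt
  have hG : ContDiff ℝ ∞ (fun x : E => x - c x) := contDiff_id.sub hc
  refine ham_displace hB hK hG (fun x hx => by rw [hcK x hx, sub_self])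
    (hν.clm_apply hG) fun p hp v hv => ?_
  have h1 : ∀ w, fderiv ℝ (fun x => ν x (x - c x)) p w = ν p w := by
    intro w
    have h2 := ((hν.differentiable (by simp)) p).hasFDerivAt.clm_apply (hGd p)
    rw [h2.fderiv]
    simp only [ContinuousLinearMap.comp_apply, hcK p hp, sub_self, map_zero, add_zero]
    exact congrArg (fun L : E →L[ℝ] ℝ => L w) (hνK p hp).2
  have h2 : ∀ w, B p v w = ν p w := fun w => (hv w).trans (h1 w)
  rw [(hGd p).fderiv]
  -- `P v = v`
  have h3 : P p v - v = 0 := by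
    refine hB.nondeg p _ fun w => ?_
    rw [map_sub, sub_apply, h2, hPa, map_sub, sub_apply, hadj p hp, h2, h2]
    have h4 : ν p w - ν p (fderiv ℝ c p w) = ν p (P p w) := by
      rw [hPa, map_sub]
    rw [h4, show ν p (P p w) = ν p w from congrArg (fun L : E →L[ℝ] ℝ => L w) (hνK p hp).2,
      sub_self]
  intro h4
  rw [h4, zero_sub, neg_eq_zero] at h3
  apply (hνK p hp).1
  ext w
  rw [← h2, h3, map_zero]

/-- the centre map of a nontrivial symplectic circle action satisfies the hypotheses of `core_displaced` -/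
theorem Circ.core (h : Circ S) (hne : ∃ x, gen S x ≠ 0) {B : E → E →L[ℝ] E →L[ℝ] ℝ}
    (hpull : ∀ t, Pull (S t) B B) {q : E} (hq : gen S q = 0) :
    ctr S q = q ∧ (∀ v, fderiv ℝ (ctr S) q (fderiv ℝ (ctr S) q v) = fderiv ℝ (ctr S) q v) ∧
      (∃ v, fderiv ℝ (ctr S) q v ≠ v) ∧
      ∀ u v, B q (fderiv ℝ (ctr S) q u) v = B q u (fderiv ℝ (ctr S) q v) := by
  have : CompleteSpace E := FiniteDimensional.complete ℝ E
  have hf := (h.fix_iff q).1 hq
  refine ⟨ctr_fix hf, fun v => ?_, ?_, fun u v => ?_⟩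
  · have h1 := h.prj_idem hf v
    have hPa : ∀ v, prj S q v = v - fderiv ℝ (ctr S) q v := fun v => rfl
    simp only [hPa, map_sub] at h1
    have h2 : v - fderiv ℝ (ctr S) q v - (fderiv ℝ (ctr S) q v - fderiv ℝ (ctr S) q
      (fderiv ℝ (ctr S) q v)) - (v - fderiv ℝ (ctr S) q v) = 0 := by
      rw [h1, sub_self]
    have h3 : fderiv ℝ (ctr S) q (fderiv ℝ (ctr S) q v) - fderiv ℝ (ctr S) q v = 0 := by
      rw [← h2]
      abel
    exact sub_eq_zero.1 h3
  · by_contra hcon
    push Not at hcon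
    apply h.prj_ne hf (h.never hne hq)
    ext v
    show v - fderiv ℝ (ctr S) q v = 0
    rw [hcon, sub_self]
  · have hcont : ∀ w, Continuous fun t : ℝ => fderiv ℝ (S t) q w := by
      intro w
      have h1 : (fun t : ℝ => fderiv ℝ (S t) q w) = fun t =>
          (fderiv ℝ (fun z : ℝ × E => S z.1 z.2) (t, q)) (0, w) := by
        funext t
        rw [h.space]
        simp
      rw [h1]
      exact ((h.smooth.continuous_fderiv (by simp)).comp
        (by fun_prop : Continuous fun t : ℝ => (t, q))).clm_apply continuous_const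
    have h1 : B q (fderiv ℝ (ctr S) q u) v = ∫ t in (0 : ℝ)..1, B q (fderiv ℝ (S t) q u) v := by
      rw [h.ctr_fderiv]
      exact (ContinuousLinearMap.intervalIntegral_comp_comm ((B q).flip v)
        ((hcont u).intervalIntegrable 0 1)).symm
    have h2 : B q u (fderiv ℝ (ctr S) q v) = ∫ t in (0 : ℝ)..1, B q u (fderiv ℝ (S t) q v) := by
      rw [h.ctr_fderiv]
      exact (ContinuousLinearMap.intervalIntegral_comp_comm (B q u)
        ((hcont v).intervalIntegrable 0 1)).symm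
    have h3 : ∀ t, B q (fderiv ℝ (S t) q u) v = B q u (fderiv ℝ (S (1 - t)) q v) := by
      intro t
      have h4 := hpull t q u (fderiv ℝ (S (1 - t)) q v)
      rw [hf] at h4
      rw [← h4]
      have h5 := h.iso_add hf t (1 - t)
      rw [add_sub_cancel, h.iso_one] at h5
      have h6 := congrArg (fun L : E →L[ℝ] E => L v) h5
      have h7 : v = fderiv ℝ (S t) q (fderiv ℝ (S (1 - t)) q v) := h6
      rw [← h7]
    rw [h1, h2]
    calc ∫ t in (0 : ℝ)..1, B q (fderiv ℝ (S t) q u) v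
        = ∫ t in (0 : ℝ)..1, B q u (fderiv ℝ (S (1 - t)) q v) :=
          intervalIntegral.integral_congr fun t _ => h3 t
      _ = ∫ t in (1 - 1 : ℝ)..(1 - 0), B q u (fderiv ℝ (S t) q v) :=
          intervalIntegral.integral_comp_sub_left (fun t => B q u (fderiv ℝ (S t) q v)) 1
      _ = ∫ t in (0 : ℝ)..1, B q u (fderiv ℝ (S t) q v) := by rw [sub_self, sub_zero]

end

end Pool.Agent.Helper37.CA
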