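import Pool.Agent.Helper37.CA.Liou

/-!
# The skeleton of a Liouville flow which is standard at infinity
-/

set_option autoImplicit false

open Set Filter Topology Metric
open scoped ContDiff NNReal

namespace Pool.Agent.Helper37.CA

open Pool.Agent.Helper91.SY

section
variable {E : Type} [NormedAddCommGroup E] [NormedSpace ℝ E] [FiniteDimensional ℝ E]
  {B : E → E →L[ℝ] E →L[ℝ] ℝ} {ρ : ℝ} {a : E → E →L[ℝ] ℝ} {Z : E → E} {Φ : ℝ → E → E}

omit [FiniteDimensional ℝ E] in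
theorem LFlow.cont (h : LFlow B ρ a Z Φ) (t : ℝ) : Continuous (Φ t) :=
  h.smooth.continuous.comp (by fun_prop : Continuous fun x : E => (t, x))

omit [FiniteDimensional ℝ E] in
theorem LFlow.sm (h : LFlow B ρ a Z Φ) (t : ℝ) : ContDiff ℝ ∞ (Φ t) :=
  h.smooth.comp (contDiff_const.prodMk contDiff_id)

omit [FiniteDimensional ℝ E] in
theorem LFlow.neg_self (h : LFlow B ρ a Z Φ) (t : ℝ) (x : E) : Φ (-t) (Φ t x) = x := by
  rw [← h.add, neg_add_cancel, h.zero]

omit [FiniteDimensional ℝ E] in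
theorem LFlow.self_neg (h : LFlow B ρ a Z Φ) (t : ℝ) (x : E) : Φ t (Φ (-t) x) = x := by
  rw [← h.add, add_neg_cancel, h.zero]

omit [FiniteDimensional ℝ E] in
/-- balls are invariant backwards -/
theorem LFlow.neg_ball (h : LFlow B ρ a Z Φ) {L : ℝ} (hL : ρ ≤ L) {t : ℝ} (ht : 0 ≤ t)
    {x : E} (hx : ‖x‖ ≤ L) : ‖Φ (-t) x‖ ≤ L := by
  by_contra hn
  rw [not_le] at hn
  have h1 := h.far t (Φ (-t) x) ht (hL.trans hn.le)
  rw [h.self_neg] at h1
  have h2 : ‖x‖ = Real.exp (t / 2) * ‖Φ (-t) x‖ := by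
    conv_lhs => rw [h1]
    rw [norm_smul, Real.norm_of_nonneg (Real.exp_pos _).le]
  have h3 : 1 ≤ Real.exp (t / 2) := Real.one_le_exp (by positivity)
  nlinarith [norm_nonneg (Φ (-t) x)]

/-- the skeleton: the points whose forward orbit stays in the ball -/
def skel (Φ : ℝ → E → E) (L : ℝ) : Set E := {x | ∀ t : ℝ, 0 ≤ t → ‖Φ t x‖ ≤ L}

omit [FiniteDimensional ℝ E] in
theorem LFlow.skel_ball (h : LFlow B ρ a Z Φ) {L : ℝ} {x : E} (hx : x ∈ skel Φ L) : ‖x‖ ≤ L := by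
  have := hx 0 le_rfl
  rwa [h.zero] at this

theorem LFlow.skel_compact (h : LFlow B ρ a Z Φ) (L : ℝ) : IsCompact (skel Φ L) := by
  have : ProperSpace E := FiniteDimensional.proper ℝ E
  refine (isCompact_closedBall (0 : E) L).of_isClosed_subset ?_ ?_
  · have h1 : skel Φ L = ⋂ t : ℝ, ⋂ _ : 0 ≤ t, {x | ‖Φ t x‖ ≤ L} := by
      ext x
      simp [skel]
    rw [h1]
    exact isClosed_iInter fun t => isClosed_iInter fun _ =>
      isClosed_le (h.cont t).norm continuous_const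
  · intro x hx
    rw [mem_closedBall_zero_iff]
    exact h.skel_ball hx

/-- the skeleton attracts the ball backwards -/
theorem LFlow.skel_att (h : LFlow B ρ a Z Φ) {L : ℝ} (hL : ρ ≤ L) {N : Set E} (hN : IsOpen N)
    (hKN : skel Φ L ⊆ N) : ∃ T : ℝ, ∀ t, T ≤ t → ∀ x, ‖x‖ ≤ L → Φ (-t) x ∈ N := by
  have : ProperSpace E := FiniteDimensional.proper ℝ E
  set C : ℕ → Set E := fun j => {x | ‖Φ j x‖ ≤ L} with hC
  have hanti : Antitone C := by
    refine antitone_nat_of_succ_le fun j x hx => ?_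
    have hx' : ‖Φ ((j + 1 : ℕ) : ℝ) x‖ ≤ L := hx
    have h1 : Φ (j : ℝ) x = Φ (-1) (Φ ((j + 1 : ℕ) : ℝ) x) := by
      rw [← h.add]
      congr 1
      push_cast
      ring
    show ‖Φ (j : ℝ) x‖ ≤ L
    rw [h1]
    exact h.neg_ball hL zero_le_one hx'
  have hcl : ∀ j, IsClosed (C j) := fun j => isClosed_le (h.cont _).norm continuous_const
  have hcpt : ∀ j, IsCompact (C j) := by
    intro j
    refine (isCompact_closedBall (0 : E) L).of_isClosed_subset (hcl j) ?_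
    intro x hx
    have hx' : ‖Φ (j : ℝ) x‖ ≤ L := hx
    rw [mem_closedBall_zero_iff]
    have := h.neg_ball hL (Nat.cast_nonneg j) hx'
    rwa [h.neg_self] at this
  have hint : ⋂ j, C j ⊆ N := by
    intro x hx
    refine hKN fun t ht => ?_
    obtain ⟨j, hj⟩ := exists_nat_ge t
    have h1 : ‖Φ (j : ℝ) x‖ ≤ L := mem_iInter.1 hx j
    have h2 : Φ t x = Φ (-(j - t)) (Φ (j : ℝ) x) := by
      rw [← h.add]
      congr 1
      ring
    rw [h2]
    exact h.neg_ball hL (by linarith) h1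
  obtain ⟨j, hj⟩ := exists_subset_nhds_of_isCompact' (V := C)
    (hanti.directed_ge) hcpt hcl (fun x hx => hN.mem_nhds (hint hx))
  refine ⟨j, fun t ht x hx => hj ?_⟩
  show ‖Φ (j : ℝ) (Φ (-t) x)‖ ≤ L
  rw [← h.add, show (j : ℝ) + -t = -(t - j) by ring]
  exact h.neg_ball hL (by linarith) hx

/-- a homogeneous function vanishes on the skeleton -/
theorem LFlow.skel_zero (h : LFlow B ρ a Z Φ) {L : ℝ} {H : E → ℝ} (hH : Continuous H)
    (hs : ∀ t x, H (Φ t x) = Real.exp t * H x) {x : E} (hx : x ∈ skel Φ L) : H x = 0 := by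
  have : ProperSpace E := FiniteDimensional.proper ℝ E
  obtain ⟨M, hM⟩ := (isCompact_closedBall (0 : E) L).exists_bound_of_continuousOn hH.continuousOn
  have h1 : ∀ n : ℕ, ‖H x‖ ≤ Real.exp (-(n : ℝ)) * M := by
    intro n
    have h2 := hM (Φ (n : ℝ) x) (by
      rw [mem_closedBall_zero_iff]
      exact hx n (Nat.cast_nonneg n))
    rw [hs, norm_mul, Real.norm_of_nonneg (Real.exp_pos _).le] at h2
    have h3 : Real.exp (-(n : ℝ)) * (Real.exp (n : ℝ) * ‖H x‖) ≤ Real.exp (-(n : ℝ)) * M :=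
      mul_le_mul_of_nonneg_left h2 (Real.exp_pos _).le
    rwa [← mul_assoc, ← Real.exp_add, neg_add_cancel, Real.exp_zero, one_mul] at h3
  have h4 : Tendsto (fun n : ℕ => Real.exp (-(n : ℝ)) * M) atTop (𝓝 (0 * M)) :=
    (Real.tendsto_exp_neg_atTop_nhds_zero.comp tendsto_natCast_atTop_atTop).mul_const M
  rw [zero_mul] at h4
  have h5 : ‖H x‖ ≤ 0 := ge_of_tendsto' h4 h1
  exact norm_le_zero_iff.1 h5

end

end Pool.Agent.Helper37.CA
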