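import Pool.Agent.Helper37.CA.Mom

/-!
# The isotropy representation and the linearising map at a fixed point of a circle action
-/

set_option autoImplicit false

open Set Filter Topology Metric MeasureTheory
open scoped ContDiff NNReal

namespace Pool.Agent.Helper37.CA

open Pool.Agent.Helper91.SY

section
variable {E : Type} [NormedAddCommGroup E] [NormedSpace ℝ E] [FiniteDimensional ℝ E] {S : ℝ → E → E}

omit [FiniteDimensional ℝ E] in
/-- the isotropy representation at a fixed point -/
theorem Circ.iso_add (h : Circ S) {p : E} (hp : ∀ t, S t p = p) (s t : ℝ) :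
    fderiv ℝ (S (s + t)) p = (fderiv ℝ (S s) p).comp (fderiv ℝ (S t) p) := by
  have h2 : S (s + t) = S s ∘ S t := by
    funext y
    exact h.add s t y
  rw [h2, fderiv_comp p ((h.right s).differentiable (by simp) _)
      ((h.right t).differentiable (by simp) _), hp t]

omit [FiniteDimensional ℝ E] in
theorem Circ.iso_zero (h : Circ S) (p : E) : fderiv ℝ (S 0) p = ContinuousLinearMap.id ℝ E := by
  have h0 : S 0 = id := by
    funext y
    exact h.zero y
  rw [h0]
  exact fderiv_id

omit [FiniteDimensional ℝ E] in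
theorem Circ.iso_one (h : Circ S) (p : E) : fderiv ℝ (S 1) p = ContinuousLinearMap.id ℝ E := by
  have h0 : S 1 = id := by
    funext y
    exact h.one y
  rw [h0]
  exact fderiv_id

omit [FiniteDimensional ℝ E] in
/-- a vector killed by the linearised generator is fixed by the isotropy representation -/
theorem Circ.iso_fix (h : Circ S) {p : E} (hp : ∀ t, S t p = p) {v : E}
    (hv : fderiv ℝ (gen S) p v = 0) (t : ℝ) : fderiv ℝ (S t) p v = v := by
  have hc : ∀ t, HasDerivAt (fun t => fderiv ℝ (S t) p v) 0 t := by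
    intro t
    have h1 := h.dt_space p v
    rw [hv] at h1
    have h2 : HasDerivAt (fun s => fderiv ℝ (S t) p (fderiv ℝ (S s) p v)) 0 0 := by
      have h3 := (fderiv ℝ (S t) p).hasFDerivAt.comp_hasDerivAt (0 : ℝ) h1
      rw [map_zero] at h3
      exact h3
    have h4 : HasDerivAt (fun s : ℝ => s - t) 1 t := (hasDerivAt_id t).sub_const t
    have h5 : HasDerivAt (fun s => fderiv ℝ (S t) p (fderiv ℝ (S s) p v)) 0 (t - t) := by
      rwa [sub_self]
    have h6 := HasDerivAt.scomp (g₁ := fun s => fderiv ℝ (S t) p (fderiv ℝ (S s) p v))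
      (h := fun s : ℝ => s - t) t h5 h4
    rw [smul_zero] at h6
    refine h6.congr_of_eventuallyEq (Eventually.of_forall fun s => ?_)
    show fderiv ℝ (S s) p v = fderiv ℝ (S t) p (fderiv ℝ (S (s - t)) p v)
    have h7 := h.iso_add hp t (s - t)
    rw [add_sub_cancel] at h7
    rw [h7]
    rfl
  have := is_const_of_deriv_eq_zero (fun t => (hc t).differentiableAt)
    (fun t => (hc t).deriv) t 0
  simp only [h.iso_zero, ContinuousLinearMap.id_apply] at this
  exact this

/-- Bochner's linearising map -/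
noncomputable def boch (S : ℝ → E → E) (p x : E) : E :=
  ∫ t in (0 : ℝ)..1, fderiv ℝ (S (-t)) p (S t x - p)

omit [FiniteDimensional ℝ E] in
theorem Circ.boch_int (h : Circ S) (p : E) :
    ContDiff ℝ ∞ (fun z : ℝ × E => fderiv ℝ (S (-z.1)) p (S z.1 z.2 - p)) := by
  have h1 : (fun z : ℝ × E => fderiv ℝ (S (-z.1)) p (S z.1 z.2 - p)) = fun z : ℝ × E =>
      ((fderiv ℝ (fun z : ℝ × E => S z.1 z.2) (-z.1, p)).comp (ContinuousLinearMap.inr ℝ ℝ E))
        (S z.1 z.2 - p) := by
    funext z
    rw [h.space]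
  rw [h1]
  have h2 : ContDiff ℝ ∞ (fun z : ℝ × E => fderiv ℝ (fun z : ℝ × E => S z.1 z.2) (-z.1, p)) :=
    (h.smooth.fderiv_right (m := ∞) le_rfl).comp
      ((contDiff_fst.neg).prodMk contDiff_const)
  exact (h2.clm_comp contDiff_const).clm_apply (h.smooth.sub contDiff_const)

theorem Circ.boch_smooth (h : Circ S) (p : E) : ContDiff ℝ ∞ (boch S p) :=
  par_smooth (h.boch_int p)

omit [FiniteDimensional ℝ E] in
theorem Circ.boch_zero (p : E) (hp : ∀ t, S t p = p) : boch S p p = 0 := by
  unfold boch
  simp [hp]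

theorem Circ.boch_deriv (h : Circ S) {p : E} (hp : ∀ t, S t p = p) :
    HasFDerivAt (boch S p) (ContinuousLinearMap.id ℝ E) p := by
  have h1 := par_deriv (h.boch_int p) p
  refine h1.congr_fderiv ?_
  have h2 : ∀ t ∈ uIcc (0 : ℝ) 1, (fderiv ℝ (fun z : ℝ × E => fderiv ℝ (S (-z.1)) p (S z.1 z.2 - p))
      (t, p)).comp (ContinuousLinearMap.inr ℝ ℝ E) = ContinuousLinearMap.id ℝ E := by
    intro t _
    have h3 : HasFDerivAt (fun x => fderiv ℝ (S (-t)) p (S t x - p))
        ((fderiv ℝ (fun z : ℝ × E => fderiv ℝ (S (-z.1)) p (S z.1 z.2 - p))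
          (t, p)).comp (ContinuousLinearMap.inr ℝ ℝ E)) p :=
      (((h.boch_int p).differentiable (by simp)) (t, p)).hasFDerivAt.comp p
        (hasFDerivAt_prodMk_right t p)
    have h4 : HasFDerivAt (fun x => fderiv ℝ (S (-t)) p (S t x - p))
        ((fderiv ℝ (S (-t)) p).comp (fderiv ℝ (S t) p)) p :=
      (fderiv ℝ (S (-t)) p).hasFDerivAt.comp p
        ((((h.right t).differentiable (by simp)) p).hasFDerivAt.sub_const p)
    rw [h3.unique h4, ← h.iso_add hp, neg_add_cancel, h.iso_zero]
  rw [intervalIntegral.integral_congr h2, intervalIntegral.integral_const]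
  simp

/-- equivariance -/
theorem Circ.boch_equiv (h : Circ S) {p : E} (hp : ∀ t, S t p = p) (s : ℝ) (x : E) :
    boch S p (S s x) = fderiv ℝ (S s) p (boch S p x) := by
  set f : ℝ → E := fun t => fderiv ℝ (S (-t)) p (S t x - p) with hf
  have hfc : Continuous f :=
    (h.boch_int p).continuous.comp (by fun_prop : Continuous fun t : ℝ => (t, x))
  have hper : Function.Periodic f 1 := by
    intro t
    have h1 : S (t + 1) = S t := by
      funext y
      rw [h.add, h.one]
    have h2 : S (-(t + 1)) = S (-t) := by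
      funext y
      rw [show -t = -(t + 1) + 1 by ring, h.add, h.one]
    show fderiv ℝ (S (-(t + 1))) p (S (t + 1) x - p) = fderiv ℝ (S (-t)) p (S t x - p)
    rw [h1, h2]
  have h1 : ∀ t, fderiv ℝ (S (-t)) p (S t (S s x) - p) = fderiv ℝ (S s) p (f (t + s)) := by
    intro t
    show _ = fderiv ℝ (S s) p (fderiv ℝ (S (-(t + s))) p (S (t + s) x - p))
    have h2 := h.iso_add hp s (-(t + s))
    rw [show s + -(t + s) = -t by ring] at h2
    rw [h2, h.add]
    rfl
  unfold boch
  rw [← ContinuousLinearMap.intervalIntegral_comp_comm _ (hfc.intervalIntegrable 0 1)]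
  calc ∫ t in (0 : ℝ)..1, fderiv ℝ (S (-t)) p (S t (S s x) - p)
      = ∫ t in (0 : ℝ)..1, fderiv ℝ (S s) p (f (t + s)) :=
        intervalIntegral.integral_congr fun t _ => h1 t
    _ = ∫ t in (0 + s)..(1 + s), fderiv ℝ (S s) p (f t) :=
        intervalIntegral.integral_comp_add_right (fun t => fderiv ℝ (S s) p (f t)) s
    _ = ∫ t in (0 : ℝ)..1, fderiv ℝ (S s) p (f t) := by
        have hper2 : Function.Periodic (fun t => fderiv ℝ (S s) p (f t)) 1 := by
          intro t
          show fderiv ℝ (S s) p (f (t + 1)) = fderiv ℝ (S s) p (f t)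
          rw [hper]
        have := hper2.intervalIntegral_add_eq s 0
        rw [zero_add] at this
        rw [zero_add, add_comm 1 s]
        exact this

end

end Pool.Agent.Helper37.CA
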