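import Pool.Agent.Helper37.CA.Shape
import Pool.Agent.Helper97.SZ.Asm

/-!
# The linear circle action with weights, and the data attached to a circle action
-/

set_option autoImplicit false

open Set Filter Topology Metric MeasureTheory
open scoped ContDiff NNReal

namespace Pool.Agent.Helper37.CA

open Pool.Agent.Helper91.SY

/-- the linear circle action with the weights `w` -/
noncomputable def turn {n : ℕ} (w : Fin n → ℕ) (θ : ℝ) (z : V n) : V n :=
  (fun i => Real.cos (w i * θ) * z.1 i - Real.sin (w i * θ) * z.2 i,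
    fun i => Real.sin (w i * θ) * z.1 i + Real.cos (w i * θ) * z.2 i)

/-- `turn` as a continuous linear map -/
noncomputable def turnL {n : ℕ} (w : Fin n → ℕ) (θ : ℝ) : V n →L[ℝ] V n :=
  LinearMap.toContinuousLinearMap
    { toFun := turn w θ
      map_add' := fun x y => by
        refine Prod.ext (funext fun i => ?_) (funext fun i => ?_)
        · simp only [turn, Prod.fst_add, Prod.snd_add, Pi.add_apply]
          ring
        · simp only [turn, Prod.fst_add, Prod.snd_add, Pi.add_apply]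
          ring
      map_smul' := fun c x => by
        refine Prod.ext (funext fun i => ?_) (funext fun i => ?_)
        · simp only [turn, Prod.smul_fst, Prod.smul_snd, Pi.smul_apply, smul_eq_mul,
            RingHom.id_apply]
          ring
        · simp only [turn, Prod.smul_fst, Prod.smul_snd, Pi.smul_apply, smul_eq_mul,
            RingHom.id_apply]
          ring }

theorem turnL_apply {n : ℕ} (w : Fin n → ℕ) (θ : ℝ) (z : V n) : turnL w θ z = turn w θ z := rfl

theorem turn_w0 {n : ℕ} (w : Fin n → ℕ) (θ : ℝ) (u v : V n) :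
    w0 (turn w θ u) (turn w θ v) = w0 u v := by
  unfold w0 turn
  refine Finset.sum_congr rfl fun i _ => ?_
  have h := Real.cos_sq_add_sin_sq (w i * θ)
  simp only
  linear_combination (u.1 i * v.2 i - v.1 i * u.2 i) * h

theorem turn_neg {n : ℕ} (w : Fin n → ℕ) (θ : ℝ) (z : V n) : turn w (-θ) (turn w θ z) = z := by
  unfold turn
  refine Prod.ext (funext fun i => ?_) (funext fun i => ?_)
  · have h := Real.cos_sq_add_sin_sq (w i * θ)
    simp only [mul_neg, Real.cos_neg, Real.sin_neg]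
    linear_combination z.1 i * h
  · have h := Real.cos_sq_add_sin_sq (w i * θ)
    simp only [mul_neg, Real.cos_neg, Real.sin_neg]
    linear_combination z.2 i * h

theorem turn_norm_le {n : ℕ} (w : Fin n → ℕ) (θ : ℝ) (z : V n) : ‖turn w θ z‖ ≤ 2 * ‖z‖ := by
  have h1 : ∀ i, |z.1 i| ≤ ‖z‖ := fun i =>
    (norm_le_pi_norm z.1 i).trans (norm_fst_le z)
  have h2 : ∀ i, |z.2 i| ≤ ‖z‖ := fun i =>
    (norm_le_pi_norm z.2 i).trans (norm_snd_le z)
  have h0 : 0 ≤ 2 * ‖z‖ := by positivity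
  rw [Prod.norm_def, max_le_iff, pi_norm_le_iff_of_nonneg h0, pi_norm_le_iff_of_nonneg h0]
  constructor
  · intro i
    have h3 := Real.abs_cos_le_one (w i * θ)
    have h4 := Real.abs_sin_le_one (w i * θ)
    show |Real.cos (w i * θ) * z.1 i - Real.sin (w i * θ) * z.2 i| ≤ _
    refine (abs_sub _ _).trans ?_
    rw [abs_mul, abs_mul]
    nlinarith [h1 i, h2 i, abs_nonneg (z.1 i), abs_nonneg (z.2 i),
      abs_nonneg (Real.cos (w i * θ)), abs_nonneg (Real.sin (w i * θ))]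
  · intro i
    have h3 := Real.abs_cos_le_one (w i * θ)
    have h4 := Real.abs_sin_le_one (w i * θ)
    show |Real.sin (w i * θ) * z.1 i + Real.cos (w i * θ) * z.2 i| ≤ _
    refine (abs_add_le _ _).trans ?_
    rw [abs_mul, abs_mul]
    nlinarith [h1 i, h2 i, abs_nonneg (z.1 i), abs_nonneg (z.2 i),
      abs_nonneg (Real.cos (w i * θ)), abs_nonneg (Real.sin (w i * θ))]

theorem norm_le_turn {n : ℕ} (w : Fin n → ℕ) (θ : ℝ) (z : V n) : ‖z‖ ≤ 2 * ‖turn w θ z‖ := by
  have h := turn_norm_le w (-θ) (turn w θ z)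
  rwa [turn_neg] at h

/-- the generator of the linear action -/
noncomputable def tgen {n : ℕ} (w : Fin n → ℕ) (z : V n) : V n :=
  (fun i => -(w i : ℝ) * z.2 i, fun i => (w i : ℝ) * z.1 i)

theorem turn_deriv {n : ℕ} (w : Fin n → ℕ) (z : V n) :
    HasDerivAt (fun t : ℝ => turn w t z) (tgen w z) 0 := by
  have hl : ∀ i, HasDerivAt (fun t : ℝ => (w i : ℝ) * t) (w i) 0 := by
    intro i
    have h1 := (hasDerivAt_id (0 : ℝ)).const_mul (w i : ℝ)
    simpa using h1
  refine HasDerivAt.prodMk ?_ ?_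
  · rw [hasDerivAt_pi]
    intro i
    have h1 := ((hl i).cos.mul_const (z.1 i)).sub ((hl i).sin.mul_const (z.2 i))
    refine h1.congr_deriv ?_
    simp only [mul_zero, Real.sin_zero, Real.cos_zero]
    ring
  · rw [hasDerivAt_pi]
    intro i
    have h1 := ((hl i).sin.mul_const (z.1 i)).add ((hl i).cos.mul_const (z.2 i))
    refine h1.congr_deriv ?_
    simp only [mul_zero, Real.sin_zero, Real.cos_zero]
    ring

theorem w0_tgen {n : ℕ} (w : Fin n → ℕ) (z : V n) : 0 ≤ w0 z (tgen w z) := by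
  unfold w0 tgen
  refine Finset.sum_nonneg fun i _ => ?_
  simp only
  have h1 : z.1 i * ((w i : ℝ) * z.1 i) - -(w i : ℝ) * z.2 i * z.2 i =
      (w i : ℝ) * (z.1 i ^ 2 + z.2 i ^ 2) := by ring
  rw [h1]
  positivity

/-- a smooth action of the circle `ℝ / 2πℤ` which preserves `η` and, outside a compact set, the radial
`1`-form, with nonnegative moment map there -/
structure Act {n : ℕ} (η : Form n) (T : ℝ → V n → V n) : Prop where
  smooth : ContDiff ℝ ∞ (fun z : ℝ × V n => T z.1 z.2)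
  zero : ∀ x, T 0 x = x
  add : ∀ s t x, T (s + t) x = T s (T t x)
  period : ∀ x, T (2 * Real.pi) x = x
  inv : ∀ t x u v, η (T t x) ![fderiv ℝ (T t) x u, fderiv ℝ (T t) x v] = η x ![u, v]
  far : ∃ K : Set (V n), IsCompact K ∧ ∀ x, x ∉ K →
    (∀ t v, w0 (T t x) (fderiv ℝ (T t) x v) = w0 x v) ∧ 0 ≤ w0 x (deriv (fun t => T t x) 0)

/-- the action with period `1` -/
theorem Act.circ {n : ℕ} {η : Form n} {T : ℝ → V n → V n} (hT : Act η T) :
    Circ (fun t x => T (2 * Real.pi * t) x) := by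
  refine ⟨?_, ?_, ?_, ?_⟩
  · have h1 : ContDiff ℝ ∞ (fun z : ℝ × V n => ((2 * Real.pi * z.1, z.2) : ℝ × V n)) :=
      (contDiff_const.mul contDiff_fst).prodMk contDiff_snd
    exact hT.smooth.comp h1
  · intro x
    show T (2 * Real.pi * 0) x = x
    rw [mul_zero, hT.zero]
  · intro s t x
    show T (2 * Real.pi * (s + t)) x = _
    rw [mul_add, hT.add]
  · intro x
    show T (2 * Real.pi * 1) x = x
    rw [mul_one, hT.period]

theorem Act.gen_eq {n : ℕ} {η : Form n} {T : ℝ → V n → V n} (hT : Act η T) (x : V n) :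
    gen (fun t x => T (2 * Real.pi * t) x) x = (2 * Real.pi) • deriv (fun t => T t x) 0 := by
  have h1 := hT.circ.deriv_zero x
  have h2 : DifferentiableAt ℝ (fun t => T t x) 0 := by
    have h3 : ContDiff ℝ ∞ (fun t : ℝ => T t x) :=
      hT.smooth.comp (contDiff_id.prodMk contDiff_const)
    exact h3.differentiable (by simp) 0
  have h3 : HasDerivAt (fun t : ℝ => 2 * Real.pi * t) (2 * Real.pi) 0 := by
    simpa using (hasDerivAt_id (0 : ℝ)).const_mul (2 * Real.pi)
  have h4 : HasDerivAt (fun t => T t x) (deriv (fun t => T t x) 0) (2 * Real.pi * 0) := by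
    rw [mul_zero]
    exact h2.hasDerivAt
  exact h1.unique (HasDerivAt.scomp (g₁ := fun t => T t x) (h := fun t : ℝ => 2 * Real.pi * t)
    (0 : ℝ) h4 h3)

theorem Act.nontrivial {n : ℕ} {η : Form n} {T : ℝ → V n → V n} (hT : Act η T)
    (hne : ∃ t x, T t x ≠ x) : ∃ x, gen (fun t x => T (2 * Real.pi * t) x) x ≠ 0 := by
  by_contra hcon
  push Not at hcon
  obtain ⟨t, x, htx⟩ := hne
  apply htx
  have h1 := (hT.circ.fix_iff x).1 (hcon x) (t / (2 * Real.pi))
  have h2 : T (2 * Real.pi * (t / (2 * Real.pi))) x = x := h1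
  rwa [mul_div_cancel₀ _ (by have := Real.pi_pos; positivity)] at h2

/-- all the data attached to an action -/
structure Data {n : ℕ} (η : Form n) (S : ℝ → V n → V n)
    (B : V n → V n →L[ℝ] V n →L[ℝ] ℝ) (B0 : V n →L[ℝ] V n →L[ℝ] ℝ) (ρ : ℝ) (a : V n → V n →L[ℝ] ℝ)
    (Z : V n → V n) (Φ : ℝ → V n → V n) : Prop where
  circ : Circ S
  prim : Prim B B0 ρ a
  inv : ∀ t x v, a (S t x) (fderiv ℝ (S t) x v) = a x v
  pull : ∀ t, Pull (S t) B B
  flow : LFlow B ρ a Z Φ
  form : ∀ x u v, B x u v = η x ![u, v]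
  form0 : ∀ u v, B0 u v = w0 u v
  nonneg : ∀ x, ρ ≤ ‖x‖ → 0 ≤ mom S a x

/-- a primitive, standard at infinity -/
theorem exists_prim {n : ℕ} (hn : 2 ≤ n) {η : Form n} (hη : StdAtInf η) :
    ∃ (B : V n → V n →L[ℝ] V n →L[ℝ] ℝ) (B0 : V n →L[ℝ] V n →L[ℝ] ℝ) (R : ℝ)
      (a : V n → V n →L[ℝ] ℝ), Prim B B0 R a ∧ (∀ x u v, B x u v = η x ![u, v]) ∧
      ∀ u v, B0 u v = w0 u v := by
  obtain ⟨B, B0, R, hR, hB, hfar, hBη, hB0⟩ := Pool.Agent.Helper97.SZ.cw' n η hη
  have hR1 : 0 < R + 1 := by linarith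
  have hanti : ∀ u v, B0 u v = -B0 v u := by
    intro u v
    rw [hB0, hB0]
    unfold w0
    rw [← Finset.sum_neg_distrib]
    refine Finset.sum_congr rfl fun i _ => ?_
    ring
  have hfd : ∀ x, fderiv ℝ (fun x => B x - B0) x = fderiv ℝ B x := fun x =>
    ((hB.smooth.differentiable (by simp) x).hasFDerivAt.sub_const B0).fderiv
  obtain ⟨β, hβ, hβ0, hβd⟩ := Pool.Agent.Helper97.SZ.poin' n hn (fun x => B x - B0) (R + 1) hR1
    (hB.smooth.sub contDiff_const)
    (by
      intro x u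
      show B x u u - B0 u u = 0
      have h1 := hanti u u
      rw [hB.alt]
      linarith)
    (by
      intro x u v w
      rw [hfd]
      exact hB.closed x u v w)
    (by
      intro x hx
      show B x - B0 = 0
      rw [hfar x (by linarith)]
      exact sub_self B0)
  refine ⟨B, B0, R + 1, fun x => (1 / 2 : ℝ) • B0 x + β x, ?_, hBη, hB0⟩
  have hBs : ContDiff ℝ ∞ (fun x => (1 / 2 : ℝ) • B0 x) := by
    exact (B0.contDiff).const_smul (1 / 2 : ℝ)
  refine ⟨hR1, hB, fun x hx => hfar x (by linarith), hBs.add hβ, ?_, ?_⟩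
  · intro x u v
    have h1 : HasFDerivAt (fun x => (1 / 2 : ℝ) • B0 x + β x) ((1 / 2 : ℝ) • B0 + fderiv ℝ β x) x :=
      ((B0.hasFDerivAt).const_smul (1 / 2 : ℝ)).add ((hβ.differentiable (by simp) x).hasFDerivAt)
    unfold d1
    rw [h1.fderiv]
    have h2 := congrArg (fun L : V n →L[ℝ] V n →L[ℝ] ℝ => L u v) (hβd x)
    simp only [Pool.Agent.Helper97.SZ.dd, sub_apply, ContinuousLinearMap.flip_apply] at h2
    simp only [add_apply, smul_apply, smul_eq_mul]
    rw [hanti v u]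
    linarith
  · intro x v hx
    show ((1 / 2 : ℝ) • B0 x + β x) v = _
    rw [hβ0 x hx, add_zero, smul_apply, smul_eq_mul]

theorem exists_data {n : ℕ} (hn : 2 ≤ n) {η : Form n} (hη : StdAtInf η)
    {T : ℝ → V n → V n} (hT : Act η T) : ∃ B B0 ρ a Z Φ,
      Data η (fun t x => T (2 * Real.pi * t) x) B B0 ρ a Z Φ := by
  obtain ⟨B, B0, R, a, hP, hBη, hB0⟩ := exists_prim hn hη
  obtain ⟨K, hK, hKT⟩ := hT.far
  have hgen := hT.gen_eq
  have hc := hT.circ
  set S : ℝ → V n → V n := fun t x => T (2 * Real.pi * t) x with hS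
  -- the points whose orbit meets the ball of radius `R`
  have hC : IsCompact ((fun z : ℝ × V n => S (-z.1) z.2) '' (Icc (0 : ℝ) 1 ×ˢ closedBall 0 R)) := by
    refine (isCompact_Icc.prod (isCompact_closedBall _ _)).image ?_
    exact hc.smooth.continuous.comp ((continuous_fst.neg).prodMk continuous_snd)
  obtain ⟨L, hL⟩ := (hK.union hC).isBounded.exists_norm_le
  have hpull : ∀ t, Pull (S t) B B := by
    intro t x u v
    rw [hBη, hBη]
    exact hT.inv _ x u v
  have hinv : ∀ t x u v, d1 a (S t x) (fderiv ℝ (S t) x u) (fderiv ℝ (S t) x v) = d1 a x u v := by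
    intro t x u v
    rw [hP.prim, hP.prim]
    exact hpull t x u v
  set ρ : ℝ := max R (L + 1) with hρ
  have hρR : R ≤ ρ := le_max_left _ _
  have hρL : L + 1 ≤ ρ := le_max_right _ _
  have hout : ∀ x, ρ ≤ ‖x‖ → x ∉ K ∧ ∀ t ∈ Icc (0 : ℝ) 1, R < ‖S t x‖ := by
    intro x hx
    have h1 : x ∉ K ∪ (fun z : ℝ × V n => S (-z.1) z.2) '' (Icc (0 : ℝ) 1 ×ˢ closedBall 0 R) := by
      intro h2
      have := hL x h2
      linarith
    rw [mem_union, not_or] at h1
    refine ⟨h1.1, fun t ht => ?_⟩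
    by_contra hcon
    rw [not_lt] at hcon
    apply h1.2
    refine ⟨(t, S t x), ⟨ht, by rwa [mem_closedBall_zero_iff]⟩, ?_⟩
    show S (-t) (S t x) = x
    rw [← hc.add, neg_add_cancel, hc.zero]
  have hstd : ∀ x v, ρ ≤ ‖x‖ → avg S a x v = (1 / 2) * B0 x v := by
    intro x v hx
    rw [hc.avg_apply hP.smooth]
    have h1 : ∀ t ∈ uIcc (0 : ℝ) 1, pb1 (S t) a x v = (1 / 2) * B0 x v := by
      intro t ht
      rw [uIcc_of_le zero_le_one] at ht
      show a (S t x) (fderiv ℝ (S t) x v) = _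
      rw [hP.std _ _ ((hout x hx).2 t ht).le, hB0, hB0]
      have h2 := (hKT x (hout x hx).1).1 (2 * Real.pi * t) v
      rw [show w0 (S t x) (fderiv ℝ (S t) x v) = w0 x v from h2]
    rw [intervalIntegral.integral_congr h1, intervalIntegral.integral_const]
    simp
  have hP' : Prim B B0 ρ (avg S a) := by
    refine ⟨hP.pos.trans_le hρR, hP.symp, fun x hx => hP.far x (hρR.trans hx),
      hc.avg_smooth hP.smooth, fun x u v => ?_, hstd⟩
    rw [hc.d1_avg hP.smooth hinv, hP.prim]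
  obtain ⟨Z, Φ, hF⟩ := exists_lflow hP'
  refine ⟨B, B0, ρ, avg S a, Z, Φ, hc, hP', fun t x v => hc.avg_inv hP.smooth t x v, hpull, hF,
    hBη, hB0, fun x hx => ?_⟩
  have h3 := (hKT x (hout x hx).1).2
  unfold mom
  rw [hstd x _ hx, hgen, map_smul, hB0, smul_eq_mul]
  have := Real.pi_pos
  positivity

/-- the skeleton consists of fixed points -/
theorem Data.skel_fix {n : ℕ} {η : Form n} {S : ℝ → V n → V n}
    {B : V n → V n →L[ℝ] V n →L[ℝ] ℝ} {B0 : V n →L[ℝ] V n →L[ℝ] ℝ} {ρ : ℝ} {a : V n → V n →L[ℝ] ℝ}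
    {Z : V n → V n} {Φ : ℝ → V n → V n} (h : Data η S B B0 ρ a Z Φ) {L : ℝ} {x : V n}
    (hx : x ∈ skel Φ L) : mom S a x = 0 ∧ gen S x = 0 := by
  have h1 := mom_nonneg h.circ h.prim h.inv h.nonneg
  have h2 : mom S a x = 0 := h.flow.skel_zero (mom_smooth h.circ h.prim.smooth).continuous
    (fun t x => mom_flow h.circ h.prim h.inv h.flow t x) hx
  exact ⟨h2, (h1 x).2 h2⟩

/-- the skeleton as a skeleton in the sense of the attractor criterion -/
theorem Data.skelFlow {n : ℕ} {η : Form n} {S : ℝ → V n → V n}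
    {B : V n → V n →L[ℝ] V n →L[ℝ] ℝ} {B0 : V n →L[ℝ] V n →L[ℝ] ℝ} {ρ : ℝ} {a : V n → V n →L[ℝ] ℝ}
    {Z : V n → V n} {Φ : ℝ → V n → V n} (h : Data η S B B0 ρ a Z Φ) :
    Pool.Agent.Helper97.SZ.SkelFlow η ρ Φ (skel Φ ρ) := by
  refine ⟨h.flow.smooth, h.flow.zero, h.flow.add, fun t x u v => ?_, h.flow.skel_compact ρ,
    fun N hN hKN => h.flow.skel_att le_rfl hN hKN⟩
  rw [← h.form, ← h.form]
  exact h.flow.conf t x u v

theorem Data.outside {n : ℕ} {η : Form n} {S : ℝ → V n → V n}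
    {B : V n → V n →L[ℝ] V n →L[ℝ] ℝ} {B0 : V n →L[ℝ] V n →L[ℝ] ℝ} {ρ : ℝ} {a : V n → V n →L[ℝ] ℝ}
    {Z : V n → V n} {Φ : ℝ → V n → V n} (h : Data η S B B0 ρ a Z Φ) :
    Pool.Agent.Helper97.SZ.Outside η ρ := by
  intro x hx u v
  rw [← h.form, h.prim.far x hx.le, h.form0]

/-- a displaced skeleton of fixed points -/
theorem displaced_standard {n : ℕ} (hn : 2 ≤ n) {η : Form n} (hη : StdAtInf η)
    {B : V n → V n →L[ℝ] V n →L[ℝ] ℝ} (hBη : ∀ x u v, B x u v = η x ![u, v]) {R : ℝ} (hR : 0 < R)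
    (ho : Pool.Agent.Helper97.SZ.Outside η R) {Φ : ℝ → V n → V n} {K : Set (V n)}
    (hK : Pool.Agent.Helper97.SZ.SkelFlow η R Φ K) {g : V n → V n} (hg : ContDiff ℝ ∞ g)
    (hgi : Function.Injective g) (hgp : Pull g B B) (hgK : ∀ x ∈ K, g x ∉ K) : Standard η := by
  obtain ⟨F, c, hA⟩ := Pool.Agent.Helper97.SZ.skelFlow_attr hK
  have h5 : Pool.Agent.Helper97.SZ.AttrDisp η R := by
    refine ⟨F, c, _, hA, univ, g, isOpen_univ, subset_univ _, hg.contDiffOn, hgi.injOn, ?_, hgK⟩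
    intro x _ u v
    rw [← hBη, ← hBη]
    exact hgp x u v
  exact ((Pool.Agent.Helper97.SZ.att' n hn η R hR hη ho).out 4 0).1 h5

/-- THEOREM B: circle actions with nonnegative moment map at infinity -/
theorem thmB {n : ℕ} (hn : 2 ≤ n) {η : Form n} (hη : StdAtInf η)
    {T : ℝ → V n → V n} (hT : Act η T) (hne : ∃ t x, T t x ≠ x) : Standard η := by
  obtain ⟨B, B0, ρ, a, Z, Φ, hD⟩ := exists_data hn hη hT
  have hne' := hT.nontrivial hne
  set S : ℝ → V n → V n := fun t x => T (2 * Real.pi * t) x with hS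
  have hKc := hD.flow.skel_compact ρ
  have hcore := fun x (hx : x ∈ skel Φ ρ) => hD.circ.core hne' hD.pull (hD.skel_fix hx).2
  obtain ⟨g, hg, hgi, hgp, hgK⟩ := core_displaced hD.prim.symp hD.flow.sm hD.flow.neg_self hKc
    hD.circ.ctr_smooth (fun x hx => (hcore x hx).1) (fun x hx => (hcore x hx).2.1)
    (fun x hx => (hcore x hx).2.2.1) (fun x hx => (hcore x hx).2.2.2)
    (by
      intro t ht x hx s hs
      rw [← hD.flow.add]
      exact hx (s + t) (by linarith))
    (fun x hx => hD.flow.skel_ball hx)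
    (by
      intro N hN hKN
      obtain ⟨t, ht⟩ := hD.flow.skel_att le_rfl hN hKN
      exact ⟨max t 0, le_max_right _ _, fun x hx => ht _ (le_max_left _ _) x hx⟩)
  exact displaced_standard hn hη hD.form hD.prim.pos hD.outside hD.skelFlow hg hgi hgp hgK

/-- an action which is linear at infinity with nonnegative weights -/
theorem turn_act {n : ℕ} {η : Form n} {w : Fin n → ℕ} {T : ℝ → V n → V n}
    (hs : ContDiff ℝ ∞ (fun z : ℝ × V n => T z.1 z.2)) (h0 : ∀ x, T 0 x = x)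
    (ha : ∀ s t x, T (s + t) x = T s (T t x)) (hp : ∀ x, T (2 * Real.pi) x = x)
    (hi : ∀ t x u v, η (T t x) ![fderiv ℝ (T t) x u, fderiv ℝ (T t) x v] = η x ![u, v])
    (hfar : ∃ K : Set (V n), IsCompact K ∧ ∀ x, x ∉ K → ∀ t, T t x = turn w t x) : Act η T := by
  refine ⟨hs, h0, ha, hp, hi, ?_⟩
  obtain ⟨K, hK, hKT⟩ := hfar
  refine ⟨K, hK, fun x hx => ⟨fun t v => ?_, ?_⟩⟩
  · have h1 : T t =ᶠ[𝓝 x] fun y => turnL w t y := by
      filter_upwards [hK.isClosed.isOpen_compl.mem_nhds hx] with y hy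
      exact hKT y hy t
    have h2 : fderiv ℝ (fun y => turnL w t y) x = turnL w t := (turnL w t).fderiv
    rw [h1.fderiv_eq, h2, hKT x hx t]
    exact turn_w0 w t x v
  · have h1 : (fun t => T t x) = fun t => turn w t x := by
      funext t
      exact hKT x hx t
    rw [h1, (turn_deriv w x).deriv]
    exact w0_tgen w x

/-- THEOREM C: actions which are linear at infinity -/
theorem thmC {n : ℕ} (hn : 2 ≤ n) {η : Form n} (hη : StdAtInf η) {w : Fin n → ℕ} (hw : w ≠ 0)
    {T : ℝ → V n → V n}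
    (hs : ContDiff ℝ ∞ (fun z : ℝ × V n => T z.1 z.2)) (h0 : ∀ x, T 0 x = x)
    (ha : ∀ s t x, T (s + t) x = T s (T t x)) (hp : ∀ x, T (2 * Real.pi) x = x)
    (hi : ∀ t x u v, η (T t x) ![fderiv ℝ (T t) x u, fderiv ℝ (T t) x v] = η x ![u, v])
    (hfar : ∃ K : Set (V n), IsCompact K ∧ ∀ x, x ∉ K → ∀ t, T t x = turn w t x) :
    Standard η := by
  refine thmB hn hη (turn_act hs h0 ha hp hi hfar) ?_
  obtain ⟨K, hK, hKT⟩ := hfar
  obtain ⟨L, hL⟩ := hK.isBounded.exists_norm_le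
  obtain ⟨i, hi⟩ := Function.ne_iff.1 hw
  have hwi : (w i : ℝ) ≠ 0 := by exact_mod_cast hi
  set z : V n := (Pi.single i (max L 0 + 1), 0) with hz
  have hz1 : z.1 i = max L 0 + 1 := by simp [hz]
  have hzK : z ∉ K := by
    intro h1
    have h2 := hL z h1
    have h3 : |z.1 i| ≤ ‖z‖ := (norm_le_pi_norm z.1 i).trans (norm_fst_le z)
    rw [hz1, abs_of_pos (by positivity)] at h3
    have := le_max_left L 0
    linarith
  refine ⟨Real.pi / w i, z, fun h1 => ?_⟩
  rw [hKT z hzK] at h1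
  have h2 := congrArg (fun y : V n => y.1 i) h1
  have h3 : (w i : ℝ) * (Real.pi / w i) = Real.pi := by
    field_simp
  simp only [turn, h3, Real.cos_pi, Real.sin_pi, zero_mul, sub_zero] at h2
  rw [hz1] at h2
  have := le_max_right L 0
  linarith

end Pool.Agent.Helper37.CA
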